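import Mathlib

set_option autoImplicit false

namespace Pool.MP_59b15d_al.H76

section


open FreeGroup (of)

/-- The translation action of `B` on functions on `B`. -/
def shift (B A : Type*) [Group B] [CommGroup A] : B →* MulAut (B → A) where
  toFun b :=
    { toFun := fun u c => u (b⁻¹ * c)
      invFun := fun u c => u (b * c)
      left_inv := by intro u; funext c; simp
      right_inv := by intro u; funext c; simp
      map_mul' := by intro u v; rfl }
  map_one' := by ext u c; simp
  map_mul' := by intro b b'; ext u c; simp [mul_assoc]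

theorem shift_apply {B A : Type*} [Group B] [CommGroup A] (b : B) (u : B → A) (c : B) :
    shift B A b u c = u (b⁻¹ * c) := rfl

/-- If `w` commutes with `x = (ε, β)` in the regular wreath product, where `ε` is the delta function
at `1`, the image of `w` is a power of `β`. -/
theorem wreath_cs {B A : Type*} [Group B] [Finite B] [CommGroup A] (ζ : A) (hζ : ζ ≠ 1)
    [DecidableEq B]
    (x w : (B → A) ⋊[shift B A] B) (hx : x.left = Pi.mulSingle 1 ζ) (h : w * x = x * w) :
    ∃ k : ℤ, w.right = x.right ^ k := by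
  classical
  have := Fintype.ofFinite B
  have hl := congrArg SemidirectProduct.left h
  rw [SemidirectProduct.mul_left, SemidirectProduct.mul_left, hx] at hl
  let Z : Finset B := Finset.univ.filter (fun c => c ∈ Subgroup.zpowers x.right)
  have hprod : ∀ u : B → A, ∏ c ∈ Z, (shift B A x.right u) c = ∏ c ∈ Z, u c := by
    intro u
    refine Finset.prod_bij (fun c _ => x.right⁻¹ * c) ?_ ?_ ?_ ?_
    · intro c hc
      rw [Finset.mem_filter] at hc ⊢
      exact ⟨Finset.mem_univ _, Subgroup.mul_mem _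
        (Subgroup.inv_mem _ (Subgroup.mem_zpowers _)) hc.2⟩
    · intro c _ d _ hcd
      exact mul_left_cancel hcd
    · intro c hc
      rw [Finset.mem_filter] at hc
      refine ⟨x.right * c, ?_, by group⟩
      rw [Finset.mem_filter]
      exact ⟨Finset.mem_univ _, Subgroup.mul_mem _ (Subgroup.mem_zpowers _) hc.2⟩
    · intro c _
      rfl
  have h1 : ∏ c ∈ Z, (w.left * shift B A w.right (Pi.mulSingle 1 ζ)) c =
      ∏ c ∈ Z, ((Pi.mulSingle 1 ζ : B → A) * shift B A x.right w.left) c := by rw [hl]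
  simp only [Pi.mul_apply, Finset.prod_mul_distrib, hprod] at h1
  have h2 : ∏ c ∈ Z, (shift B A w.right (Pi.mulSingle 1 ζ)) c = ∏ c ∈ Z, (Pi.mulSingle 1 ζ : B → A) c := by
    rw [mul_comm] at h1
    exact mul_right_cancel h1
  have h3 : ∏ c ∈ Z, (Pi.mulSingle 1 ζ : B → A) c = ζ := by
    rw [Finset.prod_eq_single 1]
    · simp
    · intro c _ hc
      simp [hc]
    · intro h1
      exfalso
      apply h1
      rw [Finset.mem_filter]
      exact ⟨Finset.mem_univ _, Subgroup.one_mem _⟩
  rw [h3] at h2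
  by_contra hne
  push Not at hne
  apply hζ
  rw [← h2]
  apply Finset.prod_eq_one
  intro c hc
  rw [shift_apply]
  rw [Finset.mem_filter, Subgroup.mem_zpowers_iff] at hc
  obtain ⟨-, k, rfl⟩ := hc
  have : w.right⁻¹ * x.right ^ k ≠ 1 := by
    intro h4
    rw [inv_mul_eq_one] at h4
    exact hne k h4
  simp [this]

/-- In a free group, an element that commutes with a generator modulo a deep subgroup of finite index
is a power of the generator modulo a given subgroup of finite index. -/
theorem free_cs {ι : Type*} (i : ι) (M : Subgroup (FreeGroup ι)) [M.Normal] [M.FiniteIndex] :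
    ∃ M' : Subgroup (FreeGroup ι), M'.Normal ∧ M'.FiniteIndex ∧ M' ≤ M ∧
      ∀ f : FreeGroup ι, f * of i * f⁻¹ * (of i)⁻¹ ∈ M' → ∃ k : ℤ, f * of i ^ k ∈ M := by
  classical
  have : Finite (FreeGroup ι ⧸ M) := Subgroup.finite_quotient_of_finiteIndex
  let A := Multiplicative (ZMod 2)
  let ζ : A := Multiplicative.ofAdd 1
  have hζ : ζ ≠ 1 := by decide
  let θ : FreeGroup ι →* ((FreeGroup ι ⧸ M → A) ⋊[shift (FreeGroup ι ⧸ M) A] (FreeGroup ι ⧸ M)) :=
    FreeGroup.lift (fun j => if j = i then ⟨Pi.mulSingle 1 ζ, (of j : FreeGroup ι)⟩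
      else ⟨1, (of j : FreeGroup ι)⟩)
  have hθr : ∀ f : FreeGroup ι, (θ f).right = (f : FreeGroup ι ⧸ M) := by
    intro f
    have h1 : SemidirectProduct.rightHom.comp θ = QuotientGroup.mk' M := by
      ext j
      by_cases hj : j = i
      · simp [θ, hj]
      · simp [θ, hj]
    exact DFunLike.congr_fun h1 f
  have hfin : Finite ((FreeGroup ι ⧸ M → A) ⋊[shift (FreeGroup ι ⧸ M) A] (FreeGroup ι ⧸ M)) :=
    Finite.of_equiv _ SemidirectProduct.equivProd.symm
  refine ⟨θ.ker, inferInstance, Subgroup.finiteIndex_ker θ, ?_, ?_⟩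
  · intro f hf
    rw [MonoidHom.mem_ker] at hf
    rw [← QuotientGroup.eq_one_iff, ← hθr, hf]
    rfl
  · intro f hf
    rw [MonoidHom.mem_ker, map_mul, map_mul, map_mul, map_inv, map_inv] at hf
    have h2 : θ f * θ (of i) = θ (of i) * θ f := by
      rw [mul_inv_eq_one] at hf
      exact mul_inv_eq_iff_eq_mul.mp hf
    obtain ⟨k, hk⟩ := wreath_cs ζ hζ (θ (of i)) (θ f) (by simp [θ]) h2
    rw [hθr, hθr] at hk
    refine ⟨-k, ?_⟩
    rw [← QuotientGroup.eq_one_iff]
    change (f : FreeGroup ι ⧸ M) * (of i : FreeGroup ι ⧸ M) ^ (-k) = 1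
    rw [hk, zpow_neg, mul_inv_cancel]

theorem exists_pow_mem {P : Type*} [Group P] (M : Subgroup P) [M.Normal] [M.FiniteIndex] :
    ∃ e : ℕ, 0 < e ∧ ∀ x : P, x ^ e ∈ M := by
  have : Finite (P ⧸ M) := Subgroup.finite_quotient_of_finiteIndex
  refine ⟨Nat.card (P ⧸ M), Nat.card_pos, fun x => ?_⟩
  rw [← QuotientGroup.eq_one_iff]
  change (x : P ⧸ M) ^ Nat.card (P ⧸ M) = 1
  exact pow_card_eq_one'

theorem zpow_mem_of_dvd {P : Type*} [Group P] {M : Subgroup P} {e : ℕ} {x : P} (h : x ^ e ∈ M)
    {k : ℤ} (hk : (e : ℤ) ∣ k) : x ^ k ∈ M := by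
  obtain ⟨l, rfl⟩ := hk
  rw [zpow_mul, zpow_natCast]
  exact M.zpow_mem h l

/-- An element that commutes with two generators modulo a deep subgroup of finite index lies in a
given subgroup of finite index. -/
theorem free_center {ι : Type*} (i j : ι) (hij : i ≠ j) (M : Subgroup (FreeGroup ι)) [M.Normal]
    [M.FiniteIndex] :
    ∃ M' : Subgroup (FreeGroup ι), M'.Normal ∧ M'.FiniteIndex ∧ M' ≤ M ∧
      ∀ f : FreeGroup ι, f * of i * f⁻¹ * (of i)⁻¹ ∈ M' → f * of j * f⁻¹ * (of j)⁻¹ ∈ M' →
        f ∈ M := by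
  classical
  obtain ⟨e, he, hM⟩ := exists_pow_mem M
  have : NeZero e := ⟨he.ne'⟩
  let χ : FreeGroup ι →* Multiplicative (ZMod e) :=
    FreeGroup.lift (fun l => if l = i then Multiplicative.ofAdd 1 else 1)
  have hfin : χ.ker.FiniteIndex := Subgroup.finiteIndex_ker χ
  let M₂ := M ⊓ χ.ker
  obtain ⟨Ma, hn, hf, hle, ha⟩ := free_cs i M₂
  obtain ⟨Mb, hn', hf', hle', hb⟩ := free_cs j M₂
  refine ⟨Ma ⊓ Mb, inferInstance, inferInstance, fun x hx => (hle hx.1).1, ?_⟩
  intro f h1 h2
  obtain ⟨k, hk⟩ := ha f h1.1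
  obtain ⟨l, hl⟩ := hb f h2.2
  have hk' : χ (f * of i ^ k) = 1 := hk.2
  have hl' : χ (f * of j ^ l) = 1 := hl.2
  have hχi : χ (of i) = Multiplicative.ofAdd 1 := by simp [χ]
  have hχj : χ (of j) = 1 := by simp [χ, hij.symm]
  rw [map_mul, map_zpow, hχj, one_zpow, mul_one] at hl'
  rw [map_mul, map_zpow, hχi, hl', one_mul, ← ofAdd_zsmul] at hk'
  have h3 : (k : ZMod e) = 0 := by
    have h4 : Multiplicative.toAdd (Multiplicative.ofAdd (k • (1 : ZMod e))) = 0 := by
      rw [hk']; rfl
    simpa using h4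
  rw [ZMod.intCast_zmod_eq_zero_iff_dvd] at h3
  have h5 := zpow_mem_of_dvd (hM (of i)) h3
  have h6 := M.mul_mem hk.1 (M.inv_mem h5)
  rwa [mul_inv_cancel_right] at h6

/-- Commuting elements of a free group lie in a common cyclic subgroup. -/
theorem commute_cyclic {ι : Type*} (u v : FreeGroup ι) (h : u * v = v * u) :
    ∃ y : FreeGroup ι, ∃ k l : ℤ, u = y ^ k ∧ v = y ^ l := by
  classical
  let S := Subgroup.closure ({u, v} : Set (FreeGroup ι))
  have hcomm : ∀ a b : S, a * b = b * a := by
    have h1 : ∀ x ∈ ({u, v} : Set (FreeGroup ι)), ∀ y ∈ ({u, v} : Set (FreeGroup ι)),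
        x * y = y * x := by
      rintro x (rfl | rfl) y (rfl | rfl)
      · rfl
      · exact h
      · exact h.symm
      · rfl
    have h2 := Subgroup.isMulCommutative_closure h1
    intro a b
    exact h2.is_comm.comm a b
  have hfree : IsFreeGroup S := inferInstance
  let e : S ≃* FreeGroup (IsFreeGroup.Generators S) := IsFreeGroup.toFreeGroup S
  have hsub : Subsingleton (IsFreeGroup.Generators S) := by
    constructor
    intro a b
    by_contra hab
    have h1 : (FreeGroup.of a * FreeGroup.of b : FreeGroup (IsFreeGroup.Generators S)) =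
        FreeGroup.of b * FreeGroup.of a := by
      have := hcomm (e.symm (of a)) (e.symm (of b))
      have h2 := congrArg e this
      simpa using h2
    -- map to permutations of three letters
    let f : FreeGroup (IsFreeGroup.Generators S) →* Equiv.Perm (Fin 3) :=
      FreeGroup.lift (fun c => if c = a then Equiv.swap 0 1 else Equiv.swap 1 2)
    have h3 := congrArg f h1
    have ha : f (of a) = Equiv.swap 0 1 := by simp [f]
    have hb : f (of b) = Equiv.swap 1 2 := by simp [f, Ne.symm hab]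
    rw [map_mul, map_mul, ha, hb] at h3
    revert h3
    decide
  have hu : u ∈ S := Subgroup.subset_closure (by simp)
  have hv : v ∈ S := Subgroup.subset_closure (by simp)
  rcases isEmpty_or_nonempty (IsFreeGroup.Generators S) with hE | ⟨⟨g⟩⟩
  · have h1 : ∀ z : S, z = 1 := by
      intro z
      apply e.injective
      exact Subsingleton.elim _ _
    refine ⟨1, 0, 0, ?_, ?_⟩
    · have := congrArg Subtype.val (h1 ⟨u, hu⟩); simpa using this
    · have := congrArg Subtype.val (h1 ⟨v, hv⟩); simpa using this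
  · have hcyc : ∀ z : FreeGroup (IsFreeGroup.Generators S), ∃ k : ℤ, z = of g ^ k := by
      intro z
      induction z using FreeGroup.induction_on with
      | C1 => exact ⟨0, by simp⟩
      | of x => exact ⟨1, by rw [Subsingleton.elim x g]; simp⟩
      | inv_of x _ => exact ⟨-1, by rw [Subsingleton.elim x g]; simp⟩
      | mul x y hx hy =>
        obtain ⟨k, rfl⟩ := hx
        obtain ⟨l, rfl⟩ := hy
        exact ⟨k + l, by rw [zpow_add]⟩
    obtain ⟨k, hk⟩ := hcyc (e ⟨u, hu⟩)
    obtain ⟨l, hl⟩ := hcyc (e ⟨v, hv⟩)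
    refine ⟨(e.symm (of g) : S), k, l, ?_, ?_⟩
    · have h1 : (⟨u, hu⟩ : S) = e.symm (of g) ^ k := by
        rw [← map_zpow, ← hk, MulEquiv.symm_apply_apply]
      have h2 := congrArg Subtype.val h1
      simpa using h2
    · have h1 : (⟨v, hv⟩ : S) = e.symm (of g) ^ l := by
        rw [← map_zpow, ← hl, MulEquiv.symm_apply_apply]
      have h2 := congrArg Subtype.val h1
      simpa using h2

end

section


open FreeGroup (of)

/-- The Heisenberg group. -/
@[ext] structure Heis (R : Type*) where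
  x : R
  y : R
  z : R

namespace Heis

variable {R : Type*} [CommRing R]

instance : Mul (Heis R) := ⟨fun u v => ⟨u.x + v.x, u.y + v.y, u.z + v.z + u.x * v.y⟩⟩
instance : One (Heis R) := ⟨⟨0, 0, 0⟩⟩
instance : Inv (Heis R) := ⟨fun u => ⟨-u.x, -u.y, -u.z + u.x * u.y⟩⟩

@[simp] theorem mul_x (u v : Heis R) : (u * v).x = u.x + v.x := rfl
@[simp] theorem mul_y (u v : Heis R) : (u * v).y = u.y + v.y := rfl
@[simp] theorem mul_z (u v : Heis R) : (u * v).z = u.z + v.z + u.x * v.y := rfl
@[simp] theorem one_x : (1 : Heis R).x = 0 := rfl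
@[simp] theorem one_y : (1 : Heis R).y = 0 := rfl
@[simp] theorem one_z : (1 : Heis R).z = 0 := rfl
@[simp] theorem inv_x (u : Heis R) : (u⁻¹).x = -u.x := rfl
@[simp] theorem inv_y (u : Heis R) : (u⁻¹).y = -u.y := rfl
@[simp] theorem inv_z (u : Heis R) : (u⁻¹).z = -u.z + u.x * u.y := rfl

instance : Group (Heis R) where
  mul_assoc u v w := by ext <;> simp <;> ring
  one_mul u := by ext <;> simp
  mul_one u := by ext <;> simp
  inv_mul_cancel u := by ext <;> simp

theorem pow_central (u : Heis R) (hx : u.x = 0) (hy : u.y = 0) (k : ℕ) :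
    u ^ k = ⟨0, 0, k * u.z⟩ := by
  induction k with
  | zero => ext <;> simp
  | succ k ih =>
    rw [pow_succ, ih]
    ext
    · simp [hx]
    · simp [hy]
    · simp [hy]; ring

theorem zpow_central (u : Heis R) (hx : u.x = 0) (hy : u.y = 0) (k : ℤ) :
    u ^ k = ⟨0, 0, k * u.z⟩ := by
  induction k using Int.negInduction with
  | nat k => rw [zpow_natCast, pow_central u hx hy]; simp
  | neg _ k =>
    rw [zpow_neg, zpow_natCast, pow_central u hx hy]
    ext <;> simp

theorem pow_x (u : Heis R) (k : ℕ) : (u ^ k).x = k * u.x := by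
  induction k with
  | zero => simp
  | succ k ih => rw [pow_succ, mul_x, ih]; push_cast; ring

theorem pow_y (u : Heis R) (k : ℕ) : (u ^ k).y = k * u.y := by
  induction k with
  | zero => simp
  | succ k ih => rw [pow_succ, mul_y, ih]; push_cast; ring

theorem zpow_x (u : Heis R) (k : ℤ) : (u ^ k).x = k * u.x := by
  induction k using Int.negInduction with
  | nat k => rw [zpow_natCast, pow_x]; simp
  | neg _ k => rw [zpow_neg, zpow_natCast, inv_x, pow_x]; simp

theorem zpow_y (u : Heis R) (k : ℤ) : (u ^ k).y = k * u.y := by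
  induction k using Int.negInduction with
  | nat k => rw [zpow_natCast, pow_y]; simp
  | neg _ k => rw [zpow_neg, zpow_natCast, inv_y, pow_y]; simp

instance [Finite R] : Finite (Heis R) :=
  Finite.of_injective (fun u : Heis R => (u.x, u.y, u.z)) (by
    intro u v h
    simp only [Prod.mk.injEq] at h
    exact Heis.ext h.1 h.2.1 h.2.2)

end Heis

/-- The free group of rank two. -/
abbrev F2 : Type := FreeGroup (Fin 2)

/-- The first generator. -/
abbrev ga : F2 := of 0
/-- The second generator. -/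
abbrev gb : F2 := of 1
/-- The commutator of the generators. -/
def gc : F2 := ga * gb * ga⁻¹ * gb⁻¹

/-- The map to the Heisenberg group. -/
def toHeis (R : Type*) [CommRing R] : F2 →* Heis R :=
  FreeGroup.lift ![⟨1, 0, 0⟩, ⟨0, 1, 0⟩]

theorem toHeis_a (R : Type*) [CommRing R] : toHeis R ga = ⟨1, 0, 0⟩ := by simp [toHeis]
theorem toHeis_b (R : Type*) [CommRing R] : toHeis R gb = ⟨0, 1, 0⟩ := by simp [toHeis]
theorem toHeis_c (R : Type*) [CommRing R] : toHeis R gc = ⟨0, 0, 1⟩ := by
  rw [gc, map_mul, map_mul, map_mul, map_inv, map_inv, toHeis_a, toHeis_b]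
  ext <;> simp

/-- An element commuting with the commutator of the generators is a power of it. -/
theorem centralizer_gc (m : F2) (h : m * gc = gc * m) : ∃ k : ℤ, m = gc ^ k := by
  obtain ⟨y, k, l, hm, hc⟩ := commute_cyclic m gc h
  have h1 := congrArg (toHeis ℤ) hc
  rw [toHeis_c, map_zpow] at h1
  have hx := congrArg Heis.x h1
  have hy := congrArg Heis.y h1
  have hz := congrArg Heis.z h1
  rw [Heis.zpow_x] at hx
  rw [Heis.zpow_y] at hy
  have hl : l ≠ 0 := by
    rintro rfl
    rw [zpow_zero] at hz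
    simp at hz
  have hx' : (toHeis ℤ y).x = 0 := by
    have : l * (toHeis ℤ y).x = 0 := by simpa using hx.symm
    rcases mul_eq_zero.mp this with h | h
    · exact absurd h hl
    · exact h
  have hy' : (toHeis ℤ y).y = 0 := by
    have : l * (toHeis ℤ y).y = 0 := by simpa using hy.symm
    rcases mul_eq_zero.mp this with h | h
    · exact absurd h hl
    · exact h
  rw [Heis.zpow_central _ hx' hy'] at hz
  have h2 : l * (toHeis ℤ y).z = 1 := by simpa using hz.symm
  rcases Int.isUnit_iff.mp (IsUnit.of_mul_eq_one _ h2) with rfl | rfl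
  · refine ⟨k, ?_⟩
    rw [hm, hc, zpow_one]
  · refine ⟨-k, ?_⟩
    rw [hm, hc, ← zpow_mul]
    simp

/-- The centre of the free group of rank two is trivial. -/
theorem center_F2 (m : F2) (ha : m * ga = ga * m) (hb : m * gb = gb * m) : m = 1 := by
  have hc : m * gc = gc * m := by
    have h1 : m * ga * m⁻¹ = ga := by rw [ha]; group
    have h2 : m * gb * m⁻¹ = gb := by rw [hb]; group
    have h3 : m * gc * m⁻¹ = gc := by
      rw [gc]
      calc m * (ga * gb * ga⁻¹ * gb⁻¹) * m⁻¹ =
          (m * ga * m⁻¹) * (m * gb * m⁻¹) * (m * ga * m⁻¹)⁻¹ * (m * gb * m⁻¹)⁻¹ := by group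
        _ = _ := by rw [h1, h2]
    exact mul_inv_eq_iff_eq_mul.mp h3
  obtain ⟨k, rfl⟩ := centralizer_gc m hc
  obtain ⟨y, i, j, h1, h2⟩ := commute_cyclic _ _ ha
  -- everything maps to the Heisenberg group; y has nonzero first coordinate
  have h3 := congrArg (toHeis ℤ) h1
  have h4 := congrArg (toHeis ℤ) h2
  rw [map_zpow, toHeis_c, map_zpow] at h3
  rw [toHeis_a, map_zpow] at h4
  have h5 := congrArg Heis.x h3
  have h6 := congrArg Heis.x h4
  rw [Heis.zpow_x, Heis.zpow_x] at h5
  rw [Heis.zpow_x] at h6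
  simp only [Int.cast_id, mul_zero] at h5 h6
  have hy : (toHeis ℤ y).x ≠ 0 := by
    intro h; rw [h, mul_zero] at h6; exact one_ne_zero h6
  have hi : i = 0 := by
    rcases mul_eq_zero.mp h5.symm with h | h
    · exact h
    · exact absurd h hy
  rw [h1, hi, zpow_zero]

theorem conj_injective_F2 (m : F2) (h : MulAut.conj m = 1) : m = 1 := by
  apply center_F2
  · have := DFunLike.congr_fun h ga
    rw [MulAut.conj_apply, MulAut.one_apply] at this
    exact mul_inv_eq_iff_eq_mul.mp this
  · have := DFunLike.congr_fun h gb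
    rw [MulAut.conj_apply, MulAut.one_apply] at this
    exact mul_inv_eq_iff_eq_mul.mp this

end

end Pool.MP_59b15d_al.H76
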