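import Mathlib
import Pool.Agent.H.MP_59b15d_al.h76m.Ha

set_option autoImplicit false

namespace Pool.MP_59b15d_al.H76

section


open FreeGroup (of)

theorem finite_hom {G Q : Type*} [Group G] [Group.FG G] [Group Q] [Finite Q] :
    Finite (G →* Q) := by
  obtain ⟨S, hS⟩ := Group.fg_def.mp (inferInstance : Group.FG G)
  let r : (G →* Q) → (S → Q) := fun f s => f s
  apply Finite.of_injective r
  intro f g hfg
  refine MonoidHom.eq_of_eqOn_dense hS (fun x hx => ?_)
  exact congrFun hfg ⟨x, hx⟩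

theorem exists_char_le {G : Type*} [Group G] [Group.FG G] (N : Subgroup G)
    (hN : N.FiniteIndex) :
    ∃ Γ : Subgroup G, Γ.Characteristic ∧ Γ.FiniteIndex ∧ Γ ≤ N := by
  have : Finite (G ⧸ N) := Subgroup.finite_quotient_of_finiteIndex
  have hfin : Finite (G →* Equiv.Perm (G ⧸ N)) := finite_hom
  refine ⟨⨅ f : G →* Equiv.Perm (G ⧸ N), f.ker, ?_, ?_, ?_⟩
  · rw [Subgroup.characteristic_iff_le_comap]
    intro φ x hx
    rw [Subgroup.mem_comap, Subgroup.mem_iInf]
    intro f
    rw [Subgroup.mem_iInf] at hx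
    have := hx (f.comp φ.toMonoidHom)
    rw [MonoidHom.mem_ker] at this ⊢
    exact this
  · apply Subgroup.finiteIndex_iInf
    intro f
    exact Subgroup.finiteIndex_ker f
  · intro x hx
    rw [Subgroup.mem_iInf] at hx
    have := hx (MulAction.toPermHom G (G ⧸ N))
    rw [MonoidHom.mem_ker] at this
    have h2 : (MulAction.toPermHom G (G ⧸ N) x) ((1 : G) : G ⧸ N) = ((1 : G) : G ⧸ N) := by
      rw [this]; rfl
    rw [MulAction.toPermHom_apply, MulAction.toPerm_apply] at h2
    change ((x * 1 : G) : G ⧸ N) = ((1 : G) : G ⧸ N) at h2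
    rw [mul_one] at h2
    have h3 := (QuotientGroup.eq (s := N) (a := x) (b := 1)).mp h2
    rw [mul_one] at h3
    exact (Subgroup.inv_mem_iff N).mp h3

theorem comap_fi {P Q : Type*} [Group P] [Group Q] (f : P →* Q) {H : Subgroup Q}
    (h : H.FiniteIndex) : (H.comap f).FiniteIndex := by
  refine ⟨?_⟩
  rw [Subgroup.index_comap]
  have := Subgroup.isFiniteRelIndex_of_finiteIndex (H := H) (K := f.range)
  exact Subgroup.relIndex_ne_zero

theorem map_fi {P Q : Type*} [Group P] [Group Q] (f : P →* Q) (hf : Function.Surjective f)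
    {H : Subgroup P} (h : H.FiniteIndex) : (H.map f).FiniteIndex := by
  refine ⟨fun h0 => ?_⟩
  have h1 := Subgroup.index_map_dvd H hf
  rw [h0] at h1
  exact h.index_ne_zero (Nat.eq_zero_of_zero_dvd h1)

/-- The action of automorphisms on a characteristic quotient. -/
def autQuot {G : Type*} [Group G] (C : Subgroup G) [C.Normal] (hC : C.Characteristic) :
    MulAut G →* MulAut (G ⧸ C) where
  toFun := fun φ => QuotientGroup.congr C C φ (Subgroup.characteristic_iff_map_eq.mp hC φ)
  map_one' := by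
    ext x
    induction x using QuotientGroup.induction_on with
    | _ x => rfl
  map_mul' := by
    intro φ ψ
    ext x
    induction x using QuotientGroup.induction_on with
    | _ x => rfl

theorem finite_mulAut {G : Type*} [Group G] [Finite G] : Finite (MulAut G) :=
  Finite.of_injective (fun f : MulAut G => (f : G → G))
      (fun _ _ h => MulEquiv.ext (fun x => congrFun h x))

/-- Subgroups of finite index of the kernel of a split extension contain intersections with subgroups
of finite index. -/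
theorem semidirect_ext {K Q : Type*} [Group K] [Group.FG K] [Group Q] (φ : Q →* MulAut K)
    (M : Subgroup K) (hM : M.FiniteIndex) :
    ∃ N : Subgroup (K ⋊[φ] Q), N.Normal ∧ N.FiniteIndex ∧ ∀ k : K, SemidirectProduct.inl k ∈ N →
      k ∈ M := by
  obtain ⟨C, hC, hCf, hCM⟩ := exists_char_le M hM
  have : Finite (K ⧸ C) := Subgroup.finite_quotient_of_finiteIndex
  have : Finite (MulAut (K ⧸ C)) := finite_mulAut
  let ψ : K ⋊[φ] Q →* (K ⧸ C) ⋊[MonoidHom.id (MulAut (K ⧸ C))] MulAut (K ⧸ C) :=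
    SemidirectProduct.map (QuotientGroup.mk' C) ((autQuot C hC).comp φ) (by
      intro q
      ext k
      rfl)
  have hfin : Finite ((K ⧸ C) ⋊[MonoidHom.id (MulAut (K ⧸ C))] MulAut (K ⧸ C)) :=
    Finite.of_equiv _ SemidirectProduct.equivProd.symm
  refine ⟨ψ.ker, inferInstance, Subgroup.finiteIndex_ker ψ, ?_⟩
  intro k hk
  rw [MonoidHom.mem_ker] at hk
  have h1 := congrArg SemidirectProduct.left hk
  have h2 : (k : K ⧸ C) = 1 := h1
  exact hCM ((QuotientGroup.eq_one_iff k).mp h2)

/-- Automorphisms of a free group given by the images of the generators. -/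
def mkAut {n : ℕ} (f g : Fin n → FreeGroup (Fin n)) (hfg : ∀ i, FreeGroup.lift f (g i) = of i)
    (hgf : ∀ i, FreeGroup.lift g (f i) = of i) : MulAut (FreeGroup (Fin n)) :=
  MonoidHom.toMulEquiv (FreeGroup.lift f) (FreeGroup.lift g)
    (by ext i; simpa using hgf i) (by ext i; simpa using hfg i)

theorem mkAut_of {n : ℕ} (f g : Fin n → FreeGroup (Fin n))
    (hfg : ∀ i, FreeGroup.lift f (g i) = of i)
    (hgf : ∀ i, FreeGroup.lift g (f i) = of i) (i : Fin n) : mkAut f g hfg hgf (of i) = f i := by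
  change FreeGroup.lift f (of i) = f i
  simp

theorem mkAut_inv_of {n : ℕ} (f g : Fin n → FreeGroup (Fin n))
    (hfg : ∀ i, FreeGroup.lift f (g i) = of i)
    (hgf : ∀ i, FreeGroup.lift g (f i) = of i) (i : Fin n) :
    (mkAut f g hfg hgf)⁻¹ (of i) = g i := by
  change FreeGroup.lift g (of i) = g i
  simp

/-- The free group of rank three. -/
abbrev F3 : Type := FreeGroup (Fin 3)

/-- The action of `s`. -/
def tauS : MulAut F3 :=
  mkAut ![of 0 * of 1 * of 0 * (of 1)⁻¹ * (of 0)⁻¹, of 0 * of 1 * (of 0)⁻¹, of 0 * of 2 * (of 0)⁻¹]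
    ![(of 1)⁻¹ * of 0 * of 1, (of 1)⁻¹ * (of 0)⁻¹ * of 1 * of 0 * of 1,
      (of 1)⁻¹ * (of 0)⁻¹ * of 1 * of 2 * (of 1)⁻¹ * of 0 * of 1]
    (by intro i; fin_cases i <;> simp <;> group)
    (by intro i; fin_cases i <;> simp <;> group)

/-- The action of `t`. -/
def tauT : MulAut F3 :=
  mkAut ![(of 2)⁻¹ * of 0 * of 2, (of 2)⁻¹ * (of 0)⁻¹ * of 2 * of 1 * of 0, of 2]
    ![of 2 * of 0 * (of 2)⁻¹, of 0 * of 1 * of 2 * (of 0)⁻¹ * (of 2)⁻¹, of 2]
    (by intro i; fin_cases i <;> simp <;> group)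
    (by intro i; fin_cases i <;> simp <;> group)

/-- The action on the free group of rank three. -/
def tau : F2 →* MulAut F3 := FreeGroup.lift ![tauS, tauT]

/-- The pure spherical braid group on five strands, as a split extension of free groups. -/
abbrev EE : Type := F3 ⋊[tau] F2

/-- The generator `x`. -/
def ex : EE := SemidirectProduct.inl (of 0)
/-- The generator `s`. -/
def es : EE := SemidirectProduct.inr (of 0)
/-- The generator `t`. -/
def et : EE := SemidirectProduct.inr (of 1)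

theorem es_conj_ex : es * ex * es⁻¹ = SemidirectProduct.inl
    (of 0 * of 1 * of 0 * (of 1)⁻¹ * (of 0)⁻¹ : F3) := by
  unfold es ex
  rw [← map_inv, ← SemidirectProduct.inl_aut]
  rfl

end

section


open FreeGroup (of)

/-- The auxiliary permutation representation detecting powers of `x`. -/
def chiE (e : ℕ) : F3 →* Equiv.Perm (ZMod e × Bool) :=
  FreeGroup.lift ![
    { toFun := fun z => if z.2 then z else (z.1 + 1, z.2)
      invFun := fun z => if z.2 then z else (z.1 - 1, z.2)
      left_inv := by rintro ⟨k, b⟩; cases b <;> simp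
      right_inv := by rintro ⟨k, b⟩; cases b <;> simp },
    { toFun := fun z => (z.1, !z.2)
      invFun := fun z => (z.1, !z.2)
      left_inv := by rintro ⟨k, b⟩; simp
      right_inv := by rintro ⟨k, b⟩; simp },
    1]

theorem chiE_x (e : ℕ) (k : ZMod e) (b : Bool) :
    chiE e (of 0) (k, b) = if b then (k, b) else (k + 1, b) := by
  simp [chiE]

theorem chiE_p (e : ℕ) (k : ZMod e) (b : Bool) : chiE e (of 1) (k, b) = (k, !b) := by
  simp [chiE]

theorem chiE_x_pow (e : ℕ) (n : ℕ) (k : ZMod e) (b : Bool) :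
    (chiE e (of 0) ^ n) (k, b) = if b then (k, b) else (k + n, b) := by
  induction n generalizing k with
  | zero => cases b <;> simp
  | succ n ih =>
    rw [pow_succ, Equiv.Perm.mul_apply, chiE_x]
    cases b
    · rw [if_neg (by simp), ih, if_neg (by simp), if_neg (by simp)]
      push_cast
      rw [add_assoc, add_comm (1 : ZMod e)]
    · rw [if_pos rfl, ih, if_pos rfl, if_pos rfl]

theorem chiE_x_zpow (e : ℕ) (n : ℤ) (k : ZMod e) (b : Bool) :
    (chiE e (of 0) ^ n) (k, b) = if b then (k, b) else (k + n, b) := by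
  induction n using Int.negInduction with
  | nat n => rw [zpow_natCast, chiE_x_pow]; simp
  | neg _ n =>
    rw [zpow_neg, zpow_natCast, Equiv.Perm.inv_eq_iff_eq, chiE_x_pow]
    cases b <;> simp

/-- The centraliser property of the split extension: elements that commute with `x, s, t` modulo a
deep subgroup of finite index are small. -/
theorem E_cs (N : Subgroup EE) (hNn : N.Normal) (hNf : N.FiniteIndex) :
    ∃ N' : Subgroup EE, N'.Normal ∧ N'.FiniteIndex ∧ ∀ c : EE, c * ex * c⁻¹ * ex⁻¹ ∈ N' →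
      c * es * c⁻¹ * es⁻¹ ∈ N' → c * et * c⁻¹ * et⁻¹ ∈ N' → c ∈ N := by
  classical
  let inl : F3 →* EE := SemidirectProduct.inl
  let M : Subgroup F3 := N.comap inl
  have hMn : M.Normal := inferInstance
  have hMf : M.FiniteIndex := comap_fi _ hNf
  obtain ⟨e, he, hM⟩ := exists_pow_mem M
  have : NeZero e := ⟨he.ne'⟩
  have hker : (chiE e).ker.FiniteIndex := Subgroup.finiteIndex_ker _
  let M₂ : Subgroup F3 := M ⊓ (chiE e).ker
  have hM₂n : M₂.Normal := inferInstance
  have hM₂f : M₂.FiniteIndex := inferInstance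
  obtain ⟨M₃, h3n, h3f, h3le, h3⟩ := free_cs (0 : Fin 3) M₂
  obtain ⟨N₀, h0n, h0f, h0⟩ := semidirect_ext tau M₃ h3f
  let N₁ : Subgroup EE := N₀ ⊓ N
  have h1n : N₁.Normal := inferInstance
  have h1f : N₁.FiniteIndex := inferInstance
  let q : EE →* F2 := SemidirectProduct.rightHom
  have hq : Function.Surjective q := SemidirectProduct.rightHom_surjective
  let R₁ : Subgroup F2 := N₁.map q
  have hR1n : R₁.Normal := Subgroup.Normal.map h1n q hq
  have hR1f : R₁.FiniteIndex := map_fi q hq h1f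
  obtain ⟨R₂, hR2n, hR2f, hR2le, hR2⟩ := free_center (0 : Fin 2) 1 (by decide) R₁
  let N' : Subgroup EE := N₁ ⊓ R₂.comap q
  have hcf : (R₂.comap q).FiniteIndex := comap_fi _ hR2f
  refine ⟨N', inferInstance, inferInstance, ?_⟩
  intro c hcx hcs hct
  have hw : q c ∈ R₁ := by
    apply hR2
    · have this : q (c * es * c⁻¹ * es⁻¹) ∈ R₂ := hcs.2
      rw [map_mul, map_mul, map_mul, map_inv, map_inv] at this
      have hs : q es = of 0 := SemidirectProduct.rightHom_inr _
      rwa [hs] at this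
    · have this : q (c * et * c⁻¹ * et⁻¹) ∈ R₂ := hct.2
      rw [map_mul, map_mul, map_mul, map_inv, map_inv] at this
      have hs : q et = of 1 := SemidirectProduct.rightHom_inr _
      rwa [hs] at this
  obtain ⟨n, hn, hnc⟩ := hw
  have hker2 : n⁻¹ * c ∈ q.ker := by
    rw [MonoidHom.mem_ker, map_mul, map_inv, hnc, inv_mul_cancel]
  rw [← SemidirectProduct.range_inl_eq_ker_rightHom] at hker2
  obtain ⟨f, hf⟩ := hker2
  have hcf : c = n * inl f := by
    change c = n * SemidirectProduct.inl f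
    rw [hf, mul_inv_cancel_left]
  -- f commutes with x and s modulo N₁
  let π : EE →* EE ⧸ N₁ := QuotientGroup.mk' N₁
  have hπ : ∀ y : EE, π y = 1 ↔ y ∈ N₁ := fun y => QuotientGroup.eq_one_iff y
  have hπc : π c = π (inl f) := by rw [hcf, map_mul, (hπ n).mpr hn, one_mul]
  have hcomm : ∀ y : EE, c * y * c⁻¹ * y⁻¹ ∈ N₁ → π (inl f) * π y = π y * π (inl f) := by
    intro y hy
    rw [← hπ, map_mul, map_mul, map_mul, map_inv, map_inv, hπc, mul_inv_eq_one] at hy
    exact mul_inv_eq_iff_eq_mul.mp hy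
  have hfx := hcomm ex hcx.1
  have hfs := hcomm es hcs.1
  have hback : ∀ y : F3, inl y ∈ N₁ → y ∈ M₃ := fun y hy => h0 y hy.1
  obtain ⟨k, hk⟩ := h3 f (hback _ (by
    rw [← hπ]
    have e1 : π (inl (f * of 0 * f⁻¹ * (of 0)⁻¹)) = π (inl f) * π ex * (π (inl f))⁻¹ * (π ex)⁻¹ := by
      simp only [map_mul, map_inv]
      rfl
    rw [e1, hfx, mul_inv_cancel_right, mul_inv_cancel]))
  let g : F3 := (of 0 * of 1)⁻¹ * f * (of 0 * of 1)
  have hsx : inl (of 0 * of 1) * ex * (inl (of 0 * of 1))⁻¹ = es * ex * es⁻¹ := by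
    rw [es_conj_ex]
    change inl (of 0 * of 1) * inl (of 0) * (inl (of 0 * of 1))⁻¹ = inl _
    rw [← map_inv, ← map_mul, ← map_mul]
    have h9 : (of 0 * of 1 * of 0 * (of 0 * of 1)⁻¹ : F3) = of 0 * of 1 * of 0 * (of 1)⁻¹ * (of 0)⁻¹ := by
      rw [mul_inv_rev]; simp only [mul_assoc]
    rw [h9]
  obtain ⟨l, hl⟩ := h3 g (hback _ (by
    rw [← hπ]
    have e1 : π (inl (g * of 0 * g⁻¹ * (of 0)⁻¹)) = π (inl g) * π ex * (π (inl g))⁻¹ * (π ex)⁻¹ := by
      simp only [map_mul, map_inv]
      rfl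
    have e2 : π (inl g) = (π (inl (of 0 * of 1)))⁻¹ * π (inl f) * π (inl (of 0 * of 1)) := by
      simp only [g, map_mul, map_inv]
    have e3 := congrArg π hsx
    simp only [map_mul π, map_inv π] at e3
    rw [e1, e2]
    have e4 : π (inl f) * (π (inl (of 0 * of 1)) * π ex * (π (inl (of 0 * of 1)))⁻¹) =
        (π (inl (of 0 * of 1)) * π ex * (π (inl (of 0 * of 1)))⁻¹) * π (inl f) := by
      rw [e3]
      calc π (inl f) * (π es * π ex * (π es)⁻¹) = (π (inl f) * π es) * π ex * (π es)⁻¹ := by group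
        _ = π es * (π (inl f) * π ex) * (π es)⁻¹ := by rw [hfs]; group
        _ = π es * π ex * (π (inl f) * (π es)⁻¹) := by rw [hfx]; group
        _ = π es * π ex * ((π es)⁻¹ * (π es * π (inl f)) * (π es)⁻¹) := by group
        _ = π es * π ex * ((π es)⁻¹ * (π (inl f) * π es) * (π es)⁻¹) := by rw [hfs]
        _ = _ := by group
    generalize π (inl (of 0 * of 1)) = u at e4 ⊢
    generalize π (inl f) = v at e4 ⊢
    generalize π ex = w at e4 ⊢
    calc u⁻¹ * v * u * w * (u⁻¹ * v * u)⁻¹ * w⁻¹ = u⁻¹ * (v * (u * w * u⁻¹)) * v⁻¹ * u * w⁻¹ := by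
          group
      _ = 1 := by rw [e4]; group))
  -- compare
  have hk2 : chiE e (f * of 0 ^ k) = 1 := hk.2
  have hl2 : chiE e (g * of 0 ^ l) = 1 := hl.2
  have hkz : (k : ZMod e) = 0 := by
    rw [map_mul, map_zpow, mul_eq_one_iff_eq_inv] at hk2
    have h5 : chiE e g = (chiE e (of 1))⁻¹ * (chiE e (of 0))⁻¹ * ((chiE e (of 0) ^ k)⁻¹) *
        chiE e (of 0) * chiE e (of 1) := by
      simp only [g, map_mul, map_inv, hk2]
      group
    rw [map_mul, map_zpow, h5, mul_eq_one_iff_eq_inv] at hl2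
    have h6 : (chiE e (of 1))⁻¹ * (chiE e (of 0) ^ k)⁻¹ * chiE e (of 1) = (chiE e (of 0) ^ l)⁻¹ := by
      rw [← hl2]; group
    have h7 := congrArg (fun σ : Equiv.Perm (ZMod e × Bool) => σ (0, true)) h6
    simp only [Equiv.Perm.mul_apply] at h7
    rw [chiE_p, ← zpow_neg, ← zpow_neg, chiE_x_zpow, chiE_x_zpow, Equiv.Perm.inv_eq_iff_eq,
      if_pos rfl, chiE_p] at h7
    simpa using congrArg Prod.fst h7
  rw [ZMod.intCast_zmod_eq_zero_iff_dvd] at hkz
  have h5 := zpow_mem_of_dvd (hM (of 0)) hkz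
  have h6 := M.mul_mem hk.1 (M.inv_mem h5)
  rw [mul_inv_cancel_right] at h6
  rw [hcf]
  exact N.mul_mem hn.2 h6

end

end Pool.MP_59b15d_al.H76
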