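import Mathlib
import Pool.Agent.H.MP_59b15d_al.h76m.Hb

set_option autoImplicit false

namespace Pool.MP_59b15d_al.H76

section


open FreeGroup (of)

theorem aut_ext2 {f g : MulAut F2} (ha : f (of 0) = g (of 0)) (hb : f (of 1) = g (of 1)) :
    f = g := by
  have h : f.toMonoidHom = g.toMonoidHom := by
    ext i
    fin_cases i
    · exact ha
    · exact hb
  ext x
  exact DFunLike.congr_fun h x

/-- The hyperelliptic involution. -/
def iota : MulAut F2 := mkAut ![(of 0)⁻¹, (of 1)⁻¹] ![(of 0)⁻¹, (of 1)⁻¹]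
  (by intro i; fin_cases i <;> simp) (by intro i; fin_cases i <;> simp)

/-- The automorphism `b ↦ a²b`. -/
def XX : MulAut F2 := mkAut ![of 0, of 0 * of 0 * of 1] ![of 0, (of 0)⁻¹ * (of 0)⁻¹ * of 1]
  (by intro i; fin_cases i <;> simp [mul_assoc]) (by intro i; fin_cases i <;> simp [mul_assoc])

/-- The automorphism `a ↦ ab⁻²`. -/
def YY : MulAut F2 := mkAut ![of 0 * (of 1)⁻¹ * (of 1)⁻¹, of 1] ![of 0 * of 1 * of 1, of 1]
  (by intro i; fin_cases i <;> simp) (by intro i; fin_cases i <;> simp)

@[simp] theorem iota_a : iota (of 0) = (of 0)⁻¹ := mkAut_of _ _ _ _ 0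
@[simp] theorem iota_b : iota (of 1) = (of 1)⁻¹ := mkAut_of _ _ _ _ 1
@[simp] theorem XX_a : XX (of 0) = of 0 := mkAut_of _ _ _ _ 0
@[simp] theorem XX_b : XX (of 1) = of 0 * of 0 * of 1 := mkAut_of _ _ _ _ 1
@[simp] theorem YY_a : YY (of 0) = of 0 * (of 1)⁻¹ * (of 1)⁻¹ := mkAut_of _ _ _ _ 0
@[simp] theorem YY_b : YY (of 1) = of 1 := mkAut_of _ _ _ _ 1
@[simp] theorem iota_inv_a : MulEquiv.symm iota (of 0) = (of 0)⁻¹ := mkAut_inv_of _ _ _ _ 0
@[simp] theorem iota_inv_b : MulEquiv.symm iota (of 1) = (of 1)⁻¹ := mkAut_inv_of _ _ _ _ 1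
@[simp] theorem XX_inv_a : MulEquiv.symm XX (of 0) = of 0 := mkAut_inv_of _ _ _ _ 0
@[simp] theorem XX_inv_b : MulEquiv.symm XX (of 1) = (of 0)⁻¹ * (of 0)⁻¹ * of 1 :=
  mkAut_inv_of _ _ _ _ 1
@[simp] theorem YY_inv_a : MulEquiv.symm YY (of 0) = of 0 * of 1 * of 1 := mkAut_inv_of _ _ _ _ 0
@[simp] theorem YY_inv_b : MulEquiv.symm YY (of 1) = of 1 := mkAut_inv_of _ _ _ _ 1

/-- The image of `x`. -/
def gx : MulAut F2 := MulAut.conj (of 0 * of 1) * iota
/-- The image of `s`. -/
def gs : MulAut F2 := MulAut.conj (of 0 * of 0)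
/-- The image of `t`. -/
def gt : MulAut F2 := MulAut.conj (of 1 * of 1)

/-- The images of the generators of the free kernel. -/
def th1 : F3 →* MulAut F2 := FreeGroup.lift ![gx, gx⁻¹ * XX, gt⁻¹ * YY]
/-- The images of the generators of the free quotient. -/
def th2 : F2 →* MulAut F2 := FreeGroup.lift ![gs, gt]

theorem compat_of (q : F2) (h : ∀ i : Fin 3, th1 (tau q (of i)) = th2 q * th1 (of i) * (th2 q)⁻¹)
    (f : F3) : th1 (tau q f) = th2 q * th1 f * (th2 q)⁻¹ := by
  have h1 : th1.comp (tau q).toMonoidHom = (MulAut.conj (th2 q)).toMonoidHom.comp th1 := by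
    ext i : 1
    exact h i
  exact DFunLike.congr_fun h1 f

theorem compat_s (f : F3) : th1 (tau (of 0) f) = th2 (of 0) * th1 f * (th2 (of 0))⁻¹ := by
  apply compat_of
  intro i
  have e2 : th2 (of 0) = gs := by simp [th2]
  rw [e2]
  fin_cases i
  · change th1 (tau (of 0) (of 0)) = gs * th1 (of 0) * gs⁻¹
    have e1 : tau (of 0) (of 0) = of 0 * of 1 * of 0 * (of 1)⁻¹ * (of 0)⁻¹ := by
      simp [tau, tauS, mkAut_of]
    rw [e1]
    simp only [th1, map_mul, map_inv, FreeGroup.lift_apply_of]
    apply aut_ext2 <;> simp [gx, gs, MulAut.mul_apply, MulAut.conj_apply, mul_assoc]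
  · change th1 (tau (of 0) (of 1)) = gs * th1 (of 1) * gs⁻¹
    have e1 : tau (of 0) (of 1) = of 0 * of 1 * (of 0)⁻¹ := by
      simp [tau, tauS, mkAut_of]
    rw [e1]
    simp only [th1, map_mul, map_inv, FreeGroup.lift_apply_of]
    apply aut_ext2 <;> simp [gx, gs, MulAut.mul_apply, MulAut.conj_apply, mul_assoc]
  · change th1 (tau (of 0) (of 2)) = gs * th1 (of 2) * gs⁻¹
    have e1 : tau (of 0) (of 2) = of 0 * of 2 * (of 0)⁻¹ := by
      simp [tau, tauS, mkAut_of]
    rw [e1]
    simp only [th1, map_mul, map_inv, FreeGroup.lift_apply_of]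
    apply aut_ext2 <;> simp [gx, gs, gt, MulAut.mul_apply, MulAut.conj_apply, mul_assoc]

theorem compat_t (f : F3) : th1 (tau (of 1) f) = th2 (of 1) * th1 f * (th2 (of 1))⁻¹ := by
  apply compat_of
  intro i
  have e2 : th2 (of 1) = gt := by simp [th2]
  rw [e2]
  fin_cases i
  · change th1 (tau (of 1) (of 0)) = gt * th1 (of 0) * gt⁻¹
    have e1 : tau (of 1) (of 0) = (of 2)⁻¹ * of 0 * of 2 := by
      simp [tau, tauT, mkAut_of]
    rw [e1]
    simp only [th1, map_mul, map_inv, FreeGroup.lift_apply_of]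
    apply aut_ext2 <;> simp [gx, gt, MulAut.mul_apply, MulAut.conj_apply, mul_assoc]
  · change th1 (tau (of 1) (of 1)) = gt * th1 (of 1) * gt⁻¹
    have e1 : tau (of 1) (of 1) = (of 2)⁻¹ * (of 0)⁻¹ * of 2 * of 1 * of 0 := by
      simp [tau, tauT, mkAut_of]
    rw [e1]
    simp only [th1, map_mul, map_inv, FreeGroup.lift_apply_of]
    apply aut_ext2 <;> simp [gx, gt, MulAut.mul_apply, MulAut.conj_apply, mul_assoc]
  · change th1 (tau (of 1) (of 2)) = gt * th1 (of 2) * gt⁻¹
    have e1 : tau (of 1) (of 2) = of 2 := by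
      simp [tau, tauT, mkAut_of]
    rw [e1]
    simp only [th1, map_mul, map_inv, FreeGroup.lift_apply_of]
    apply aut_ext2 <;> simp [gx, gt, MulAut.mul_apply, MulAut.conj_apply, mul_assoc]

theorem compat (q : F2) : ∀ f : F3, th1 (tau q f) = th2 q * th1 f * (th2 q)⁻¹ := by
  induction q using FreeGroup.induction_on with
  | C1 => intro f; simp
  | of i =>
    fin_cases i
    · exact compat_s
    · exact compat_t
  | inv_of i ih =>
    intro f
    have h := ih (tau (of i)⁻¹ f)
    rw [← MulAut.mul_apply, ← map_mul, mul_inv_cancel, map_one, MulAut.one_apply] at h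
    rw [h, map_inv th2, inv_inv]
    simp only [mul_assoc]
    rw [inv_mul_cancel, mul_one, inv_mul_cancel_left]
  | mul q r hq hr =>
    intro f
    rw [map_mul, MulAut.mul_apply, hq, hr, map_mul]
    group

/-- The homomorphism from the split extension to the automorphism group of the free group. -/
def Theta : EE →* MulAut F2 := SemidirectProduct.lift th1 th2 (by
  intro q
  refine MonoidHom.ext (fun f => ?_)
  exact compat q f)

theorem Theta_x : Theta ex = gx := by simp [Theta, ex, th1]
theorem Theta_s : Theta es = gs := by simp [Theta, es, th2]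
theorem Theta_t : Theta et = gt := by simp [Theta, et, th2]

/-- The generator `xp`, mapping to `XX`. -/
def eX : EE := SemidirectProduct.inl (of 0 * of 1)
/-- The element `tr`, mapping to `YY`. -/
def eY : EE := et * SemidirectProduct.inl (of 2)

theorem Theta_X : Theta eX = XX := by simp [Theta, eX, th1]
theorem Theta_Y : Theta eY = YY := by
  rw [eY, map_mul, Theta_t]
  simp [Theta, th1]

end

section


open FreeGroup (of)

/-- Pattern for the attracting sets. -/
def patX (i : Fin 3) (L : List (Fin 2 × Bool)) : Prop :=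
  match i, L with
  | 0, (0, true) :: (1, _) :: _ => True
  | 1, (0, true) :: (0, true) :: _ => True
  | 2, (1, true) :: (1, true) :: _ => True
  | _, _ => False

/-- Pattern for the repelling sets. -/
def patY (i : Fin 3) (L : List (Fin 2 × Bool)) : Prop :=
  match i, L with
  | 0, (1, true) :: (0, _) :: _ => True
  | 0, [(1, true)] => True
  | 1, (0, false) :: _ => True
  | 2, (1, false) :: _ => True
  | _, _ => False

/-- Multiplication by a letter. -/
def step (x : Fin 2 × Bool) : List (Fin 2 × Bool) → List (Fin 2 × Bool)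
  | [] => [x]
  | hd :: tl => if x.1 = hd.1 ∧ x.2 = !hd.2 then tl else x :: hd :: tl

theorem red_cons (x : Fin 2 × Bool) (M : List (Fin 2 × Bool)) (hM : FreeGroup.IsReduced M) :
    FreeGroup.reduce (x :: M) = step x M := by
  rw [FreeGroup.reduce.cons, hM.reduce_eq]
  cases M with
  | nil => rfl
  | cons hd tl =>
    by_cases h : x.1 = hd.1 ∧ x.2 = !hd.2 <;> simp [h, step]

theorem red_two (u v : Fin 2 × Bool) (M : List (Fin 2 × Bool)) (hM : FreeGroup.IsReduced M) :
    FreeGroup.reduce (u :: FreeGroup.reduce (v :: M)) = step u (step v M) := by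
  have h1 : FreeGroup.IsReduced (FreeGroup.reduce (v :: M)) := by
    rw [FreeGroup.isReduced_iff_reduce_eq, FreeGroup.reduce.idem]
  rw [red_cons _ _ h1, red_cons _ _ hM]

theorem word_cases (P : List (Fin 2 × Bool) → Prop) (h0 : P []) (h1 : ∀ x, P [x])
    (h2 : ∀ x y tl, FreeGroup.IsReduced (x :: y :: tl) → P (x :: y :: tl))
    (L : List (Fin 2 × Bool)) (hL : FreeGroup.IsReduced L) : P L := by
  match L, hL with
  | [], _ => exact h0
  | [x], _ => exact h1 x
  | x :: y :: tl, h => exact h2 x y tl h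

/-- Flip all signs. -/
def flip (L : List (Fin 2 × Bool)) : List (Fin 2 × Bool) := L.map (fun x => (x.1, !x.2))

theorem flip_reduced {L : List (Fin 2 × Bool)} (h : FreeGroup.IsReduced L) :
    FreeGroup.IsReduced (flip L) := by
  unfold FreeGroup.IsReduced flip at *
  rw [List.isChain_map]
  refine h.imp ?_
  intro a b hab h1
  simp only at h1 ⊢
  rw [hab h1]

theorem iota_mk (L : List (Fin 2 × Bool)) : iota (FreeGroup.mk L) = FreeGroup.mk (flip L) := by
  induction L with
  | nil => exact map_one iota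
  | cons x L ih =>
    have h1 : (FreeGroup.mk (x :: L) : F2) = FreeGroup.mk [x] * FreeGroup.mk L := by
      rw [FreeGroup.mul_mk]; rfl
    have h2 : (FreeGroup.mk (flip (x :: L)) : F2) = FreeGroup.mk [(x.1, !x.2)] * FreeGroup.mk (flip L) := by
      rw [FreeGroup.mul_mk]; rfl
    rw [h1, h2, map_mul, ih]
    congr 1
    obtain ⟨i, b⟩ := x
    have h3 : (FreeGroup.mk [(i, true)] : F2) = of i := rfl
    have h4 : (FreeGroup.mk [(i, false)] : F2) = (of i)⁻¹ := rfl
    have h5 : iota (of i) = (of i)⁻¹ := by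
      fin_cases i
      · exact iota_a
      · exact iota_b
    cases b
    · change iota (FreeGroup.mk [(i, false)]) = FreeGroup.mk [(i, true)]
      rw [h3, h4, map_inv, h5, inv_inv]
    · change iota (FreeGroup.mk [(i, true)]) = FreeGroup.mk [(i, false)]
      rw [h3, h4, h5]

theorem iota_iota (g : F2) : iota (iota g) = g := by
  have h : iota * iota = 1 := by apply aut_ext2 <;> simp
  exact DFunLike.congr_fun h g

theorem toWord_iota (g : F2) : (iota g).toWord = flip g.toWord := by
  conv_lhs => rw [← FreeGroup.mk_toWord (x := g), iota_mk, FreeGroup.toWord_mk]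
  exact (flip_reduced FreeGroup.isReduced_toWord).reduce_eq

/-- The reduced word of `u v g` for letters `u, v`. -/
theorem toWord_two (u v : Fin 2 × Bool) (g : F2) :
    (FreeGroup.mk [u, v] * g).toWord = FreeGroup.reduce (u :: FreeGroup.reduce (v :: g.toWord)) := by
  conv_lhs => rw [← FreeGroup.mk_toWord (x := g), FreeGroup.mul_mk, FreeGroup.toWord_mk]
  change FreeGroup.reduce (u :: v :: g.toWord) = _
  rw [FreeGroup.reduce.cons, FreeGroup.reduce.cons (L := FreeGroup.reduce (v :: g.toWord)),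
    FreeGroup.reduce.idem]

/-- The permutation `g ↦ ab ι(g)`. -/
def permX : Equiv.Perm F2 where
  toFun := fun g => (of 0 * of 1) * iota g
  invFun := fun g => iota ((of 0 * of 1)⁻¹ * g)
  left_inv := fun g => by
    change iota ((of 0 * of 1)⁻¹ * (of 0 * of 1 * iota g)) = g
    rw [inv_mul_cancel_left, iota_iota]
  right_inv := fun g => by
    change of 0 * of 1 * iota (iota ((of 0 * of 1)⁻¹ * g)) = g
    rw [iota_iota, mul_inv_cancel_left]

/-- The three permutations. -/
def perms : Fin 3 → Equiv.Perm F2 := ![permX, Equiv.mulLeft (of 0 * of 0), Equiv.mulLeft (of 1 * of 1)]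

theorem permX_word (g : F2) : (permX g).toWord =
    FreeGroup.reduce ((0, true) :: FreeGroup.reduce ((1, true) :: flip g.toWord)) := by
  rw [← toWord_iota, ← toWord_two]; rfl

theorem permX_inv_word (g : F2) : (permX⁻¹ g).toWord =
    flip (FreeGroup.reduce ((1, false) :: FreeGroup.reduce ((0, false) :: g.toWord))) := by
  rw [← toWord_two, ← toWord_iota]; rfl

theorem perms_pos (i : Fin 3) (g : F2) (hg : ¬ patY i g.toWord) : patX i (perms i g).toWord := by
  have hr : FreeGroup.IsReduced g.toWord := FreeGroup.isReduced_toWord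
  fin_cases i
  · change patX 0 (permX g).toWord
    change ¬ patY 0 g.toWord at hg
    rw [permX_word, red_two _ _ _ (flip_reduced hr)]
    revert hg
    refine word_cases (fun L => ¬ patY 0 L → patX 0 (step (0, true) (step (1, true) (flip L))))
      ?_ ?_ ?_ g.toWord hr
    · intro _; simp [flip, patX, step]
    · rintro ⟨i, b⟩ h
      fin_cases i <;> cases b <;> simp [flip, patX, patY, step] at h ⊢
    · rintro ⟨i, b⟩ ⟨j, c⟩ tl hred h
      rw [FreeGroup.isReduced_cons_cons] at hred
      have hred1 := hred.1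
      clear hred
      fin_cases i <;> cases b <;> fin_cases j <;> cases c <;>
        simp [flip, patX, patY, step] at h hred1 ⊢
  · change patX 1 (FreeGroup.mk [((0 : Fin 2), true), (0, true)] * g).toWord
    change ¬ patY 1 g.toWord at hg
    rw [toWord_two, red_two _ _ _ hr]
    revert hg
    refine word_cases (fun L => ¬ patY 1 L → patX 1 (step (0, true) (step (0, true) L)))
      ?_ ?_ ?_ g.toWord hr
    · intro _; simp [patX, step]
    · rintro ⟨i, b⟩ h
      fin_cases i <;> cases b <;> simp [patX, patY, step] at h ⊢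
    · rintro ⟨i, b⟩ ⟨j, c⟩ tl hred h
      rw [FreeGroup.isReduced_cons_cons] at hred
      have hred1 := hred.1
      clear hred
      fin_cases i <;> cases b <;> fin_cases j <;> cases c <;>
        simp [patX, patY, step] at h hred1 ⊢
  · change patX 2 (FreeGroup.mk [((1 : Fin 2), true), (1, true)] * g).toWord
    change ¬ patY 2 g.toWord at hg
    rw [toWord_two, red_two _ _ _ hr]
    revert hg
    refine word_cases (fun L => ¬ patY 2 L → patX 2 (step (1, true) (step (1, true) L)))
      ?_ ?_ ?_ g.toWord hr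
    · intro _; simp [patX, step]
    · rintro ⟨i, b⟩ h
      fin_cases i <;> cases b <;> simp [patX, patY, step] at h ⊢
    · rintro ⟨i, b⟩ ⟨j, c⟩ tl hred h
      rw [FreeGroup.isReduced_cons_cons] at hred
      have hred1 := hred.1
      clear hred
      fin_cases i <;> cases b <;> fin_cases j <;> cases c <;>
        simp [patX, patY, step] at h hred1 ⊢

theorem perms_neg (i : Fin 3) (g : F2) (hg : ¬ patX i g.toWord) : patY i ((perms i)⁻¹ g).toWord := by
  have hr : FreeGroup.IsReduced g.toWord := FreeGroup.isReduced_toWord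
  fin_cases i
  · change patY 0 (permX⁻¹ g).toWord
    change ¬ patX 0 g.toWord at hg
    rw [permX_inv_word, red_two _ _ _ hr]
    revert hg
    refine word_cases (fun L => ¬ patX 0 L → patY 0 (flip (step (1, false) (step (0, false) L))))
      ?_ ?_ ?_ g.toWord hr
    · intro _; simp [flip, patY, step]
    · rintro ⟨i, b⟩ h
      fin_cases i <;> cases b <;> simp [flip, patX, patY, step] at h ⊢
    · rintro ⟨i, b⟩ ⟨j, c⟩ tl hred h
      rw [FreeGroup.isReduced_cons_cons] at hred
      have hred1 := hred.1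
      clear hred
      fin_cases i <;> cases b <;> fin_cases j <;> cases c <;>
        simp [flip, patX, patY, step] at h hred1 ⊢
  · change patY 1 (FreeGroup.mk [((0 : Fin 2), false), (0, false)] * g).toWord
    change ¬ patX 1 g.toWord at hg
    rw [toWord_two, red_two _ _ _ hr]
    revert hg
    refine word_cases (fun L => ¬ patX 1 L → patY 1 (step (0, false) (step (0, false) L)))
      ?_ ?_ ?_ g.toWord hr
    · intro _; simp [patY, step]
    · rintro ⟨i, b⟩ h
      fin_cases i <;> cases b <;> simp [patX, patY, step] at h ⊢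
    · rintro ⟨i, b⟩ ⟨j, c⟩ tl hred h
      rw [FreeGroup.isReduced_cons_cons] at hred
      have hred1 := hred.1
      clear hred
      fin_cases i <;> cases b <;> fin_cases j <;> cases c <;>
        simp [patX, patY, step] at h hred1 ⊢
  · change patY 2 (FreeGroup.mk [((1 : Fin 2), false), (1, false)] * g).toWord
    change ¬ patX 2 g.toWord at hg
    rw [toWord_two, red_two _ _ _ hr]
    revert hg
    refine word_cases (fun L => ¬ patX 2 L → patY 2 (step (1, false) (step (1, false) L)))
      ?_ ?_ ?_ g.toWord hr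
    · intro _; simp [patY, step]
    · rintro ⟨i, b⟩ h
      fin_cases i <;> cases b <;> simp [patX, patY, step] at h ⊢
    · rintro ⟨i, b⟩ ⟨j, c⟩ tl hred h
      rw [FreeGroup.isReduced_cons_cons] at hred
      have hred1 := hred.1
      clear hred
      fin_cases i <;> cases b <;> fin_cases j <;> cases c <;>
        simp [patX, patY, step] at h hred1 ⊢

theorem pat_disj (i j : Fin 3) (L : List (Fin 2 × Bool)) :
    (patX i L → patX j L → i = j) ∧ (patY i L → patY j L → i = j) ∧ (patX i L → ¬ patY j L) := by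
  match L with
  | [] => fin_cases i <;> fin_cases j <;> simp [patX, patY]
  | [(a, b)] =>
    fin_cases i <;> fin_cases j <;> fin_cases a <;> cases b <;> simp [patX, patY]
  | (a, b) :: (c, d) :: tl =>
    fin_cases i <;> fin_cases j <;> fin_cases a <;> cases b <;> fin_cases c <;> cases d <;>
      simp [patX, patY]

theorem perms_free : Function.Injective (FreeGroup.lift perms) := by
  refine FreeGroup.injective_lift_of_ping_pong perms (fun i => {g : F2 | patX i g.toWord})
    (fun i => {g : F2 | patY i g.toWord}) ?_ ?_ ?_ ?_ ?_ ?_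
  · intro i
    refine ⟨perms i 1, perms_pos i 1 ?_⟩
    fin_cases i <;> simp [patY]
  · intro i j hij
    rw [Function.onFun, Set.disjoint_left]
    intro g hg hg'
    exact hij ((pat_disj i j _).1 hg hg')
  · intro i j hij
    rw [Function.onFun, Set.disjoint_left]
    intro g hg hg'
    exact hij ((pat_disj i j _).2.1 hg hg')
  · intro i j
    rw [Set.disjoint_left]
    intro g hg hg'
    exact (pat_disj i j _).2.2 hg hg'
  · intro i g hg
    obtain ⟨y, hy, rfl⟩ := hg
    exact perms_pos i y hy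
  · intro i g hg
    obtain ⟨y, hy, rfl⟩ := hg
    exact perms_neg i y hy

/-- The holomorph. -/
abbrev Hol : Type := F2 ⋊[MonoidHom.id (MulAut F2)] MulAut F2

/-- Left multiplications. -/
def leftHom : F2 →* Equiv.Perm F2 where
  toFun := fun g => Equiv.mulLeft g
  map_one' := by ext; simp
  map_mul' := fun g h => by ext; simp

/-- The holomorph acts on the free group by permutations. -/
def hol2 : Hol →* Equiv.Perm F2 := SemidirectProduct.lift leftHom (MulAut.toPerm F2) (by
  intro φ
  refine MonoidHom.ext (fun g => Equiv.ext (fun x => ?_))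
  change φ g * x = φ (g * φ⁻¹ x)
  rw [map_mul, MulAut.apply_inv_self])

/-- The holomorph maps to the automorphism group. -/
def hol1 : Hol →* MulAut F2 := SemidirectProduct.lift MulAut.conj (MonoidHom.id _) (by
  intro φ
  refine MonoidHom.ext (fun g => MulEquiv.ext (fun x => ?_))
  change φ g * x * (φ g)⁻¹ = φ (g * φ⁻¹ x * g⁻¹)
  rw [map_mul, map_mul, map_inv, MulAut.apply_inv_self])

/-- The lift of the three elements to the holomorph. -/
def kap0 : F3 →* Hol := FreeGroup.lift ![⟨of 0 * of 1, iota⟩, ⟨of 0 * of 0, 1⟩, ⟨of 1 * of 1, 1⟩]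

/-- The subgroup generated by `x, s, t` in the split extension. -/
def kap : F3 →* EE := FreeGroup.lift ![ex, es, et]

theorem kap0_perm (w : F3) : hol2 (kap0 w) = FreeGroup.lift perms w := by
  have h : hol2.comp kap0 = FreeGroup.lift perms := by
    ext i : 1
    fin_cases i
    · change hol2 (kap0 (of 0)) = FreeGroup.lift perms (of 0)
      rw [kap0, FreeGroup.lift_apply_of, FreeGroup.lift_apply_of]
      ext g : 1
      rfl
    · change hol2 (kap0 (of 1)) = FreeGroup.lift perms (of 1)
      rw [kap0, FreeGroup.lift_apply_of, FreeGroup.lift_apply_of]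
      ext g : 1
      rfl
    · change hol2 (kap0 (of 2)) = FreeGroup.lift perms (of 2)
      rw [kap0, FreeGroup.lift_apply_of, FreeGroup.lift_apply_of]
      ext g : 1
      rfl
  exact DFunLike.congr_fun h w

theorem kap0_aut (w : F3) : hol1 (kap0 w) = Theta (kap w) := by
  have h : hol1.comp kap0 = Theta.comp kap := by
    ext i : 1
    fin_cases i
    · change hol1 (kap0 (of 0)) = Theta (kap (of 0))
      rw [kap0, kap, FreeGroup.lift_apply_of, FreeGroup.lift_apply_of]
      exact Theta_x.symm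
    · change hol1 (kap0 (of 1)) = Theta (kap (of 1))
      rw [kap0, kap, FreeGroup.lift_apply_of, FreeGroup.lift_apply_of]
      change _ = Theta es
      rw [Theta_s]
      change MulAut.conj (of 0 * of 0) * 1 = _
      rw [mul_one]; rfl
    · change hol1 (kap0 (of 2)) = Theta (kap (of 2))
      rw [kap0, kap, FreeGroup.lift_apply_of, FreeGroup.lift_apply_of]
      change _ = Theta et
      rw [Theta_t]
      change MulAut.conj (of 1 * of 1) * 1 = _
      rw [mul_one]; rfl
  exact DFunLike.congr_fun h w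

theorem kap0_right (w : F3) : (kap0 w).right = 1 ∨ (kap0 w).right = iota := by
  have hii : iota * iota = 1 := by apply aut_ext2 <;> simp
  let S : Subgroup (MulAut F2) :=
    { carrier := {φ | φ = 1 ∨ φ = iota}
      one_mem' := Or.inl rfl
      mul_mem' := by
        rintro a b (rfl | rfl) (rfl | rfl)
        · left; rfl
        · right; exact one_mul _
        · right; exact mul_one _
        · left; exact hii
      inv_mem' := by
        rintro a (rfl | rfl)
        · left; exact inv_one
        · right; exact inv_eq_of_mul_eq_one_left hii }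
  have h : ∀ w : F3, SemidirectProduct.rightHom (kap0 w) ∈ S := by
    intro w
    induction w using FreeGroup.induction_on with
    | C1 => rw [map_one, map_one]; exact S.one_mem
    | of i =>
      fin_cases i
      · change SemidirectProduct.rightHom (kap0 (of 0)) ∈ S
        rw [kap0, FreeGroup.lift_apply_of]; exact Or.inr rfl
      · change SemidirectProduct.rightHom (kap0 (of 1)) ∈ S
        rw [kap0, FreeGroup.lift_apply_of]; exact Or.inl rfl
      · change SemidirectProduct.rightHom (kap0 (of 2)) ∈ S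
        rw [kap0, FreeGroup.lift_apply_of]; exact Or.inl rfl
    | inv_of i ih => rw [map_inv, map_inv]; exact S.inv_mem ih
    | mul x y hx hy => rw [map_mul, map_mul]; exact S.mul_mem hx hy
  exact h w

theorem iota_not_inner (g : F2) (h : MulAut.conj g = iota) : False := by
  have h1 := DFunLike.congr_fun h (of 0)
  rw [iota_a, MulAut.conj_apply] at h1
  have h2 := congrArg (toHeis ℤ) h1
  have h3 := congrArg Heis.x h2
  rw [map_mul, map_mul, map_inv, map_inv, toHeis_a] at h3
  simp only [Heis.mul_x, Heis.inv_x] at h3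
  omega

theorem Theta_kap_injective : Function.Injective (Theta.comp kap) := by
  rw [injective_iff_map_eq_one]
  intro w hw
  rw [MonoidHom.comp_apply, ← kap0_aut] at hw
  have h1 : hol1 (kap0 w) = MulAut.conj (kap0 w).left * (kap0 w).right := rfl
  rw [h1] at hw
  have h2 : (kap0 w).right = 1 := by
    rcases kap0_right w with h | h
    · exact h
    · exfalso
      rw [h, mul_eq_one_iff_eq_inv] at hw
      apply iota_not_inner (kap0 w).left⁻¹
      rw [map_inv, hw, inv_inv]
  rw [h2, mul_one] at hw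
  have h3 := conj_injective_F2 _ hw
  have h4 : kap0 w = 1 := SemidirectProduct.ext h3 h2
  apply perms_free
  rw [map_one, ← kap0_perm, h4, map_one]

end

section


open FreeGroup (of)

theorem tau_s (f : F3) : (tau (of 0)) f = tauS f := by
  rw [tau, FreeGroup.lift_apply_of]; rfl

theorem tau_t (f : F3) : (tau (of 1)) f = tauT f := by
  rw [tau, FreeGroup.lift_apply_of]; rfl

theorem tau_s_inv (f : F3) : (tau (of 0)⁻¹) f = tauS⁻¹ f := by
  rw [map_inv, tau, FreeGroup.lift_apply_of]; rfl

theorem tau_t_inv (f : F3) : (tau (of 1)⁻¹) f = tauT⁻¹ f := by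
  rw [map_inv, tau, FreeGroup.lift_apply_of]; rfl

theorem tauS_0 : tauS (of 0) = of 0 * of 1 * of 0 * (of 1)⁻¹ * (of 0)⁻¹ := mkAut_of _ _ _ _ 0
theorem tauS_1 : tauS (of 1) = of 0 * of 1 * (of 0)⁻¹ := mkAut_of _ _ _ _ 1
theorem tauS_2 : tauS (of 2) = of 0 * of 2 * (of 0)⁻¹ := mkAut_of _ _ _ _ 2
theorem tauSi_0 : tauS⁻¹ (of 0) = (of 1)⁻¹ * of 0 * of 1 := mkAut_inv_of _ _ _ _ 0
theorem tauT_0 : tauT (of 0) = (of 2)⁻¹ * of 0 * of 2 := mkAut_of _ _ _ _ 0
theorem tauT_1 : tauT (of 1) = (of 2)⁻¹ * (of 0)⁻¹ * of 2 * of 1 * of 0 := mkAut_of _ _ _ _ 1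
theorem tauT_2 : tauT (of 2) = of 2 := mkAut_of _ _ _ _ 2
theorem tauTi_0 : tauT⁻¹ (of 0) = of 2 * of 0 * (of 2)⁻¹ := mkAut_inv_of _ _ _ _ 0

/-- The generator `p`. -/
def ep : EE := SemidirectProduct.inl (of 1)
/-- The generator `r`. -/
def er : EE := SemidirectProduct.inl (of 2)

theorem conj_s (f : F3) : es * SemidirectProduct.inl f * es⁻¹ = SemidirectProduct.inl (tauS f) := by
  rw [← tau_s, SemidirectProduct.inl_aut, map_inv]; rfl

theorem conj_t (f : F3) : et * SemidirectProduct.inl f * et⁻¹ = SemidirectProduct.inl (tauT f) := by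
  rw [← tau_t, SemidirectProduct.inl_aut, map_inv]; rfl

theorem conj_si (f : F3) :
    es⁻¹ * SemidirectProduct.inl f * es = SemidirectProduct.inl (tauS⁻¹ f) := by
  rw [← tau_s_inv, SemidirectProduct.inl_aut, map_inv, inv_inv]; rfl

theorem conj_ti (f : F3) :
    et⁻¹ * SemidirectProduct.inl f * et = SemidirectProduct.inl (tauT⁻¹ f) := by
  rw [← tau_t_inv, SemidirectProduct.inl_aut, map_inv, inv_inv]; rfl

theorem R1 : es * ex * es⁻¹ = ex * ep * ex * ep⁻¹ * ex⁻¹ := by
  have := conj_s (of 0)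
  rw [tauS_0] at this
  simp only [map_mul, map_inv] at this
  exact this
theorem R2 : es * ep * es⁻¹ = ex * ep * ex⁻¹ := by
  have := conj_s (of 1)
  rw [tauS_1] at this
  simp only [map_mul, map_inv] at this
  exact this
theorem R3 : es * er * es⁻¹ = ex * er * ex⁻¹ := by
  have := conj_s (of 2)
  rw [tauS_2] at this
  simp only [map_mul, map_inv] at this
  exact this
theorem R1i : es⁻¹ * ex * es = ep⁻¹ * ex * ep := by
  have := conj_si (of 0)
  rw [tauSi_0] at this
  simp only [map_mul, map_inv] at this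
  exact this
theorem R4 : et * ex * et⁻¹ = er⁻¹ * ex * er := by
  have := conj_t (of 0)
  rw [tauT_0] at this
  simp only [map_mul, map_inv] at this
  exact this
theorem R5 : et * ep * et⁻¹ = er⁻¹ * ex⁻¹ * er * ep * ex := by
  have := conj_t (of 1)
  rw [tauT_1] at this
  simp only [map_mul, map_inv] at this
  exact this
theorem R6 : et * er * et⁻¹ = er := by
  have := conj_t (of 2)
  rw [tauT_2] at this
  exact this
theorem R4i : et⁻¹ * ex * et = er * ex * er⁻¹ := by
  have := conj_ti (of 0)
  rw [tauTi_0] at this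
  simp only [map_mul, map_inv] at this
  exact this

/-- The subgroup generated by `x, s, t`. -/
def WW : Subgroup EE := kap.range

theorem ex_mem : ex ∈ WW := ⟨of 0, by simp [kap]⟩
theorem es_mem : es ∈ WW := ⟨of 1, by simp [kap]⟩
theorem et_mem : et ∈ WW := ⟨of 2, by simp [kap]⟩

theorem WW_le {S : Subgroup EE} (hx : ex ∈ S) (hs : es ∈ S) (ht : et ∈ S) : WW ≤ S := by
  rintro _ ⟨w, rfl⟩
  induction w using FreeGroup.induction_on with
  | C1 => rw [map_one]; exact S.one_mem
  | of i =>
    rw [kap, FreeGroup.lift_apply_of]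
    fin_cases i
    · exact hx
    · exact hs
    · exact ht
  | inv_of i ih => rw [map_inv]; exact S.inv_mem ih
  | mul x y hx hy => rw [map_mul]; exact S.mul_mem hx hy

/-- An element normalises the subgroup generated by `x, s, t` as soon as it does so on the
generators. -/
theorem norm_of {S : Subgroup EE} (hS : ∀ {T : Subgroup EE}, ex ∈ T → es ∈ T → et ∈ T → S ≤ T)
    (g : EE) (h1 : g * ex * g⁻¹ ∈ S) (h2 : g * es * g⁻¹ ∈ S) (h3 : g * et * g⁻¹ ∈ S) :
    ∀ w ∈ S, g * w * g⁻¹ ∈ S := by
  have h : S ≤ S.comap (MulAut.conj g).toMonoidHom := hS h1 h2 h3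
  exact fun w hw => h hw

theorem pt_rel : ep * et⁻¹ = ex⁻¹ * et⁻¹ * ep * ex := by
  have h : et * ep * et⁻¹ = (et * ex * et⁻¹)⁻¹ * ep * ex := by
    rw [R5, R4]; group
  have h2 : ep * et⁻¹ = et⁻¹ * (et * ep * et⁻¹) := by group
  rw [h2, h]; group

theorem p_norm : ∀ w ∈ WW, ep * w * ep⁻¹ ∈ WW := by
  have h1 : ep * ex * ep⁻¹ ∈ WW := by
    have : ep * ex * ep⁻¹ = ex⁻¹ * (es * ex * es⁻¹) * ex := by rw [R1]; group
    rw [this]
    exact WW.mul_mem (WW.mul_mem (WW.inv_mem ex_mem) (WW.mul_mem (WW.mul_mem es_mem ex_mem)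
      (WW.inv_mem es_mem))) ex_mem
  have h2 : ep * es⁻¹ * ep⁻¹ ∈ WW := by
    have : ep * es⁻¹ * ep⁻¹ = es⁻¹ * ex * (ep * ex * ep⁻¹)⁻¹ := by
      have h : ep * es⁻¹ = es⁻¹ * (ex * ep * ex⁻¹) := by
        rw [eq_inv_mul_iff_mul_eq, ← mul_assoc, R2]
      rw [h]; group
    rw [this]
    exact WW.mul_mem (WW.mul_mem (WW.inv_mem es_mem) ex_mem) (WW.inv_mem h1)
  have h3 : ep * et⁻¹ * ep⁻¹ ∈ WW := by
    have : ep * et⁻¹ * ep⁻¹ = ex⁻¹ * et⁻¹ * (ep * ex * ep⁻¹) := by
      rw [pt_rel]; group
    rw [this]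
    exact WW.mul_mem (WW.mul_mem (WW.inv_mem ex_mem) (WW.inv_mem et_mem)) h1
  refine norm_of (fun h1 h2 h3 => WW_le h1 h2 h3) ep h1 ?_ ?_
  · have := WW.inv_mem h2
    simpa [mul_assoc] using this
  · have := WW.inv_mem h3
    simpa [mul_assoc] using this

theorem pi_norm : ∀ w ∈ WW, ep⁻¹ * w * ep⁻¹⁻¹ ∈ WW := by
  have h1 : ep⁻¹ * ex * ep⁻¹⁻¹ ∈ WW := by
    rw [inv_inv, ← R1i]
    exact WW.mul_mem (WW.mul_mem (WW.inv_mem es_mem) ex_mem) es_mem
  refine norm_of (fun h1 h2 h3 => WW_le h1 h2 h3) ep⁻¹ h1 ?_ ?_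
  · have : ep⁻¹ * es * ep⁻¹⁻¹ = (ep⁻¹ * ex * ep⁻¹⁻¹) * ex⁻¹ * es := by
      have h : es * ep = (ex * ep * ex⁻¹) * es := by rw [← R2]; group
      rw [inv_inv, mul_assoc, h]; group
    rw [this]
    exact WW.mul_mem (WW.mul_mem h1 (WW.inv_mem ex_mem)) es_mem
  · have : ep⁻¹ * et⁻¹ * ep⁻¹⁻¹ = (ep⁻¹ * ex * ep⁻¹⁻¹) * et⁻¹ * ex⁻¹ := by
      have h : (ep⁻¹ * ex * ep⁻¹⁻¹) * et⁻¹ * ex⁻¹ = ep⁻¹ * ex * (ep * et⁻¹) * ex⁻¹ := by group
      rw [h, pt_rel]; group
    have h3 := WW.mul_mem (WW.mul_mem h1 (WW.inv_mem et_mem)) (WW.inv_mem ex_mem)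
    rw [← this] at h3
    have := WW.inv_mem h3
    simpa [mul_assoc] using this

theorem r_norm : ∀ w ∈ WW, er * w * er⁻¹ ∈ WW := by
  have h1 : er * ex * er⁻¹ ∈ WW := by
    rw [← R4i]
    exact WW.mul_mem (WW.mul_mem (WW.inv_mem et_mem) ex_mem) et_mem
  have h2 : er * es⁻¹ * er⁻¹ ∈ WW := by
    have : er * es⁻¹ * er⁻¹ = es⁻¹ * ex * (er * ex * er⁻¹)⁻¹ := by
      have h : er * es⁻¹ = es⁻¹ * (ex * er * ex⁻¹) := by
        rw [eq_inv_mul_iff_mul_eq, ← mul_assoc, R3]
      rw [h]; group
    rw [this]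
    exact WW.mul_mem (WW.mul_mem (WW.inv_mem es_mem) ex_mem) (WW.inv_mem h1)
  have h3 : er * et⁻¹ * er⁻¹ ∈ WW := by
    have : er * et⁻¹ * er⁻¹ = et⁻¹ := by
      have h : er * et⁻¹ = et⁻¹ * er := by
        rw [eq_inv_mul_iff_mul_eq, ← mul_assoc, R6]
      rw [h]; group
    rw [this]
    exact WW.inv_mem et_mem
  refine norm_of (fun h1 h2 h3 => WW_le h1 h2 h3) er h1 ?_ ?_
  · have := WW.inv_mem h2
    simpa [mul_assoc] using this
  · have := WW.inv_mem h3
    simpa [mul_assoc] using this

theorem ri_norm : ∀ w ∈ WW, er⁻¹ * w * er⁻¹⁻¹ ∈ WW := by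
  have h1 : er⁻¹ * ex * er⁻¹⁻¹ ∈ WW := by
    rw [inv_inv, ← R4]
    exact WW.mul_mem (WW.mul_mem et_mem ex_mem) (WW.inv_mem et_mem)
  refine norm_of (fun h1 h2 h3 => WW_le h1 h2 h3) er⁻¹ h1 ?_ ?_
  · have : er⁻¹ * es * er⁻¹⁻¹ = (er⁻¹ * ex * er⁻¹⁻¹) * ex⁻¹ * es := by
      have h : es * er = (ex * er * ex⁻¹) * es := by rw [← R3]; group
      rw [inv_inv, mul_assoc, h]; group
    rw [this]
    exact WW.mul_mem (WW.mul_mem h1 (WW.inv_mem ex_mem)) es_mem
  · have : er⁻¹ * et * er⁻¹⁻¹ = et := by
      have h : et * er = er * et := by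
        rw [← mul_inv_eq_iff_eq_mul]; exact R6
      rw [inv_inv, mul_assoc, h]; group
    rw [this]
    exact et_mem

theorem EE_gen {S : Subgroup EE} (hx : ex ∈ S) (hp : ep ∈ S) (hr : er ∈ S) (hs : es ∈ S)
    (ht : et ∈ S) (e : EE) : e ∈ S := by
  have h1 : ∀ f : F3, SemidirectProduct.inl f ∈ S := by
    intro f
    induction f using FreeGroup.induction_on with
    | C1 => rw [map_one]; exact S.one_mem
    | of i =>
      fin_cases i
      · exact hx
      · exact hp
      · exact hr
    | inv_of i ih => rw [map_inv]; exact S.inv_mem ih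
    | mul x y hx hy => rw [map_mul]; exact S.mul_mem hx hy
  have h2 : ∀ q : F2, SemidirectProduct.inr q ∈ S := by
    intro f
    induction f using FreeGroup.induction_on with
    | C1 => rw [map_one]; exact S.one_mem
    | of i =>
      fin_cases i
      · exact hs
      · exact ht
    | inv_of i ih => rw [map_inv]; exact S.inv_mem ih
    | mul x y hx hy => rw [map_mul]; exact S.mul_mem hx hy
  have h3 := S.mul_mem (h1 e.left) (h2 e.right)
  rwa [SemidirectProduct.inl_left_mul_inr_right] at h3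

theorem WW_normal : WW.Normal := by
  have key : ∀ e : EE, (∀ w ∈ WW, e * w * e⁻¹ ∈ WW) ∧ (∀ w ∈ WW, e⁻¹ * w * e⁻¹⁻¹ ∈ WW) := by
    let S : Subgroup EE :=
      { carrier := {e | (∀ w ∈ WW, e * w * e⁻¹ ∈ WW) ∧ (∀ w ∈ WW, e⁻¹ * w * e⁻¹⁻¹ ∈ WW)}
        one_mem' := by
          constructor
          · intro w hw; simpa using hw
          · intro w hw; simpa using hw
        mul_mem' := by
          rintro a b ⟨ha, ha'⟩ ⟨hb, hb'⟩
          constructor
          · intro w hw
            have h := ha _ (hb _ hw)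
            have e1 : a * (b * w * b⁻¹) * a⁻¹ = a * b * w * (a * b)⁻¹ := by group
            rwa [e1] at h
          · intro w hw
            have h := hb' _ (ha' _ hw)
            have e1 : b⁻¹ * (a⁻¹ * w * a⁻¹⁻¹) * b⁻¹⁻¹ = (a * b)⁻¹ * w * (a * b)⁻¹⁻¹ := by group
            rwa [e1] at h
        inv_mem' := by
          rintro a ⟨ha, ha'⟩
          refine ⟨ha', ?_⟩
          intro w hw
          rw [inv_inv]
          exact ha w hw }
    have hmem : ∀ w ∈ WW, w ∈ S := by
      intro w hw
      constructor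
      · intro v hv
        exact WW.mul_mem (WW.mul_mem hw hv) (WW.inv_mem hw)
      · intro v hv
        exact WW.mul_mem (WW.mul_mem (WW.inv_mem hw) hv) (WW.inv_mem (WW.inv_mem hw))
    intro e
    exact EE_gen (S := S) (hmem _ ex_mem) ⟨p_norm, pi_norm⟩ ⟨r_norm, ri_norm⟩ (hmem _ es_mem)
      (hmem _ et_mem) e
  constructor
  intro w hw e
  exact (key e).1 w hw

end

end Pool.MP_59b15d_al.H76
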