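import Mathlib

set_option autoImplicit false

namespace Pool.MP_59b15d_al.H76

/-- `a, b` are standard generators of the closed surface group `G` of genus `g`: the images of the
generators of the standard presentation under an isomorphism. -/
def StdGen {g : ℕ} {G : Type*} [Group G] (a b : Fin g → G) : Prop :=
  ∃ e : PresentedGroup
        ({(List.ofFn (fun i : Fin g =>
            FreeGroup.of (Sum.inl i : Fin g ⊕ Fin g) *
            FreeGroup.of (Sum.inr i : Fin g ⊕ Fin g) *
            (FreeGroup.of (Sum.inl i : Fin g ⊕ Fin g))⁻¹ *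
            (FreeGroup.of (Sum.inr i : Fin g ⊕ Fin g))⁻¹)).prod} :
          Set (FreeGroup (Fin g ⊕ Fin g))) ≃* G,
    ∀ i, e (PresentedGroup.of (Sum.inl i)) = a i ∧ e (PresentedGroup.of (Sum.inr i)) = b i

/-- `φ` is inner modulo `Γ`. -/
def InnMod {G : Type*} [Group G] (Γ : Subgroup G) (φ : MulAut G) : Prop :=
  ∃ h : G, ∀ x : G, φ x * (h * x * h⁻¹)⁻¹ ∈ Γ

/-- `H` contains all automorphisms that are inner modulo some characteristic subgroup of finite
index. -/
def IsCong {G : Type*} [Group G] (H : Subgroup (MulAut G)) : Prop :=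
  ∃ Γ : Subgroup G, Γ.Characteristic ∧ Γ.FiniteIndex ∧ ∀ φ : MulAut G, InnMod Γ φ → φ ∈ H

/-- `T` is one of the two twists of the `i`-th handle: it fixes all generators but `b i`, which it
maps to `b i * a i`, or all generators but `a i`, which it maps to `a i * b i`. -/
def IsTwist {g : ℕ} {G : Type*} [Group G] (a b : Fin g → G) (i : Fin g) (T : MulAut G) : Prop :=
  (∀ j, j ≠ i → T (a j) = a j ∧ T (b j) = b j) ∧
    ((T (a i) = a i ∧ T (b i) = b i * a i) ∨ (T (a i) = a i * b i ∧ T (b i) = b i))

/-- The group generated by the inner automorphisms and the twists of all handles. -/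
def AA {g : ℕ} {G : Type*} [Group G] (a b : Fin g → G) : Subgroup (MulAut G) :=
  Subgroup.closure (Set.range (MulAut.conj : G → MulAut G) ∪ {T | ∃ i, IsTwist a b i T})

end Pool.MP_59b15d_al.H76
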