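import Mathlib
import Pool.Agent.H.MP_59b15d_al.h76m.Defs

set_option autoImplicit false

namespace Pool.MP_59b15d_al.H76

section


variable {G : Type*} [Group G]

/-- The relative congruence subgroup property of a set `A` of automorphisms. -/
def RelCong (A : Set (MulAut G)) : Prop :=
  ∀ H : Subgroup (MulAut G), H.FiniteIndex → (∀ x : G, MulAut.conj x ∈ H) →
    ∃ Γ : Subgroup G, Γ.Characteristic ∧ Γ.FiniteIndex ∧ ∀ φ ∈ A, InnMod Γ φ → φ ∈ H

/-- Automorphisms that are trivial modulo `Γ`. -/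
def trivMod (Γ : Subgroup G) : Subgroup (MulAut G) where
  carrier := {φ | ∀ x, φ x * x⁻¹ ∈ Γ}
  one_mem' := fun x => by simp
  mul_mem' := by
    intro φ ψ hφ hψ x
    have h1 := Γ.mul_mem (hφ (ψ x)) (hψ x)
    have h2 : φ (ψ x) * (ψ x)⁻¹ * (ψ x * x⁻¹) = (φ * ψ) x * x⁻¹ := by
      rw [MulAut.mul_apply]; group
    rwa [h2] at h1
  inv_mem' := by
    intro φ hφ x
    have h1 := Γ.inv_mem (hφ (φ⁻¹ x))
    rw [MulAut.apply_inv_self, mul_inv_rev, inv_inv] at h1
    exact h1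

theorem mem_trivMod {Γ : Subgroup G} {φ : MulAut G} :
    φ ∈ trivMod Γ ↔ ∀ x, φ x * x⁻¹ ∈ Γ := Iff.rfl

theorem apply_mem_of_char {Γ : Subgroup G} (hΓ : Γ.Characteristic) (φ : MulAut G) {x : G}
    (hx : x ∈ Γ) : φ x ∈ Γ := by
  have := Subgroup.characteristic_iff_le_comap.mp hΓ φ hx
  exact this

theorem trivMod_mono {Γ Γ' : Subgroup G} (h : Γ ≤ Γ') : trivMod Γ ≤ trivMod Γ' :=
  fun _ hφ x => h (hφ x)

theorem innMod_mono {Γ Γ' : Subgroup G} (h : Γ ≤ Γ') {φ : MulAut G} (hφ : InnMod Γ φ) :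
    InnMod Γ' φ := by
  obtain ⟨k, hk⟩ := hφ
  exact ⟨k, fun x => h (hk x)⟩

theorem trivMod_normal {Γ : Subgroup G} (hΓ : Γ.Characteristic) : (trivMod Γ).Normal := by
  constructor
  intro φ hφ ψ x
  have h1 := apply_mem_of_char hΓ ψ (hφ (ψ⁻¹ x))
  rw [map_mul, map_inv, MulAut.apply_inv_self] at h1
  exact h1

theorem trivMod_finiteIndex {Γ : Subgroup G} (hΓ : Γ.Characteristic) (hfin : Γ.FiniteIndex) :
    (trivMod Γ).FiniteIndex := by
  have hn : Γ.Normal := inferInstance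
  have : Finite (G ⧸ Γ) := Subgroup.finite_quotient_of_finiteIndex
  let f : MulAut G →* MulAut (G ⧸ Γ) :=
    { toFun := fun φ => QuotientGroup.congr Γ Γ φ (Subgroup.characteristic_iff_map_eq.mp hΓ φ)
      map_one' := by
        ext x
        induction x using QuotientGroup.induction_on with
        | _ x => rfl
      map_mul' := by
        intro φ ψ
        ext x
        induction x using QuotientGroup.induction_on with
        | _ x => rfl }
  have : Finite (MulAut (G ⧸ Γ)) :=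
    Finite.of_injective (fun f : MulAut (G ⧸ Γ) => (f : (G ⧸ Γ) → (G ⧸ Γ)))
      (fun a b h => MulEquiv.ext (fun x => congrFun h x))
  have hk : f.ker.FiniteIndex := Subgroup.finiteIndex_ker f
  have hle : f.ker ≤ trivMod Γ := by
    intro φ hφ x
    rw [MonoidHom.mem_ker] at hφ
    have h1 : f φ (x : G ⧸ Γ) = (x : G ⧸ Γ) := by rw [hφ]; rfl
    have h2 : ((φ x : G) : G ⧸ Γ) = (x : G ⧸ Γ) := h1
    have h3 := QuotientGroup.eq.mp h2.symm
    have h4 := hn.conj_mem _ h3 x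
    rwa [mul_inv_cancel_left] at h4
  exact Subgroup.finiteIndex_of_le hle

theorem innMod_iff {Γ : Subgroup G} (hn : Γ.Normal) {φ : MulAut G} :
    InnMod Γ φ ↔ ∃ h : G, (MulAut.conj h)⁻¹ * φ ∈ trivMod Γ := by
  constructor
  · rintro ⟨h, hh⟩
    refine ⟨h, fun x => ?_⟩
    have h1 := hn.conj_mem _ (hh x) h⁻¹
    rw [MulAut.mul_apply, ← map_inv, MulAut.conj_apply]
    have h2 : h⁻¹ * (φ x * (h * x * h⁻¹)⁻¹) * h⁻¹⁻¹ = h⁻¹ * φ x * h⁻¹⁻¹ * x⁻¹ := by group
    rwa [h2] at h1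
  · rintro ⟨h, hh⟩
    refine ⟨h, fun x => ?_⟩
    have h1 := hn.conj_mem _ (hh x) h
    rw [MulAut.mul_apply, ← map_inv, MulAut.conj_apply] at h1
    have h2 : h * (h⁻¹ * φ x * h⁻¹⁻¹ * x⁻¹) * h⁻¹ = φ x * (h * x * h⁻¹)⁻¹ := by group
    rwa [h2] at h1

/-- Automorphisms that are inner modulo `Γ`. -/
def congSub (Γ : Subgroup G) (hΓ : Γ.Characteristic) : Subgroup (MulAut G) where
  carrier := {φ | InnMod Γ φ}
  one_mem' := ⟨1, fun x => by simp⟩
  mul_mem' := by
    intro φ ψ hφ hψ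
    have hn : Γ.Normal := inferInstance
    have hN := trivMod_normal hΓ
    rw [Set.mem_ofPred_eq, innMod_iff hn] at hφ hψ ⊢
    obtain ⟨h, hh⟩ := hφ
    obtain ⟨k, hk⟩ := hψ
    refine ⟨h * k, ?_⟩
    have h1 := hN.conj_mem _ hh (MulAut.conj k)⁻¹
    have h2 := (trivMod Γ).mul_mem h1 hk
    have h3 : (MulAut.conj k)⁻¹ * ((MulAut.conj h)⁻¹ * φ) * (MulAut.conj k)⁻¹⁻¹ *
        ((MulAut.conj k)⁻¹ * ψ) = (MulAut.conj (h * k))⁻¹ * (φ * ψ) := by
      rw [map_mul]; group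
    rwa [h3] at h2
  inv_mem' := by
    intro φ hφ
    have hn : Γ.Normal := inferInstance
    have hN := trivMod_normal hΓ
    rw [Set.mem_ofPred_eq, innMod_iff hn] at hφ ⊢
    obtain ⟨h, hh⟩ := hφ
    refine ⟨h⁻¹, ?_⟩
    have h1 := hN.conj_mem _ ((trivMod Γ).inv_mem hh) (MulAut.conj h)
    have h3 : MulAut.conj h * ((MulAut.conj h)⁻¹ * φ)⁻¹ * (MulAut.conj h)⁻¹ =
        (MulAut.conj h⁻¹)⁻¹ * φ⁻¹ := by
      rw [map_inv]; group
    rwa [h3] at h1

theorem mem_congSub {Γ : Subgroup G} {hΓ : Γ.Characteristic} {φ : MulAut G} :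
    φ ∈ congSub Γ hΓ ↔ InnMod Γ φ := Iff.rfl

theorem congSub_finiteIndex {Γ : Subgroup G} (hΓ : Γ.Characteristic) (hfin : Γ.FiniteIndex) :
    (congSub Γ hΓ).FiniteIndex := by
  have h1 := trivMod_finiteIndex hΓ hfin
  have hle : trivMod Γ ≤ congSub Γ hΓ := by
    intro φ hφ
    rw [mem_congSub, innMod_iff inferInstance]
    exact ⟨1, by rwa [map_one, inv_one, one_mul]⟩
  exact Subgroup.finiteIndex_of_le hle

theorem conj_innMod (Γ : Subgroup G) (x : G) : InnMod Γ (MulAut.conj x) :=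
  ⟨x, fun y => by rw [MulAut.conj_apply, mul_inv_cancel]; exact Γ.one_mem⟩

theorem congSub_normal {Γ : Subgroup G} (hΓ : Γ.Characteristic) : (congSub Γ hΓ).Normal := by
  constructor
  intro φ hφ ψ
  have hN := trivMod_normal hΓ
  rw [mem_congSub, innMod_iff inferInstance] at hφ ⊢
  obtain ⟨h, hh⟩ := hφ
  refine ⟨ψ h, ?_⟩
  have h1 := hN.conj_mem _ hh ψ
  have h2 : ψ * (MulAut.conj h)⁻¹ * ψ⁻¹ = (MulAut.conj (ψ h))⁻¹ := by
    rw [eq_inv_iff_mul_eq_one]
    ext x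
    simp only [MulAut.mul_apply, MulAut.conj_apply, ← map_inv, map_mul, MulAut.apply_inv_self,
      MulAut.one_apply]
    rw [map_inv]
    group
  have h3 : ψ * ((MulAut.conj h)⁻¹ * φ) * ψ⁻¹ = (ψ * (MulAut.conj h)⁻¹ * ψ⁻¹) * (ψ * φ * ψ⁻¹) := by
    group
  rw [h3, h2] at h1
  exact h1

theorem inf_char {Γ Γ' : Subgroup G} (h : Γ.Characteristic) (h' : Γ'.Characteristic) :
    (Γ ⊓ Γ').Characteristic := by
  rw [Subgroup.characteristic_iff_le_comap] at *
  intro φ x hx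
  exact ⟨h φ hx.1, h' φ hx.2⟩

/-- The reduction: if `A` has the relative congruence subgroup property, the congruence subgroup
property can be tested on the subgroups of finite index that contain `A`. -/
theorem reduction (A : Subgroup (MulAut G)) (hA : RelCong (A : Set (MulAut G)))
    (h : ∀ H : Subgroup (MulAut G), H.FiniteIndex → (∀ x : G, MulAut.conj x ∈ H) → A ≤ H →
      IsCong H)
    (H : Subgroup (MulAut G)) (hH : H.FiniteIndex) (hI : ∀ x : G, MulAut.conj x ∈ H) :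
    IsCong H := by
  have hH₀ : H.normalCore.FiniteIndex := inferInstance
  have hI₀ : ∀ x : G, MulAut.conj x ∈ H.normalCore := by
    intro x ψ
    have h2 : ψ * MulAut.conj x * ψ⁻¹ = MulAut.conj (ψ x) := by
      ext y
      simp [MulAut.mul_apply, MulAut.conj_apply]
    rw [h2]
    exact hI _
  obtain ⟨Γ₁, hc₁, hf₁, h₁⟩ := hA H.normalCore hH₀ hI₀
  have hCf := congSub_finiteIndex hc₁ hf₁
  have hCn := congSub_normal hc₁
  let H₁ : Subgroup (MulAut G) := H.normalCore ⊓ congSub Γ₁ hc₁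
  have hH₁n : H₁.Normal := inferInstance
  have hH₁f : H₁.FiniteIndex := inferInstance
  have hle : H₁ ≤ A ⊔ H₁ := le_sup_right
  have hAf : (A ⊔ H₁).FiniteIndex := Subgroup.finiteIndex_of_le hle
  obtain ⟨Γ₂, hc₂, hf₂, h₂⟩ := h (A ⊔ H₁) hAf
    (fun x => hle ⟨hI₀ x, conj_innMod Γ₁ x⟩) le_sup_left
  refine ⟨Γ₁ ⊓ Γ₂, inf_char hc₁ hc₂, inferInstance, ?_⟩
  intro φ hφ
  have hφ₁ : φ ∈ congSub Γ₁ hc₁ := innMod_mono inf_le_left hφ
  have hφ₂ : φ ∈ A ⊔ H₁ := h₂ φ (innMod_mono inf_le_right hφ)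
  obtain ⟨a, ha, k, hk, rfl⟩ := Subgroup.mem_sup_of_normal_right.mp hφ₂
  have h3 : a ∈ congSub Γ₁ hc₁ := by
    have := (congSub Γ₁ hc₁).mul_mem hφ₁ ((congSub Γ₁ hc₁).inv_mem hk.2)
    rwa [mul_inv_cancel_right] at this
  have h4 : a ∈ H.normalCore := h₁ a ha h3
  exact H.mul_mem (Subgroup.normalCore_le H h4) (Subgroup.normalCore_le H hk.1)

/-- If every subgroup of finite index containing the centraliser (modulo inner automorphisms) of `t`
is a congruence subgroup, the congruence kernel centralises the normal closure of `t`. -/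
theorem centrality (t : MulAut G)
    (h : ∀ H : Subgroup (MulAut G), H.FiniteIndex → (∀ x : G, MulAut.conj x ∈ H) →
      (∀ ψ : MulAut G, (∃ x : G, ψ * t * ψ⁻¹ * t⁻¹ = MulAut.conj x) → ψ ∈ H) → IsCong H)
    (H : Subgroup (MulAut G)) (hH : H.FiniteIndex) (hn : H.Normal)
    (hI : ∀ x : G, MulAut.conj x ∈ H) :
    ∃ Γ : Subgroup G, Γ.Characteristic ∧ Γ.FiniteIndex ∧
      ∀ φ : MulAut G, InnMod Γ φ → ∀ ψ ∈ Subgroup.normalClosure {t}, φ * ψ * φ⁻¹ * ψ⁻¹ ∈ H := by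
  let q : MulAut G →* MulAut G ⧸ H := QuotientGroup.mk' H
  let C : Subgroup (MulAut G) := (Subgroup.centralizer {q t}).comap q
  have hHC : H ≤ C := by
    intro φ hφ
    rw [Subgroup.mem_comap, Subgroup.mem_centralizer_singleton_iff]
    have : q φ = 1 := (QuotientGroup.eq_one_iff φ).mpr hφ
    rw [this, one_mul, mul_one]
  have hC : C.FiniteIndex := Subgroup.finiteIndex_of_le hHC
  obtain ⟨Γ, hc, hf, hΓ⟩ := h C hC (fun x => hHC (hI x)) (by
    rintro ψ ⟨x, hx⟩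
    rw [Subgroup.mem_comap, Subgroup.mem_centralizer_singleton_iff]
    have h1 : q (ψ * t * ψ⁻¹ * t⁻¹) = 1 := by
      rw [hx]; exact (QuotientGroup.eq_one_iff _).mpr (hI x)
    have h2 : ψ * t = (ψ * t * ψ⁻¹ * t⁻¹) * (t * ψ) := by group
    rw [← map_mul, ← map_mul, h2, map_mul, h1, one_mul])
  refine ⟨Γ, hc, hf, ?_⟩
  intro φ hφ ψ hψ
  have hN := congSub_normal hc
  -- the elements of the normal closure commute with the congruence subgroup modulo H
  have key : Subgroup.normalClosure {t} ≤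
      (Subgroup.centralizer ((congSub Γ hc).map q : Set (MulAut G ⧸ H))).comap q := by
    have hmn : ((congSub Γ hc).map q).Normal :=
      Subgroup.Normal.map hN q (QuotientGroup.mk'_surjective H)
    have hcn : ((Subgroup.centralizer ((congSub Γ hc).map q : Set (MulAut G ⧸ H))).comap q).Normal :=
      inferInstance
    apply Subgroup.normalClosure_le_normal
    intro s hs
    rw [Set.mem_singleton_iff] at hs
    rw [hs, SetLike.mem_coe, Subgroup.mem_comap, Subgroup.mem_centralizer_iff]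
    rintro _ ⟨χ, hχ, rfl⟩
    have h1 := hΓ χ hχ
    rw [Subgroup.mem_comap, Subgroup.mem_centralizer_singleton_iff] at h1
    exact h1
  have h1 := key hψ
  rw [Subgroup.mem_comap, Subgroup.mem_centralizer_iff] at h1
  have h2 := h1 (q φ) ⟨φ, hφ, rfl⟩
  have h3 : q (φ * ψ * φ⁻¹ * ψ⁻¹) = 1 := by
    rw [map_mul, map_mul, map_mul, h2, map_inv, map_inv]
    group
  exact (QuotientGroup.eq_one_iff _).mp h3

end

end Pool.MP_59b15d_al.H76
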