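import Mathlib
import Pool.Agent.H.MP_59b15d_al.h76m.Hc
import Pool.Agent.H.MP_59b15d_al.h76m.Hd

set_option autoImplicit false

namespace Pool.MP_59b15d_al.H76

section


open FreeGroup (of)

theorem map_relIndex_ne {P Q : Type*} [Group P] [Group Q] (f : P →* Q) (H K : Subgroup P)
    (h : H.relIndex K ≠ 0) : (H.map f).relIndex (K.map f) ≠ 0 := by
  let g : K →* Q := f.comp K.subtype
  have hg : g.range = K.map f := by
    ext y
    constructor
    · rintro ⟨x, rfl⟩
      exact ⟨x, x.2, rfl⟩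
    · rintro ⟨x, hx, rfl⟩
      exact ⟨⟨x, hx⟩, rfl⟩
  rw [← hg, ← Subgroup.index_comap]
  have hle : H.subgroupOf K ≤ (H.map f).comap g := by
    intro x hx
    exact ⟨x, hx, rfl⟩
  intro h0
  have h1 := Subgroup.index_dvd_of_le hle
  rw [h0, zero_dvd_iff] at h1
  exact h h1

/-- Automorphisms commuting with the involution modulo inner automorphisms. -/
def Siota : Subgroup (MulAut F2) where
  carrier := {c | ∃ k : F2, c * iota = MulAut.conj k * iota * c}
  one_mem' := ⟨1, by rw [map_one, one_mul, mul_one]⟩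
  mul_mem' := by
    rintro c d ⟨k, hk⟩ ⟨l, hl⟩
    refine ⟨c l * k, ?_⟩
    have h1 : c * MulAut.conj l = MulAut.conj (c l) * c := by
      ext x
      simp only [MulAut.mul_apply, MulAut.conj_apply, map_mul, map_inv]
    rw [mul_assoc, hl, ← mul_assoc, ← mul_assoc, h1, mul_assoc (MulAut.conj (c l)) c iota, hk,
      map_mul]
    simp only [mul_assoc]
  inv_mem' := by
    rintro c ⟨k, hk⟩
    refine ⟨(c⁻¹ k)⁻¹, ?_⟩
    have h1 : MulAut.conj (c⁻¹ k) = c⁻¹ * MulAut.conj k * c := by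
      ext x
      simp only [MulAut.mul_apply, MulAut.conj_apply, map_mul, map_inv, MulAut.inv_apply_self]
    rw [map_inv, h1]
    have h2 : iota = (MulAut.conj k)⁻¹ * (c * iota * c⁻¹) := by
      rw [hk]; group
    have h3 : (c⁻¹ * MulAut.conj k * c)⁻¹ * iota * c⁻¹ =
        c⁻¹ * ((MulAut.conj k)⁻¹ * (c * iota * c⁻¹)) := by group
    rw [h3, ← h2]

theorem conj_Siota (g : F2) : MulAut.conj g ∈ Siota := by
  refine ⟨g * (iota g)⁻¹, MulEquiv.ext (fun x => ?_)⟩
  change g * iota x * g⁻¹ = g * (iota g)⁻¹ * iota (g * x * g⁻¹) * (g * (iota g)⁻¹)⁻¹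
  rw [map_mul, map_mul, map_inv]
  group

theorem iota_Siota : iota ∈ Siota := ⟨1, by rw [map_one, one_mul]⟩

theorem XX_Siota : XX ∈ Siota :=
  ⟨of 0 * of 0, by apply aut_ext2 <;> simp [MulAut.mul_apply, MulAut.conj_apply, mul_assoc]⟩

theorem YY_Siota : YY ∈ Siota :=
  ⟨of 1 * of 1, by apply aut_ext2 <;> simp [MulAut.mul_apply, MulAut.conj_apply, mul_assoc]⟩

theorem Theta_p : Theta ep = gx⁻¹ * XX := by simp [Theta, ep, th1]
theorem Theta_r : Theta er = gt⁻¹ * YY := by simp [Theta, er, th1]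

theorem gx_Siota : gx ∈ Siota := Siota.mul_mem (conj_Siota _) iota_Siota

theorem Theta_Siota (e : EE) : Theta e ∈ Siota := by
  have h : e ∈ Siota.comap Theta := by
    apply EE_gen
    · rw [Subgroup.mem_comap, Theta_x]; exact gx_Siota
    · rw [Subgroup.mem_comap, Theta_p]; exact Siota.mul_mem (Siota.inv_mem gx_Siota) XX_Siota
    · rw [Subgroup.mem_comap, Theta_r]
      exact Siota.mul_mem (Siota.inv_mem (conj_Siota _)) YY_Siota
    · rw [Subgroup.mem_comap, Theta_s]; exact conj_Siota _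
    · rw [Subgroup.mem_comap, Theta_t]; exact conj_Siota _
  exact h

/-- The elements of the free group whose inner automorphism comes from `x, s, t`. -/
def JJ : Subgroup F2 := (WW.map Theta).comap MulAut.conj

theorem gx_mem : gx ∈ WW.map Theta := ⟨ex, ex_mem, Theta_x⟩
theorem gs_mem : gs ∈ WW.map Theta := ⟨es, es_mem, Theta_s⟩
theorem gt_mem : gt ∈ WW.map Theta := ⟨et, et_mem, Theta_t⟩

theorem conj_norm (c : MulAut F2) (h1 : c * gx * c⁻¹ ∈ WW.map Theta)
    (h2 : c * gs * c⁻¹ ∈ WW.map Theta) (h3 : c * gt * c⁻¹ ∈ WW.map Theta) :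
    ∀ f ∈ WW.map Theta, c * f * c⁻¹ ∈ WW.map Theta := by
  have hle : WW ≤ ((WW.map Theta).comap (MulAut.conj c).toMonoidHom).comap Theta := by
    apply WW_le
    · change c * Theta ex * c⁻¹ ∈ WW.map Theta
      rwa [Theta_x]
    · change c * Theta es * c⁻¹ ∈ WW.map Theta
      rwa [Theta_s]
    · change c * Theta et * c⁻¹ ∈ WW.map Theta
      rwa [Theta_t]
  rintro _ ⟨w, hw, rfl⟩
  exact hle hw

theorem conj_a_norm : ∀ f ∈ WW.map Theta,
    MulAut.conj (of 0 : F2) * f * (MulAut.conj (of 0 : F2))⁻¹ ∈ WW.map Theta := by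
  apply conj_norm
  · have : MulAut.conj (of 0 : F2) * gx * (MulAut.conj (of 0 : F2))⁻¹ = gs * gx⁻¹ := by
      apply aut_ext2 <;> simp [gx, gs, MulAut.mul_apply, MulAut.conj_apply, mul_assoc]
    rw [this]
    exact Subgroup.mul_mem _ gs_mem (Subgroup.inv_mem _ gx_mem)
  · have : MulAut.conj (of 0 : F2) * gs * (MulAut.conj (of 0 : F2))⁻¹ = gs := by
      apply aut_ext2 <;> simp [gs, MulAut.mul_apply, MulAut.conj_apply, mul_assoc]
    rw [this]
    exact gs_mem
  · have : MulAut.conj (of 0 : F2) * gt * (MulAut.conj (of 0 : F2))⁻¹ = gx * gt⁻¹ * gx⁻¹ := by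
      apply aut_ext2 <;> simp [gx, gt, MulAut.mul_apply, MulAut.conj_apply, mul_assoc]
    rw [this]
    exact Subgroup.mul_mem _ (Subgroup.mul_mem _ gx_mem (Subgroup.inv_mem _ gt_mem))
      (Subgroup.inv_mem _ gx_mem)

theorem conj_ai_norm : ∀ f ∈ WW.map Theta,
    (MulAut.conj (of 0 : F2))⁻¹ * f * (MulAut.conj (of 0 : F2))⁻¹⁻¹ ∈ WW.map Theta := by
  intro f hf
  have h1 := conj_a_norm f hf
  have h2 := Subgroup.mul_mem _ (Subgroup.mul_mem _ (Subgroup.inv_mem _ gs_mem) h1) gs_mem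
  have h3 : gs = MulAut.conj (of 0 : F2) * MulAut.conj (of 0 : F2) := by
    rw [gs, map_mul]
  have h4 : gs⁻¹ * (MulAut.conj (of 0 : F2) * f * (MulAut.conj (of 0 : F2))⁻¹) * gs =
      (MulAut.conj (of 0 : F2))⁻¹ * f * (MulAut.conj (of 0 : F2))⁻¹⁻¹ := by
    rw [h3]
    group
  rwa [h4] at h2

theorem conj_b_norm : ∀ f ∈ WW.map Theta,
    MulAut.conj (of 1 : F2) * f * (MulAut.conj (of 1 : F2))⁻¹ ∈ WW.map Theta := by
  apply conj_norm
  · have : MulAut.conj (of 1 : F2) * gx * (MulAut.conj (of 1 : F2))⁻¹ = gx⁻¹ * gt⁻¹ := by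
      apply aut_ext2 <;> simp [gx, gt, MulAut.mul_apply, MulAut.conj_apply, mul_assoc]
    rw [this]
    exact Subgroup.mul_mem _ (Subgroup.inv_mem _ gx_mem) (Subgroup.inv_mem _ gt_mem)
  · have : MulAut.conj (of 1 : F2) * gs * (MulAut.conj (of 1 : F2))⁻¹ = gx⁻¹ * gs⁻¹ * gx := by
      apply aut_ext2 <;> simp [gx, gs, MulAut.mul_apply, MulAut.conj_apply, mul_assoc]
    rw [this]
    exact Subgroup.mul_mem _ (Subgroup.mul_mem _ (Subgroup.inv_mem _ gx_mem)
      (Subgroup.inv_mem _ gs_mem)) gx_mem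
  · have : MulAut.conj (of 1 : F2) * gt * (MulAut.conj (of 1 : F2))⁻¹ = gt := by
      apply aut_ext2 <;> simp [gt, MulAut.mul_apply, MulAut.conj_apply, mul_assoc]
    rw [this]
    exact gt_mem

theorem conj_bi_norm : ∀ f ∈ WW.map Theta,
    (MulAut.conj (of 1 : F2))⁻¹ * f * (MulAut.conj (of 1 : F2))⁻¹⁻¹ ∈ WW.map Theta := by
  intro f hf
  have h1 := conj_b_norm f hf
  have h2 := Subgroup.mul_mem _ (Subgroup.mul_mem _ (Subgroup.inv_mem _ gt_mem) h1) gt_mem
  have h3 : gt = MulAut.conj (of 1 : F2) * MulAut.conj (of 1 : F2) := by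
    rw [gt, map_mul]
  have h4 : gt⁻¹ * (MulAut.conj (of 1 : F2) * f * (MulAut.conj (of 1 : F2))⁻¹) * gt =
      (MulAut.conj (of 1 : F2))⁻¹ * f * (MulAut.conj (of 1 : F2))⁻¹⁻¹ := by
    rw [h3]
    group
  rwa [h4] at h2

theorem conj_all_norm (g : F2) : ∀ f ∈ WW.map Theta,
    MulAut.conj g * f * (MulAut.conj g)⁻¹ ∈ WW.map Theta := by
  induction g using FreeGroup.induction_on with
  | C1 => intro f hf; rw [map_one, one_mul, inv_one, mul_one]; exact hf
  | of i =>
    fin_cases i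
    · exact conj_a_norm
    · exact conj_b_norm
  | inv_of i ih =>
    rw [map_inv]
    fin_cases i
    · exact conj_ai_norm
    · exact conj_bi_norm
  | mul x y hx hy =>
    intro f hf
    have h := hx _ (hy _ hf)
    rw [map_mul]
    have e : MulAut.conj x * (MulAut.conj y * f * (MulAut.conj y)⁻¹) * (MulAut.conj x)⁻¹ =
        MulAut.conj x * MulAut.conj y * f * (MulAut.conj x * MulAut.conj y)⁻¹ := by group
    rwa [e] at h

theorem JJ_normal : JJ.Normal := by
  constructor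
  intro n hn g
  have h := conj_all_norm g _ hn
  have e : MulAut.conj g * (MulAut.conj n) * (MulAut.conj g)⁻¹ = MulAut.conj (g * n * g⁻¹) := by
    rw [map_mul, map_mul, map_inv]
  change MulAut.conj g * (MulAut.conj n) * (MulAut.conj g)⁻¹ ∈ WW.map Theta at h
  rwa [e] at h

theorem aa_mem : (of 0 * of 0 : F2) ∈ JJ := gs_mem
theorem bb_mem : (of 1 * of 1 : F2) ∈ JJ := gt_mem
theorem ab_mem : (of 0 * of 1 * (of 0)⁻¹ * (of 1)⁻¹ : F2) ∈ JJ := by
  have h := Subgroup.mul_mem _ gx_mem gx_mem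
  have e : gx * gx = MulAut.conj (of 0 * of 1 * (of 0)⁻¹ * (of 1)⁻¹ : F2) := by
    apply aut_ext2 <;> simp [gx, MulAut.mul_apply, MulAut.conj_apply, mul_assoc]
  rw [e] at h
  exact h

theorem JJ_of_even (h : F2) (hx : (toHeis (ZMod 2) h).x = 0) (hy : (toHeis (ZMod 2) h).y = 0) :
    h ∈ JJ := by
  have hn := JJ_normal
  let A : F2 ⧸ JJ := QuotientGroup.mk (of 0)
  let B : F2 ⧸ JJ := QuotientGroup.mk (of 1)
  have hA : A ^ 2 = 1 := by
    rw [pow_two]; exact (QuotientGroup.eq_one_iff _).mpr aa_mem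
  have hB : B ^ 2 = 1 := by
    rw [pow_two]; exact (QuotientGroup.eq_one_iff _).mpr bb_mem
  have hAB : Commute A B := by
    have : A * B * A⁻¹ * B⁻¹ = 1 := (QuotientGroup.eq_one_iff _).mpr ab_mem
    have h2 : A * B = B * A := by
      rw [mul_inv_eq_one, mul_inv_eq_iff_eq_mul] at this
      exact this
    exact h2
  have key : ∀ g : F2, ∃ m n : ℤ, (toHeis (ZMod 2) g).x = m ∧ (toHeis (ZMod 2) g).y = n ∧
      (QuotientGroup.mk g : F2 ⧸ JJ) = A ^ m * B ^ n := by
    intro g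
    induction g using FreeGroup.induction_on with
    | C1 => exact ⟨0, 0, by simp, by simp, by simp⟩
    | of i =>
      fin_cases i
      · refine ⟨1, 0, ?_, ?_, ?_⟩
        · change (toHeis (ZMod 2) (of 0)).x = _
          rw [toHeis_a]; simp
        · change (toHeis (ZMod 2) (of 0)).y = _
          rw [toHeis_a]; simp
        · rw [zpow_one, zpow_zero, mul_one]; rfl
      · refine ⟨0, 1, ?_, ?_, ?_⟩
        · change (toHeis (ZMod 2) (of 1)).x = _
          rw [toHeis_b]; simp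
        · change (toHeis (ZMod 2) (of 1)).y = _
          rw [toHeis_b]; simp
        · rw [zpow_one, zpow_zero, one_mul]; rfl
    | inv_of i ih =>
      obtain ⟨m, n, h1, h2, h3⟩ := ih
      refine ⟨-m, -n, ?_, ?_, ?_⟩
      · rw [map_inv, Heis.inv_x, h1]; push_cast; rfl
      · rw [map_inv, Heis.inv_y, h2]; push_cast; rfl
      · rw [QuotientGroup.mk_inv, h3, mul_inv_rev, zpow_neg, zpow_neg]
        exact ((hAB.zpow_zpow m n).inv_inv).symm.eq
    | mul x y hx hy =>
      obtain ⟨m, n, h1, h2, h3⟩ := hx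
      obtain ⟨m', n', h1', h2', h3'⟩ := hy
      refine ⟨m + m', n + n', ?_, ?_, ?_⟩
      · rw [map_mul, Heis.mul_x, h1, h1']; push_cast; rfl
      · rw [map_mul, Heis.mul_y, h2, h2']; push_cast; rfl
      · rw [QuotientGroup.mk_mul, h3, h3', zpow_add, zpow_add]
        have := (hAB.zpow_zpow m' n).eq
        calc A ^ m * B ^ n * (A ^ m' * B ^ n') = A ^ m * (B ^ n * A ^ m') * B ^ n' := by group
          _ = A ^ m * (A ^ m' * B ^ n) * B ^ n' := by rw [this]
          _ = _ := by group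
  obtain ⟨m, n, h1, h2, h3⟩ := key h
  rw [hx] at h1
  rw [hy] at h2
  have hm := (ZMod.intCast_zmod_eq_zero_iff_dvd m 2).mp h1.symm
  have hn' := (ZMod.intCast_zmod_eq_zero_iff_dvd n 2).mp h2.symm
  obtain ⟨m', rfl⟩ := hm
  obtain ⟨n', rfl⟩ := hn'
  have e1 : A ^ (((2 : ℕ) : ℤ) * m') = 1 := by rw [zpow_mul, zpow_natCast, hA, one_zpow]
  have e2 : B ^ (((2 : ℕ) : ℤ) * n') = 1 := by rw [zpow_mul, zpow_natCast, hB, one_zpow]
  rw [e1, e2, one_mul] at h3
  exact (QuotientGroup.eq_one_iff _).mp h3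

theorem JJ_fi : JJ.FiniteIndex := by
  have hk : (toHeis (ZMod 2)).ker ≤ JJ := by
    intro g hg
    rw [MonoidHom.mem_ker] at hg
    exact JJ_of_even g (by rw [hg]; rfl) (by rw [hg]; rfl)
  have : (toHeis (ZMod 2)).ker.FiniteIndex := Subgroup.finiteIndex_ker _
  exact Subgroup.finiteIndex_of_le hk

theorem conj_apply_comm (c : MulAut F2) (g : F2) :
    c * MulAut.conj g = MulAut.conj (c g) * c := by
  ext x
  simp only [MulAut.mul_apply, MulAut.conj_apply, map_mul, map_inv]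

/-- Elements of the split extension acting trivially modulo a deep characteristic subgroup commute
with `x, s, t` modulo a given subgroup of finite index. -/
theorem TOne (N : Subgroup EE) (hn : N.Normal) (hf : N.FiniteIndex) :
    ∃ K : Subgroup F2, K.Characteristic ∧ K.FiniteIndex ∧ ∀ e : EE, Theta e ∈ trivMod K →
      e * ex * e⁻¹ * ex⁻¹ ∈ N ∧ e * es * e⁻¹ * es⁻¹ ∈ N ∧ e * et * e⁻¹ * et⁻¹ ∈ N := by
  let L : Subgroup F2 := ((N ⊓ WW).map Theta).comap MulAut.conj
  have hL : L.FiniteIndex := by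
    have h1 : (N ⊓ WW).relIndex WW ≠ 0 := by
      have := Subgroup.isFiniteRelIndex_of_finiteIndex (H := N) (K := WW)
      rw [Subgroup.inf_relIndex_right]
      exact Subgroup.relIndex_ne_zero
    have h2 := map_relIndex_ne Theta _ _ h1
    have h3 : L.relIndex JJ ≠ 0 := by
      change (((N ⊓ WW).map Theta).comap MulAut.conj).relIndex JJ ≠ 0
      rw [Subgroup.relIndex_comap]
      have hle : JJ.map MulAut.conj ≤ WW.map Theta := Subgroup.map_comap_le _ _
      exact fun h => h2 (Subgroup.relIndex_eq_zero_of_le_right hle h)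
    have hJ := JJ_fi
    have hle : L ≤ JJ := Subgroup.comap_mono (Subgroup.map_mono inf_le_right)
    refine ⟨?_⟩
    rw [← Subgroup.relIndex_mul_index hle]
    exact mul_ne_zero h3 hJ.index_ne_zero
  obtain ⟨K₀, hK0c, hK0f, hK0⟩ := exists_char_le L hL
  have hK0n : K₀.Normal := inferInstance
  obtain ⟨M', hM'n, hM'f, hM'le, hM'⟩ := free_center (0 : Fin 2) 1 (by decide) K₀
  obtain ⟨K, hKc, hKf, hK⟩ := exists_char_le M' hM'f
  have hKK0 : K ≤ K₀ := hK.trans hM'le
  have hKn : K.Normal := inferInstance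
  refine ⟨K, hKc, hKf, ?_⟩
  intro e he
  have hWn := WW_normal
  -- elements of `W` mapping to inner automorphisms by elements of `K₀` lie in `N`
  have key : ∀ (w : EE) (h : F2), w ∈ WW → h ∈ K₀ → Theta w = MulAut.conj h → w ∈ N := by
    intro w h hw hh hwh
    obtain ⟨n, hn, hnh⟩ := hK0 hh
    have h1 : Theta n = Theta w := by rw [hwh]; exact hnh
    obtain ⟨u, hu⟩ := hn.2
    obtain ⟨v, hv⟩ := hw
    have h2 : u = v := Theta_kap_injective (by
      change Theta (kap u) = Theta (kap v)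
      rw [hu, hv, h1])
    rw [← hv, ← h2, hu]
    exact hn.1
  have hcomm : ∀ y ∈ WW, e * y * e⁻¹ * y⁻¹ ∈ WW := fun y hy =>
    WW.mul_mem (hWn.conj_mem y hy e) (WW.inv_mem hy)
  have hinner : ∀ (y : EE) (g : F2), y ∈ WW → Theta y = MulAut.conj g →
      e * y * e⁻¹ * y⁻¹ ∈ N := by
    intro y g hy hg
    refine key _ (Theta e g * g⁻¹) (hcomm y hy) (hKK0 (he g)) ?_
    rw [map_mul, map_mul, map_mul, map_inv, map_inv, hg, conj_apply_comm, map_mul, map_inv]
    group
  refine ⟨?_, hinner es _ es_mem Theta_s, hinner et _ et_mem Theta_t⟩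
  obtain ⟨k, hk⟩ := Theta_Siota e
  have hk1 : MulAut.conj k ∈ trivMod K := by
    have h1 : MulAut.conj k = Theta e * (iota * (Theta e)⁻¹ * iota⁻¹) := by
      rw [← mul_assoc, ← mul_assoc, hk]
      group
    rw [h1]
    exact (trivMod K).mul_mem he ((trivMod_normal hKc).conj_mem _ ((trivMod K).inv_mem he) _)
  have hk2 : k ∈ K₀ := by
    apply hM'
    · exact hK (hk1 (of 0))
    · exact hK (hk1 (of 1))
  refine key _ (Theta e (of 0 * of 1) * k * (of 0 * of 1)⁻¹) (hcomm ex ex_mem) ?_ ?_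
  · have h1 := K₀.mul_mem (hKK0 (he (of 0 * of 1))) (hK0n.conj_mem k hk2 (of 0 * of 1))
    have h2 : Theta e (of 0 * of 1) * (of 0 * of 1)⁻¹ * (of 0 * of 1 * k * (of 0 * of 1)⁻¹) =
      Theta e (of 0 * of 1) * k * (of 0 * of 1)⁻¹ := by group
    rwa [h2] at h1
  · rw [map_mul, map_mul, map_mul, map_inv, map_inv, Theta_x]
    have h3 : Theta e * gx = MulAut.conj (Theta e (of 0 * of 1)) * MulAut.conj k * iota * Theta e := by
      rw [gx, ← mul_assoc, conj_apply_comm, mul_assoc, hk]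
      simp only [mul_assoc]
    rw [h3, gx, map_mul MulAut.conj (Theta e (of 0 * of 1) * k) (of 0 * of 1)⁻¹,
      map_mul MulAut.conj (Theta e (of 0 * of 1)) k, map_inv MulAut.conj (of 0 * of 1)]
    group

/-- Elements of the split extension acting trivially modulo a deep characteristic subgroup lie in a
given subgroup of finite index. -/
theorem TTwo (N : Subgroup EE) (hf : N.FiniteIndex) :
    ∃ K : Subgroup F2, K.Characteristic ∧ K.FiniteIndex ∧ ∀ e : EE, Theta e ∈ trivMod K →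
      e ∈ N := by
  obtain ⟨N', hn', hf', h'⟩ := E_cs N.normalCore inferInstance inferInstance
  obtain ⟨K, hc, hKf, hK⟩ := TOne N' hn' hf'
  refine ⟨K, hc, hKf, fun e he => ?_⟩
  obtain ⟨h1, h2, h3⟩ := hK e he
  exact Subgroup.normalCore_le N (h' e h1 h2 h3)

end

end Pool.MP_59b15d_al.H76
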