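import Mathlib
import Pool.Agent.H.MP_59b15d_al.h76m.He

set_option autoImplicit false

namespace Pool.MP_59b15d_al.H76

section


open FreeGroup (of)

/-- Coset enumeration for a group generated by `u, v` and a subgroup `Q`, with the relations of the
symmetric group of degree three modulo `Q`. -/
theorem s3_cosets {G : Type*} [Group G] (Q : Subgroup G) (u v : G)
    (hu : ∀ q ∈ Q, u * q * u⁻¹ ∈ Q) (hv : ∀ q ∈ Q, v * q * v⁻¹ ∈ Q) (u2 : u * u ∈ Q)
    (v2 : v * v ∈ Q) (br : (u * v * u)⁻¹ * (v * u * v) ∈ Q) (f : G)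
    (hf : f ∈ Subgroup.closure ({u, v} ∪ (Q : Set G))) :
    ∃ g ∈ ({1, u, v, u * v, v * u, u * v * u} : Set G), g⁻¹ * f ∈ Q := by
  have nu : ∀ q ∈ Q, u⁻¹ * q * u ∈ Q := by
    intro q hq
    have h := Q.mul_mem (Q.mul_mem (Q.inv_mem u2) (hu q hq)) u2
    have e : (u * u)⁻¹ * (u * q * u⁻¹) * (u * u) = u⁻¹ * q * u := by group
    rwa [e] at h
  have nv : ∀ q ∈ Q, v⁻¹ * q * v ∈ Q := by
    intro q hq
    have h := Q.mul_mem (Q.mul_mem (Q.inv_mem v2) (hv q hq)) v2
    have e : (v * v)⁻¹ * (v * q * v⁻¹) * (v * v) = v⁻¹ * q * v := by group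
    rwa [e] at h
  have nmul : ∀ g h : G, (∀ q ∈ Q, g⁻¹ * q * g ∈ Q) → (∀ q ∈ Q, h⁻¹ * q * h ∈ Q) →
      ∀ q ∈ Q, (g * h)⁻¹ * q * (g * h) ∈ Q := by
    intro g h hg hh q hq
    have h1 := hh _ (hg q hq)
    have e : h⁻¹ * (g⁻¹ * q * g) * h = (g * h)⁻¹ * q * (g * h) := by group
    rwa [e] at h1
  have nL : ∀ g ∈ ({1, u, v, u * v, v * u, u * v * u} : Set G), ∀ q ∈ Q, g⁻¹ * q * g ∈ Q := by
    rintro g (rfl | rfl | rfl | rfl | rfl | rfl)
    · intro q hq; simpa using hq
    · exact nu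
    · exact nv
    · exact nmul _ _ nu nv
    · exact nmul _ _ nv nu
    · exact nmul _ _ (nmul _ _ nu nv) nu
  -- the cases
  have cQ : ∀ x ∈ Q, ∀ f : G, (∃ g ∈ ({1, u, v, u * v, v * u, u * v * u} : Set G), g⁻¹ * f ∈ Q) →
      ∃ g ∈ ({1, u, v, u * v, v * u, u * v * u} : Set G), g⁻¹ * (x * f) ∈ Q := by
    rintro x hx f ⟨g, hg, hgf⟩
    refine ⟨g, hg, ?_⟩
    have h := Q.mul_mem (nL g hg x hx) hgf
    have e : g⁻¹ * x * g * (g⁻¹ * f) = g⁻¹ * (x * f) := by group
    rwa [e] at h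
  have step : ∀ (x g g' f : G), g'⁻¹ * x * g ∈ Q → g⁻¹ * f ∈ Q → g'⁻¹ * (x * f) ∈ Q := by
    intro x g g' f h1 h2
    have h := Q.mul_mem h1 h2
    have e : g'⁻¹ * x * g * (g⁻¹ * f) = g'⁻¹ * (x * f) := by group
    rwa [e] at h
  have cu : ∀ f : G, (∃ g ∈ ({1, u, v, u * v, v * u, u * v * u} : Set G), g⁻¹ * f ∈ Q) →
      ∃ g ∈ ({1, u, v, u * v, v * u, u * v * u} : Set G), g⁻¹ * (u * f) ∈ Q := by
    rintro f ⟨g, (rfl | rfl | rfl | rfl | rfl | rfl), hgf⟩
    · exact ⟨u, by simp, step u _ _ f (by simp [Q.one_mem]) hgf⟩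
    · exact ⟨1, by simp, step g _ _ f (by simpa using u2) hgf⟩
    · exact ⟨u * g, by simp, step u _ _ f (by simp [Q.one_mem]) hgf⟩
    · refine ⟨v, by simp, step u _ _ f ?_ hgf⟩
      have := nv _ u2
      have e : v⁻¹ * (u * u) * v = v⁻¹ * u * (u * v) := by group
      rwa [e] at this
    · refine ⟨u * v * u, by simp, step u _ _ f ?_ hgf⟩
      have e : (u * v * u)⁻¹ * u * (v * u) = 1 := by group
      rw [e]; exact Q.one_mem
    · refine ⟨v * u, by simp, step u _ _ f ?_ hgf⟩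
      have := nL (v * u) (by simp) _ u2
      have e : (v * u)⁻¹ * (u * u) * (v * u) = (v * u)⁻¹ * u * (u * v * u) := by group
      rwa [e] at this
  have cv : ∀ f : G, (∃ g ∈ ({1, u, v, u * v, v * u, u * v * u} : Set G), g⁻¹ * f ∈ Q) →
      ∃ g ∈ ({1, u, v, u * v, v * u, u * v * u} : Set G), g⁻¹ * (v * f) ∈ Q := by
    rintro f ⟨g, (rfl | rfl | rfl | rfl | rfl | rfl), hgf⟩
    · exact ⟨v, by simp, step v _ _ f (by simp [Q.one_mem]) hgf⟩
    · exact ⟨v * g, by simp, step v _ _ f (by simp [Q.one_mem]) hgf⟩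
    · exact ⟨1, by simp, step g _ _ f (by simpa using v2) hgf⟩
    · refine ⟨u * v * u, by simp, step v _ _ f ?_ hgf⟩
      have e : (u * v * u)⁻¹ * v * (u * v) = (u * v * u)⁻¹ * (v * u * v) := by group
      rwa [e]
    · refine ⟨u, by simp, step v _ _ f ?_ hgf⟩
      have := nu _ v2
      have e : u⁻¹ * (v * v) * u = u⁻¹ * v * (v * u) := by group
      rwa [e] at this
    · refine ⟨u * v, by simp, step v _ _ f ?_ hgf⟩
      have := Q.mul_mem (hu _ br) u2
      have e : u * ((u * v * u)⁻¹ * (v * u * v)) * u⁻¹ * (u * u) =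
          (u * v)⁻¹ * v * (u * v * u) := by group
      rwa [e] at this
  refine Subgroup.closure_induction_left (p := fun f _ =>
    ∃ g ∈ ({1, u, v, u * v, v * u, u * v * u} : Set G), g⁻¹ * f ∈ Q) ?_ ?_ ?_ hf
  · exact ⟨1, by simp, by simp [Q.one_mem]⟩
  · rintro x ((rfl | rfl) | hx) y _ ih
    · exact cu y ih
    · exact cv y ih
    · exact cQ x hx y ih
  · rintro x ((rfl | rfl) | hx) y _ ih
    · have h := cQ _ (Q.inv_mem u2) _ (cu y ih)
      have e : (x * x)⁻¹ * (x * y) = x⁻¹ * y := by group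
      rwa [e] at h
    · have h := cQ _ (Q.inv_mem v2) _ (cv y ih)
      have e : (x * x)⁻¹ * (x * y) = x⁻¹ * y := by group
      rwa [e] at h
    · exact cQ _ (Q.inv_mem hx) y ih

end

section


open FreeGroup (of)

/-- The twist `b ↦ ba`. -/
def al : MulAut F2 := mkAut ![of 0, of 1 * of 0] ![of 0, of 1 * (of 0)⁻¹]
  (by intro i; fin_cases i <;> simp) (by intro i; fin_cases i <;> simp)

/-- The twist `a ↦ ab`. -/
def be : MulAut F2 := mkAut ![of 0 * of 1, of 1] ![of 0 * (of 1)⁻¹, of 1]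
  (by intro i; fin_cases i <;> simp) (by intro i; fin_cases i <;> simp)

@[simp] theorem al_a : al (of 0) = of 0 := mkAut_of _ _ _ _ 0
@[simp] theorem al_b : al (of 1) = of 1 * of 0 := mkAut_of _ _ _ _ 1
@[simp] theorem be_a : be (of 0) = of 0 * of 1 := mkAut_of _ _ _ _ 0
@[simp] theorem be_b : be (of 1) = of 1 := mkAut_of _ _ _ _ 1
@[simp] theorem al_inv_a : MulEquiv.symm al (of 0) = of 0 := mkAut_inv_of _ _ _ _ 0
@[simp] theorem al_inv_b : MulEquiv.symm al (of 1) = of 1 * (of 0)⁻¹ := mkAut_inv_of _ _ _ _ 1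
@[simp] theorem be_inv_a : MulEquiv.symm be (of 0) = of 0 * (of 1)⁻¹ := mkAut_inv_of _ _ _ _ 0
@[simp] theorem be_inv_b : MulEquiv.symm be (of 1) = of 1 := mkAut_inv_of _ _ _ _ 1

/-- The generators of the subgroup `QQ`. -/
def Qgen : Set (MulAut F2) := Set.range (MulAut.conj : F2 → MulAut F2) ∪ {iota, XX, YY}

/-- The group generated by inner automorphisms, the involution, `XX` and `YY`. -/
def QQ : Subgroup (MulAut F2) := Subgroup.closure Qgen

theorem conj_QQ (g : F2) : MulAut.conj g ∈ QQ := Subgroup.subset_closure (Or.inl ⟨g, rfl⟩)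
theorem iota_QQ : iota ∈ QQ := Subgroup.subset_closure (Or.inr (by simp))
theorem XX_QQ : XX ∈ QQ := Subgroup.subset_closure (Or.inr (by simp))
theorem YY_QQ : YY ∈ QQ := Subgroup.subset_closure (Or.inr (by simp))

theorem QQ_norm_of (u : MulAut F2) (h1 : u * iota * u⁻¹ ∈ QQ) (h2 : u * XX * u⁻¹ ∈ QQ)
    (h3 : u * YY * u⁻¹ ∈ QQ) : ∀ q ∈ QQ, u * q * u⁻¹ ∈ QQ := by
  have h : QQ ≤ QQ.comap (MulAut.conj u).toMonoidHom := by
    rw [QQ, Subgroup.closure_le]
    rintro x (⟨g, rfl⟩ | (rfl | rfl | rfl))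
    · change u * MulAut.conj g * u⁻¹ ∈ QQ
      rw [conj_apply_comm, mul_inv_cancel_right]
      exact conj_QQ _
    · exact h1
    · exact h2
    · exact h3
  exact fun q hq => h hq

theorem al_iota : al * iota * al⁻¹ = MulAut.conj (of 0)⁻¹ * iota := by
  apply aut_ext2 <;> simp [MulAut.mul_apply, MulAut.conj_apply, mul_assoc]
theorem be_iota : be * iota * be⁻¹ = MulAut.conj (of 1)⁻¹ * iota := by
  apply aut_ext2 <;> simp [MulAut.mul_apply, MulAut.conj_apply, mul_assoc]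
theorem al_XX : al * XX * al⁻¹ = XX := by
  apply aut_ext2 <;> simp [MulAut.mul_apply, mul_assoc]
theorem be_YY : be * YY * be⁻¹ = YY := by
  apply aut_ext2 <;> simp [MulAut.mul_apply, mul_assoc]
theorem al_YY : al * YY * al⁻¹ = MulAut.conj ((of 1)⁻¹ * (of 0)⁻¹ * (of 1)⁻¹ * (of 1)⁻¹) * iota *
    YY⁻¹ * XX⁻¹ := by
  apply aut_ext2 <;> simp [MulAut.mul_apply, MulAut.conj_apply, mul_assoc]
theorem be_XX : be * XX * be⁻¹ = MulAut.conj (of 0 * (of 1)⁻¹) * iota * YY⁻¹ * XX⁻¹ := by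
  apply aut_ext2 <;> simp [MulAut.mul_apply, MulAut.conj_apply, mul_assoc]
theorem al_sq : al * al = (MulAut.conj (of 0 * of 0))⁻¹ * XX := by
  apply aut_ext2 <;> simp [MulAut.mul_apply, MulAut.conj_apply, mul_assoc]
theorem be_sq : be * be = YY⁻¹ := by
  apply aut_ext2 <;> simp [MulAut.mul_apply, mul_assoc]
theorem braid : al * be⁻¹ * al = be⁻¹ * al * be⁻¹ := by
  apply aut_ext2 <;> simp [MulAut.mul_apply, mul_assoc]

theorem al_norm : ∀ q ∈ QQ, al * q * al⁻¹ ∈ QQ := by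
  apply QQ_norm_of
  · rw [al_iota]; exact QQ.mul_mem (conj_QQ _) iota_QQ
  · rw [al_XX]; exact XX_QQ
  · rw [al_YY]
    exact QQ.mul_mem (QQ.mul_mem (QQ.mul_mem (conj_QQ _) iota_QQ) (QQ.inv_mem YY_QQ))
      (QQ.inv_mem XX_QQ)

theorem be_norm : ∀ q ∈ QQ, be * q * be⁻¹ ∈ QQ := by
  apply QQ_norm_of
  · rw [be_iota]; exact QQ.mul_mem (conj_QQ _) iota_QQ
  · rw [be_XX]
    exact QQ.mul_mem (QQ.mul_mem (QQ.mul_mem (conj_QQ _) iota_QQ) (QQ.inv_mem YY_QQ))
      (QQ.inv_mem XX_QQ)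
  · rw [be_YY]; exact YY_QQ

theorem al_sq_mem : al * al ∈ QQ := by
  rw [al_sq]; exact QQ.mul_mem (QQ.inv_mem (conj_QQ _)) XX_QQ

theorem be_sq_mem : be * be ∈ QQ := by
  rw [be_sq]; exact QQ.inv_mem YY_QQ

theorem br_mem : (al * be * al)⁻¹ * (be * al * be) ∈ QQ := by
  have nal : ∀ q ∈ QQ, al⁻¹ * q * al ∈ QQ := by
    intro q hq
    have h := QQ.mul_mem (QQ.mul_mem (QQ.inv_mem al_sq_mem) (al_norm q hq)) al_sq_mem
    have e : (al * al)⁻¹ * (al * q * al⁻¹) * (al * al) = al⁻¹ * q * al := by group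
    rwa [e] at h
  have nbe : ∀ q ∈ QQ, be⁻¹ * q * be ∈ QQ := by
    intro q hq
    have h := QQ.mul_mem (QQ.mul_mem (QQ.inv_mem be_sq_mem) (be_norm q hq)) be_sq_mem
    have e : (be * be)⁻¹ * (be * q * be⁻¹) * (be * be) = be⁻¹ * q * be := by group
    rwa [e] at h
  -- be al be = be² (be⁻¹ al be⁻¹) be² = be² al be⁻¹ al be²
  have e1 : be * al * be = (be * be) * (al * be⁻¹ * al) * (be * be) := by
    rw [braid]; group
  have e2 : (al * be * al)⁻¹ * (be * al * be) =
      (al⁻¹ * (be⁻¹ * (al⁻¹ * (be * be) * al) * be * (be * be)⁻¹) * al) * (be * be) := by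
    rw [e1]; group
  rw [e2]
  exact QQ.mul_mem (nal _ (QQ.mul_mem (nbe _ (nal _ be_sq_mem)) (QQ.inv_mem be_sq_mem))) be_sq_mem

/-- The words in `XX` and `YY`. -/
def VV : F2 →* MulAut F2 := FreeGroup.lift ![XX, YY]

theorem VV_0 : VV (of 0) = XX := by simp [VV]
theorem VV_1 : VV (of 1) = YY := by simp [VV]

theorem VV_mem {S : Subgroup (MulAut F2)} (hX : XX ∈ S) (hY : YY ∈ S) (u : F2) : VV u ∈ S := by
  induction u using FreeGroup.induction_on with
  | C1 => rw [map_one]; exact S.one_mem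
  | of i =>
    fin_cases i
    · change VV (of 0) ∈ S
      rwa [VV_0]
    · change VV (of 1) ∈ S
      rwa [VV_1]
  | inv_of i ih => rw [map_inv]; exact S.inv_mem ih
  | mul x y hx hy => rw [map_mul]; exact S.mul_mem hx hy

/-- The normal form of the elements of `QQ`. -/
theorem QQ_form (f : MulAut F2) (hf : f ∈ QQ) :
    ∃ h u : F2, f = MulAut.conj h * VV u ∨ f = MulAut.conj h * iota * VV u := by
  have hii : iota * iota = 1 := by apply aut_ext2 <;> simp
  have hiinv : iota⁻¹ = iota := inv_eq_of_mul_eq_one_left hii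
  -- left multiplication by an element of Siota which is a word in XX and YY
  have step : ∀ (v : F2) (y : MulAut F2),
      (∃ h u : F2, y = MulAut.conj h * VV u ∨ y = MulAut.conj h * iota * VV u) →
      ∃ h u : F2, VV v * y = MulAut.conj h * VV u ∨ VV v * y = MulAut.conj h * iota * VV u := by
    rintro v y ⟨h, u, rfl | rfl⟩
    · refine ⟨VV v h, v * u, Or.inl ?_⟩
      rw [← mul_assoc, conj_apply_comm, map_mul, mul_assoc]
    · obtain ⟨k, hk⟩ := VV_mem XX_Siota YY_Siota v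
      refine ⟨VV v h * k, v * u, Or.inr ?_⟩
      rw [← mul_assoc, ← mul_assoc, conj_apply_comm, mul_assoc (MulAut.conj (VV v h)), hk, map_mul,
        map_mul]
      simp only [mul_assoc]
  have stepi : ∀ (y : MulAut F2),
      (∃ h u : F2, y = MulAut.conj h * VV u ∨ y = MulAut.conj h * iota * VV u) →
      ∃ h u : F2, iota * y = MulAut.conj h * VV u ∨ iota * y = MulAut.conj h * iota * VV u := by
    rintro y ⟨h, u, rfl | rfl⟩
    · refine ⟨iota h, u, Or.inr ?_⟩
      rw [← mul_assoc, conj_apply_comm]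
    · refine ⟨iota h, u, Or.inl ?_⟩
      rw [← mul_assoc, ← mul_assoc, conj_apply_comm, mul_assoc (MulAut.conj (iota h)) iota iota,
        hii, mul_one]
  have stepc : ∀ (g : F2) (y : MulAut F2),
      (∃ h u : F2, y = MulAut.conj h * VV u ∨ y = MulAut.conj h * iota * VV u) →
      ∃ h u : F2, MulAut.conj g * y = MulAut.conj h * VV u ∨
        MulAut.conj g * y = MulAut.conj h * iota * VV u := by
    rintro g y ⟨h, u, rfl | rfl⟩
    · exact ⟨g * h, u, Or.inl (by rw [map_mul, mul_assoc])⟩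
    · exact ⟨g * h, u, Or.inr (by rw [map_mul]; simp only [mul_assoc])⟩
  refine Subgroup.closure_induction_left (p := fun f _ =>
    ∃ h u : F2, f = MulAut.conj h * VV u ∨ f = MulAut.conj h * iota * VV u) ?_ ?_ ?_ hf
  · exact ⟨1, 1, Or.inl (by rw [map_one, map_one, one_mul])⟩
  · rintro x (⟨g, rfl⟩ | (rfl | rfl | rfl)) y _ ih
    · exact stepc g y ih
    · exact stepi y ih
    · rw [← VV_0]; exact step _ y ih
    · rw [← VV_1]; exact step _ y ih
  · rintro x (⟨g, rfl⟩ | (rfl | rfl | rfl)) y _ ih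
    · rw [← map_inv]; exact stepc _ y ih
    · rw [hiinv]; exact stepi y ih
    · rw [← VV_0, ← map_inv]; exact step _ y ih
    · rw [← VV_1, ← map_inv]; exact step _ y ih

end

section


open FreeGroup (of)

/-- The action on the abelianisation. -/
theorem xy_formula (R : Type*) [CommRing R] (f : MulAut F2) (g : F2) :
    (toHeis R (f g)).x = (toHeis R (f (of 0))).x * (toHeis R g).x +
      (toHeis R (f (of 1))).x * (toHeis R g).y ∧
    (toHeis R (f g)).y = (toHeis R (f (of 0))).y * (toHeis R g).x +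
      (toHeis R (f (of 1))).y * (toHeis R g).y := by
  induction g using FreeGroup.induction_on with
  | C1 => simp
  | of i =>
    fin_cases i
    · change (toHeis R (f (of 0))).x = (toHeis R (f (of 0))).x * (toHeis R (of 0)).x +
        (toHeis R (f (of 1))).x * (toHeis R (of 0)).y ∧ (toHeis R (f (of 0))).y =
        (toHeis R (f (of 0))).y * (toHeis R (of 0)).x + (toHeis R (f (of 1))).y * (toHeis R (of 0)).y
      have := toHeis_a R
      rw [this]; simp
    · change (toHeis R (f (of 1))).x = (toHeis R (f (of 0))).x * (toHeis R (of 1)).x +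
        (toHeis R (f (of 1))).x * (toHeis R (of 1)).y ∧ (toHeis R (f (of 1))).y =
        (toHeis R (f (of 0))).y * (toHeis R (of 1)).x + (toHeis R (f (of 1))).y * (toHeis R (of 1)).y
      have := toHeis_b R
      rw [this]; simp
  | inv_of i ih =>
    obtain ⟨h1, h2⟩ := ih
    rw [map_inv, map_inv, map_inv]
    simp only [Heis.inv_x, Heis.inv_y, h1, h2]
    constructor <;> ring
  | mul a b ha hb =>
    obtain ⟨h1, h2⟩ := ha
    obtain ⟨h3, h4⟩ := hb
    rw [map_mul, map_mul, map_mul]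
    simp only [Heis.mul_x, Heis.mul_y, h1, h2, h3, h4]
    constructor <;> ring

/-- The coordinates come from integers. -/
theorem toHeis_cast (R : Type*) [CommRing R] (g : F2) :
    (toHeis R g).x = (((toHeis ℤ g).x : ℤ) : R) ∧ (toHeis R g).y = (((toHeis ℤ g).y : ℤ) : R) := by
  induction g using FreeGroup.induction_on with
  | C1 => simp
  | of i =>
    fin_cases i
    · change (toHeis R (of 0)).x = (((toHeis ℤ (of 0)).x : ℤ) : R) ∧
        (toHeis R (of 0)).y = (((toHeis ℤ (of 0)).y : ℤ) : R)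
      rw [toHeis_a R, toHeis_a ℤ]; simp
    · change (toHeis R (of 1)).x = (((toHeis ℤ (of 1)).x : ℤ) : R) ∧
        (toHeis R (of 1)).y = (((toHeis ℤ (of 1)).y : ℤ) : R)
      rw [toHeis_b R, toHeis_b ℤ]; simp
  | inv_of i ih =>
    obtain ⟨h1, h2⟩ := ih
    rw [map_inv, map_inv]
    simp only [Heis.inv_x, Heis.inv_y, h1, h2]
    push_cast
    exact ⟨rfl, rfl⟩
  | mul a b ha hb =>
    obtain ⟨h1, h2⟩ := ha
    obtain ⟨h3, h4⟩ := hb
    rw [map_mul, map_mul]
    simp only [Heis.mul_x, Heis.mul_y, h1, h2, h3, h4]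
    push_cast
    exact ⟨rfl, rfl⟩

theorem conj_xy (R : Type*) [CommRing R] (h g : F2) :
    (toHeis R (MulAut.conj h g)).x = (toHeis R g).x ∧ (toHeis R (MulAut.conj h g)).y = (toHeis R g).y := by
  rw [MulAut.conj_apply, map_mul, map_mul, map_inv]
  constructor
  · simp only [Heis.mul_x, Heis.inv_x]; ring
  · simp only [Heis.mul_y, Heis.inv_y]; ring

theorem iota_xy (R : Type*) [CommRing R] (g : F2) :
    (toHeis R (iota g)).x = -(toHeis R g).x ∧ (toHeis R (iota g)).y = -(toHeis R g).y := by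
  obtain ⟨h1, h2⟩ := xy_formula R iota g
  rw [iota_a, iota_b, map_inv, map_inv] at h1 h2
  have ha := toHeis_a R
  have hb := toHeis_b R
  rw [ha, hb] at h1 h2
  simp only [Heis.inv_x, Heis.inv_y] at h1 h2
  rw [h1, h2]
  constructor <;> ring

/-- Automorphisms acting trivially on the homology modulo two. -/
def E2 : Subgroup (MulAut F2) where
  carrier := {f | ∀ g : F2, (toHeis (ZMod 2) (f g)).x = (toHeis (ZMod 2) g).x ∧
    (toHeis (ZMod 2) (f g)).y = (toHeis (ZMod 2) g).y}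
  one_mem' := fun g => ⟨rfl, rfl⟩
  mul_mem' := by
    intro a b ha hb g
    rw [MulAut.mul_apply]
    exact ⟨(ha _).1.trans (hb _).1, (ha _).2.trans (hb _).2⟩
  inv_mem' := by
    intro a ha g
    have h := ha (a⁻¹ g)
    rw [MulAut.apply_inv_self] at h
    exact ⟨h.1.symm, h.2.symm⟩

theorem E2_of (f : MulAut F2) (h0 : (toHeis (ZMod 2) (f (of 0))).x = 1)
    (h1 : (toHeis (ZMod 2) (f (of 0))).y = 0) (h2 : (toHeis (ZMod 2) (f (of 1))).x = 0)
    (h3 : (toHeis (ZMod 2) (f (of 1))).y = 1) : f ∈ E2 := by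
  intro g
  obtain ⟨h5, h6⟩ := xy_formula (ZMod 2) f g
  rw [h5, h6, h0, h1, h2, h3]
  constructor <;> ring

theorem mul_xy (R : Type*) [CommRing R] (g h : F2) :
    (toHeis R (g * h)).x = (toHeis R g).x + (toHeis R h).x ∧
    (toHeis R (g * h)).y = (toHeis R g).y + (toHeis R h).y := by
  rw [map_mul]; exact ⟨rfl, rfl⟩

theorem inv_xy (R : Type*) [CommRing R] (g : F2) :
    (toHeis R g⁻¹).x = -(toHeis R g).x ∧ (toHeis R g⁻¹).y = -(toHeis R g).y := by
  rw [map_inv]; exact ⟨rfl, rfl⟩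

theorem of0_xy (R : Type*) [CommRing R] :
    (toHeis R (of 0)).x = 1 ∧ (toHeis R (of 0)).y = 0 := by
  have := toHeis_a R
  rw [this]; exact ⟨rfl, rfl⟩

theorem of1_xy (R : Type*) [CommRing R] :
    (toHeis R (of 1)).x = 0 ∧ (toHeis R (of 1)).y = 1 := by
  have := toHeis_b R
  rw [this]; exact ⟨rfl, rfl⟩

theorem QQ_E2 : QQ ≤ E2 := by
  rw [QQ, Subgroup.closure_le]
  rintro x (⟨g, rfl⟩ | (rfl | rfl | rfl))
  · exact fun h => conj_xy _ _ _
  · intro g
    obtain ⟨h1, h2⟩ := iota_xy (ZMod 2) g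
    rw [h1, h2]
    exact ⟨ZMod.neg_eq_self_mod_two _, ZMod.neg_eq_self_mod_two _⟩
  · apply E2_of <;> simp only [XX_a, XX_b, mul_xy, of0_xy, of1_xy] <;> decide
  · apply E2_of <;> simp only [YY_a, YY_b, mul_xy, inv_xy, of0_xy, of1_xy] <;> decide

/-- Automorphisms acting on the homology modulo four by matrices with off-diagonal entries even and
diagonal entries one. -/
def P4 : Subgroup (MulAut F2) where
  carrier := {f | ∃ t s : ZMod 4, ∀ g : F2,
    (toHeis (ZMod 4) (f g)).x = (toHeis (ZMod 4) g).x + 2 * t * (toHeis (ZMod 4) g).y ∧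
    (toHeis (ZMod 4) (f g)).y = (toHeis (ZMod 4) g).y + 2 * s * (toHeis (ZMod 4) g).x}
  one_mem' := ⟨0, 0, fun g => by simp⟩
  mul_mem' := by
    rintro a b ⟨t, s, h⟩ ⟨t', s', h'⟩
    have h4 : (4 : ZMod 4) = 0 := by decide
    refine ⟨t + t', s + s', fun g => ?_⟩
    rw [MulAut.mul_apply]
    obtain ⟨h1, h2⟩ := h (b g)
    obtain ⟨h3, h5⟩ := h' g
    rw [h1, h2, h3, h5]
    constructor
    · linear_combination (t * s' * (toHeis (ZMod 4) g).x) * h4
    · linear_combination (s * t' * (toHeis (ZMod 4) g).y) * h4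
  inv_mem' := by
    rintro a ⟨t, s, h⟩
    have h4 : (4 : ZMod 4) = 0 := by decide
    refine ⟨-t, -s, fun g => ?_⟩
    obtain ⟨h1, h2⟩ := h (a⁻¹ g)
    rw [MulAut.apply_inv_self] at h1 h2
    constructor
    · linear_combination -h1 + 2 * t * h2 + (t * s * (toHeis (ZMod 4) (a⁻¹ g)).x) * h4
    · linear_combination -h2 + 2 * s * h1 + (t * s * (toHeis (ZMod 4) (a⁻¹ g)).y) * h4

theorem XX_P4 : XX ∈ P4 := by
  refine ⟨1, 0, fun g => ?_⟩
  obtain ⟨h1, h2⟩ := xy_formula (ZMod 4) XX g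
  rw [h1, h2]
  simp only [XX_a, XX_b, mul_xy, of0_xy, of1_xy]
  constructor <;> ring

theorem YY_P4 : YY ∈ P4 := by
  refine ⟨0, -1, fun g => ?_⟩
  obtain ⟨h1, h2⟩ := xy_formula (ZMod 4) YY g
  rw [h1, h2]
  simp only [YY_a, YY_b, mul_xy, inv_xy, of0_xy, of1_xy]
  constructor <;> ring

/-- The automorphism commuting with `XX` and `YY`. -/
def zz : MulAut F2 := MulAut.conj (of 0 * (of 1)⁻¹) * iota

theorem zz_XX : XX * zz = zz * XX := by
  apply aut_ext2 <;> simp [zz, MulAut.mul_apply, MulAut.conj_apply, mul_assoc]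
theorem zz_YY : YY * zz = zz * YY := by
  apply aut_ext2 <;> simp [zz, MulAut.mul_apply, MulAut.conj_apply, mul_assoc]

theorem zz_VV (u : F2) : VV u * zz = zz * VV u := by
  have h : VV u ∈ Subgroup.centralizer {zz} := by
    apply VV_mem
    · rw [Subgroup.mem_centralizer_singleton_iff]; exact zz_XX
    · rw [Subgroup.mem_centralizer_singleton_iff]; exact zz_YY
  rw [Subgroup.mem_centralizer_singleton_iff] at h
  exact h

/-- The group generated by the twists and the inner automorphisms. -/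
def PhiI : Subgroup (MulAut F2) :=
  Subgroup.closure ({al, be} ∪ (QQ : Set (MulAut F2)))

theorem PhiI_QQ (f : MulAut F2) (hf : f ∈ PhiI) (h2 : f ∈ E2) : f ∈ QQ := by
  obtain ⟨g, hg, hgf⟩ := s3_cosets QQ al be al_norm be_norm al_sq_mem be_sq_mem br_mem f hf
  have hgE : g ∈ E2 := by
    have h3 := E2.mul_mem h2 (E2.inv_mem (QQ_E2 hgf))
    have e : f * (g⁻¹ * f)⁻¹ = g := by group
    rwa [e] at h3
  rcases hg with (rfl | rfl | rfl | rfl | rfl | rfl)
  · simpa using hgf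
  · exfalso
    have h := (hgE (of 1)).1
    simp only [al_b, mul_xy, of0_xy, of1_xy] at h
    revert h; decide
  · exfalso
    have h := (hgE (of 0)).2
    simp only [be_a, mul_xy, of0_xy, of1_xy] at h
    revert h; decide
  · exfalso
    have h := (hgE (of 0)).2
    simp only [MulAut.mul_apply, be_a, al_a, al_b, map_mul al, mul_xy, of0_xy, of1_xy] at h
    revert h; decide
  · exfalso
    have h := (hgE (of 1)).1
    simp only [MulAut.mul_apply, al_b, be_a, be_b, map_mul be, mul_xy, of0_xy, of1_xy] at h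
    revert h; decide
  · exfalso
    have h := (hgE (of 1)).1
    simp only [MulAut.mul_apply, al_b, be_a, be_b, al_a, map_mul be, map_mul al, mul_xy, of0_xy,
      of1_xy] at h
    revert h; decide

/-- The congruence subgroup property for the free group of rank two, in the form needed here. -/
theorem AFPhi (D : Subgroup (MulAut F2)) (hI : ∀ x : F2, MulAut.conj x ∈ D)
    (hf : (D.comap Theta).FiniteIndex) :
    ∃ K : Subgroup F2, K.Characteristic ∧ K.FiniteIndex ∧ ∀ f ∈ PhiI, InnMod K f → f ∈ D := by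
  obtain ⟨K₁, hc1, hf1, hK1⟩ := TTwo _ hf
  have hk4 : (toHeis (ZMod 4)).ker.FiniteIndex := Subgroup.finiteIndex_ker _
  have hk2 : (toHeis (ZMod 2)).ker.FiniteIndex := Subgroup.finiteIndex_ker _
  obtain ⟨M', hMn, hMf, hMle, hM⟩ := free_center (0 : Fin 2) 1 (by decide) (toHeis (ZMod 4)).ker
  obtain ⟨K, hc, hKf, hK⟩ := exists_char_le (K₁ ⊓ (M' ⊓ (toHeis (ZMod 2)).ker)) inferInstance
  have hKK1 : K ≤ K₁ := hK.trans inf_le_left
  have hKM : K ≤ M' := hK.trans (inf_le_right.trans inf_le_left)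
  have hK2 : K ≤ (toHeis (ZMod 2)).ker := hK.trans (inf_le_right.trans inf_le_right)
  have hK4 : K ≤ (toHeis (ZMod 4)).ker := hKM.trans hMle
  have hKn : K.Normal := inferInstance
  refine ⟨K, hc, hKf, ?_⟩
  have eqmod : ∀ (R : Type) [CommRing R] (f : MulAut F2), K ≤ (toHeis R).ker → f ∈ trivMod K →
      ∀ g : F2, toHeis R (f g) = toHeis R g := by
    intro R _ f hR hf g
    have h1 := hR (hf g)
    rw [MonoidHom.mem_ker, map_mul, map_inv, mul_inv_eq_one] at h1
    exact h1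
  have key : ∀ f ∈ PhiI, f ∈ trivMod K → f ∈ D := by
    intro f hfP hft
    have hQ : f ∈ QQ := by
      apply PhiI_QQ f hfP
      intro g
      rw [eqmod (ZMod 2) f hK2 hft g]
      exact ⟨rfl, rfl⟩
    obtain ⟨h, u, hfu⟩ := QQ_form f hQ
    obtain ⟨t, s, hts⟩ := VV_mem XX_P4 YY_P4 u
    have hf4 := eqmod (ZMod 4) f hK4 hft (of 0)
    have hfu : f = MulAut.conj h * VV u := by
      rcases hfu with hfu | hfu
      · exact hfu
      · exfalso
        have h1 := congrArg Heis.x hf4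
        rw [hfu, MulAut.mul_apply, MulAut.mul_apply, (conj_xy _ _ _).1, (iota_xy _ _).1, (hts _).1,
          (of0_xy _).1, (of0_xy _).2] at h1
        revert h1
        simp
        decide
    -- commuting with `zz`
    have hk : MulAut.conj (h * (zz h)⁻¹) ∈ trivMod K := by
      have h1 : MulAut.conj (h * (zz h)⁻¹) = f * (zz * f⁻¹ * zz⁻¹) := by
        have h2 : zz * (MulAut.conj h)⁻¹ * zz⁻¹ = (MulAut.conj (zz h))⁻¹ := by
          rw [← map_inv, conj_apply_comm, mul_inv_cancel_right, map_inv, map_inv]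
        have h3 : f * (zz * f⁻¹ * zz⁻¹) = MulAut.conj h * (VV u * zz * (VV u)⁻¹ * zz⁻¹) *
            (zz * (MulAut.conj h)⁻¹ * zz⁻¹) := by
          rw [hfu]; group
        rw [h3, h2, zz_VV, map_mul, map_inv]
        group
      rw [h1]
      exact (trivMod K).mul_mem hft ((trivMod_normal hc).conj_mem _ ((trivMod K).inv_mem hft) _)
    have hk4 : h * (zz h)⁻¹ ∈ (toHeis (ZMod 4)).ker := by
      apply hM
      · exact hKM (hk (of 0))
      · exact hKM (hk (of 1))
    rw [MonoidHom.mem_ker] at hk4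
    have hzx : (toHeis (ZMod 4) (zz h)).x = -(toHeis (ZMod 4) h).x := by
      rw [zz, MulAut.mul_apply, (conj_xy _ _ _).1, (iota_xy _ _).1]
    have hzy : (toHeis (ZMod 4) (zz h)).y = -(toHeis (ZMod 4) h).y := by
      rw [zz, MulAut.mul_apply, (conj_xy _ _ _).2, (iota_xy _ _).2]
    have hx := congrArg Heis.x hk4
    have hy := congrArg Heis.y hk4
    rw [(mul_xy _ _ _).1, (inv_xy _ _).1, hzx] at hx
    rw [(mul_xy _ _ _).2, (inv_xy _ _).2, hzy] at hy
    have even : ∀ m : ℤ, ((m : ℤ) : ZMod 4) - -((m : ℤ) : ZMod 4) = 0 → ((m : ℤ) : ZMod 2) = 0 := by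
      intro m hm
      have h1 : ((2 * m : ℤ) : ZMod 4) = 0 := by push_cast; linear_combination hm
      rw [ZMod.intCast_zmod_eq_zero_iff_dvd] at h1 ⊢
      push_cast at h1 ⊢
      omega
    have hJ : h ∈ JJ := by
      apply JJ_of_even
      · rw [(toHeis_cast _ _).1]
        apply even
        rw [← (toHeis_cast (ZMod 4) _).1]
        simpa using hx
      · rw [(toHeis_cast _ _).2]
        apply even
        rw [← (toHeis_cast (ZMod 4) _).2]
        simpa using hy
    obtain ⟨w, hw, hwh⟩ := hJ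
    have hV : VV u ∈ Theta.range := VV_mem (S := Theta.range) ⟨eX, Theta_X⟩ ⟨eY, Theta_Y⟩ u
    obtain ⟨v, hv⟩ := hV
    have hfe : f = Theta (w * v) := by
      rw [map_mul, hwh, hv, hfu]
    have := hK1 (w * v) (by rw [← hfe]; exact trivMod_mono hKK1 hft)
    rw [Subgroup.mem_comap, ← hfe] at this
    exact this
  intro f hfP hfi
  obtain ⟨g, hg⟩ := (innMod_iff hKn).mp hfi
  have hcP : MulAut.conj g ∈ PhiI := Subgroup.subset_closure (Or.inr (conj_QQ g))
  have h1 := key _ (PhiI.mul_mem (PhiI.inv_mem hcP) hfP) hg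
  have h2 := D.mul_mem (hI g) h1
  rwa [mul_inv_cancel_left] at h2

end

end Pool.MP_59b15d_al.H76
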