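import Mathlib
import Pool.Agent.H.MP_59b15d_al.h76m.Hb
import Pool.Agent.H.MP_59b15d_al.h24t.Surf

set_option autoImplicit false

namespace Pool.MP_59b15d_al.H76

section


open FreeGroup (of)
open Pool.MP_59b15d_al.H24T

/-- The stabiliser of the commutator of the generators. -/
def Fx : Subgroup (MulAut F2) where
  carrier := {f | f gc = gc}
  one_mem' := rfl
  mul_mem' := by
    intro f f' (hf : f gc = gc) (hf' : f' gc = gc)
    change (f * f') gc = gc
    rw [MulAut.mul_apply, hf', hf]
  inv_mem' := by
    intro f (hf : f gc = gc)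
    change f⁻¹ gc = gc
    conv_lhs => rw [← hf]
    rw [MulAut.inv_apply_self]

variable {g : ℕ} {G : Type*} [Group G]

/-- The handle homomorphisms. -/
def jj (a b : Fin g → G) (i : Fin g) : F2 →* G := FreeGroup.lift ![a i, b i]

theorem jj_0 (a b : Fin g → G) (i : Fin g) : jj a b i (of 0) = a i := by simp [jj]
theorem jj_1 (a b : Fin g → G) (i : Fin g) : jj a b i (of 1) = b i := by simp [jj]

theorem jj_gc (a b : Fin g → G) (i : Fin g) :
    jj a b i gc = a i * b i * (a i)⁻¹ * (b i)⁻¹ := by
  rw [gc, map_mul, map_mul, map_mul, map_inv, map_inv, jj_0, jj_1]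

theorem hom_ext_F2 {T : Type*} [Group T] {f f' : F2 →* T} (h0 : f (of 0) = f' (of 0))
    (h1 : f (of 1) = f' (of 1)) (x : F2) : f x = f' x := by
  have h : f = f' := by
    ext i
    fin_cases i
    · exact h0
    · exact h1
  rw [h]

theorem hom_ext_surf {a b : Fin g → G} (h : IsSurf a b) {T : Type*} [Group T] {F F' : G →* T}
    (hF : ∀ i x, F (jj a b i x) = F' (jj a b i x)) : F = F' := by
  refine MonoidHom.eq_of_eqOn_dense h.closure_eq ?_
  rintro _ (⟨i, rfl⟩ | ⟨i, rfl⟩)
  · have := hF i (of 0)
    rwa [jj_0] at this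
  · have := hF i (of 1)
    rwa [jj_1] at this

theorem exists_hw {a b : Fin g → G} (h : IsSurf a b) (f : Fin g → Fx) :
    ∃ F : G →* G, ∀ i x, F (jj a b i x) = jj a b i ((f i : MulAut F2) x) := by
  obtain ⟨F, hF1, hF2⟩ := h.lift (fun i => jj a b i ((f i : MulAut F2) (of 0)))
    (fun i => jj a b i ((f i : MulAut F2) (of 1))) (by
      have e : relWord (fun i => jj a b i ((f i : MulAut F2) (of 0)))
          (fun i => jj a b i ((f i : MulAut F2) (of 1))) = relWord a b := by
        unfold relWord
        congr 2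
        funext i
        have h1 : jj a b i ((f i : MulAut F2) gc) = jj a b i gc := by
          rw [show (f i : MulAut F2) gc = gc from (f i).2]
        rw [jj_gc] at h1
        rw [← h1, gc]
        simp only [map_mul, map_inv]
      rw [e]; exact h.relWord_eq)
  refine ⟨F, fun i x => ?_⟩
  refine hom_ext_F2 (f := F.comp (jj a b i)) (f' := (jj a b i).comp (f i : MulAut F2).toMonoidHom)
    ?_ ?_ x
  · change F (jj a b i (of 0)) = jj a b i ((f i : MulAut F2) (of 0))
    rw [jj_0, hF1]
  · change F (jj a b i (of 1)) = jj a b i ((f i : MulAut F2) (of 1))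
    rw [jj_1, hF2]

/-- The automorphisms of the surface group acting handle by handle. -/
noncomputable def EF {a b : Fin g → G} (h : IsSurf a b) : (Fin g → Fx) →* MulAut G where
  toFun := fun f => MonoidHom.toMulEquiv (exists_hw h f).choose (exists_hw h f⁻¹).choose
    (by
      apply hom_ext_surf h
      intro i x
      rw [MonoidHom.comp_apply, (exists_hw h f).choose_spec, (exists_hw h f⁻¹).choose_spec,
        MonoidHom.id_apply]
      congr 1
      exact MulAut.inv_apply_self _ _ x)
    (by
      apply hom_ext_surf h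
      intro i x
      rw [MonoidHom.comp_apply, (exists_hw h f⁻¹).choose_spec, (exists_hw h f).choose_spec,
        MonoidHom.id_apply]
      congr 1
      exact MulAut.apply_inv_self _ _ x)
  map_one' := by
    apply MulEquiv.toMonoidHom_injective
    apply hom_ext_surf h
    intro i x
    exact (exists_hw h 1).choose_spec i x
  map_mul' := by
    intro f f'
    apply MulEquiv.toMonoidHom_injective
    apply hom_ext_surf h
    intro i x
    refine ((exists_hw h (f * f')).choose_spec i x).trans ?_
    change _ = (exists_hw h f).choose ((exists_hw h f').choose (jj a b i x))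
    rw [(exists_hw h f').choose_spec, (exists_hw h f).choose_spec]
    rfl

theorem EF_apply {a b : Fin g → G} (h : IsSurf a b) (f : Fin g → Fx) (i : Fin g) (x : F2) :
    EF h f (jj a b i x) = jj a b i ((f i : MulAut F2) x) :=
  (exists_hw h f).choose_spec i x

theorem aut_ext_surf {a b : Fin g → G} (h : IsSurf a b) {F F' : MulAut G}
    (hF : ∀ i x, F (jj a b i x) = F' (jj a b i x)) : F = F' :=
  MulEquiv.toMonoidHom_injective (hom_ext_surf h hF)

theorem prod_zpow {P : Type*} [Group P] (z : P) (ε : Fin g → ℤ) :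
    (List.ofFn fun i => z ^ ε i).prod = z ^ (∑ i, ε i) := by
  have h1 := map_list_prod (zpowersHom P z) (List.ofFn fun i => Multiplicative.ofAdd (ε i))
  rw [List.map_ofFn, List.prod_ofFn] at h1
  have h2 : (∏ i, Multiplicative.ofAdd (ε i)) = Multiplicative.ofAdd (∑ i, ε i) := by
    rw [ofAdd_sum]
  rw [h2] at h1
  exact h1.symm

/-- A retraction onto the `i`-th handle, killing all handles except `i` and `k`. -/
theorem exists_retr {a b : Fin g → G} (h : IsSurf a b) (i k : Fin g) (hik : i ≠ k) :
    ∃ r : G →* F2, (∀ x, r (jj a b i x) = x) ∧ ∀ j, j ≠ i → j ≠ k → ∀ x, r (jj a b j x) = 1 := by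
  classical
  let s : Fin g → F2 := fun j => if j = i then of 0 else if j = k then of 1 else 1
  let t : Fin g → F2 := fun j => if j = i then of 1 else if j = k then of 0 else 1
  obtain ⟨r, hr1, hr2⟩ := h.lift s t (by
    let ε : Fin g → ℤ := fun j => if j = i then 1 else if j = k then -1 else 0
    have e : relWord s t = (List.ofFn fun j => gc ^ ε j).prod := by
      unfold relWord
      congr 2
      funext j
      by_cases h1 : j = i
      · simp [s, t, ε, h1, gc]
      · by_cases h2 : j = k
        · have h3 : k ≠ i := hik.symm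
          simp [s, t, ε, h2, h3, gc, mul_assoc]
        · simp [s, t, ε, h1, h2]
    rw [e, prod_zpow]
    have hs : ∑ j, ε j = 0 := by
      have h1 : ∀ j, ε j = (if j = i then 1 else 0) - (if j = k then 1 else 0) := by
        intro j
        by_cases h1 : j = i
        · have h2 : j ≠ k := fun h => hik (h1.symm.trans h)
          simp [ε, h1, hik]
        · by_cases h2 : j = k
          · simp [ε, h2, hik.symm]
          · simp [ε, h1, h2]
      rw [Finset.sum_congr rfl (fun j _ => h1 j), Finset.sum_sub_distrib]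
      simp
    rw [hs, zpow_zero])
  refine ⟨r, fun x => ?_, fun j hji hjk x => ?_⟩
  · refine hom_ext_F2 (f := r.comp (jj a b i)) (f' := MonoidHom.id F2) ?_ ?_ x
    · rw [MonoidHom.comp_apply, jj_0, hr1]; simp [s]
    · rw [MonoidHom.comp_apply, jj_1, hr2]; simp [t]
  · refine hom_ext_F2 (f := r.comp (jj a b j)) (f' := 1) ?_ ?_ x
    · rw [MonoidHom.comp_apply, jj_0, hr1]; simp [s, hji, hjk]
    · rw [MonoidHom.comp_apply, jj_1, hr2]; simp [t, hji, hjk]

end

section


open FreeGroup (of)
open Pool.MP_59b15d_al.H24T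

section cyc

variable {B A : Type*} [Group B] [DecidableEq B] [CommGroup A]

/-- The norm element of a cyclic group. -/
def nrm (m : ℕ) (α : B) (ζ : A) : B → A :=
  ∏ l ∈ Finset.range m, shift B A (α ^ l) (Pi.mulSingle 1 ζ)

theorem shift_nrm (m : ℕ) (α : B) (hα : α ^ m = 1) (ζ : A) :
    shift B A α (nrm m α ζ) = nrm m α ζ := by
  unfold nrm
  rw [map_prod]
  have h1 : ∀ l, shift B A α (shift B A (α ^ l) (Pi.mulSingle 1 ζ)) =
      shift B A (α ^ (l + 1)) (Pi.mulSingle 1 ζ) := by
    intro l
    rw [← MulAut.mul_apply, ← map_mul, ← pow_succ']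
  simp only [h1]
  have h2 := Finset.prod_range_succ (fun l => shift B A (α ^ l) (Pi.mulSingle 1 ζ)) m
  have h3 := Finset.prod_range_succ' (fun l => shift B A (α ^ l) (Pi.mulSingle 1 ζ)) m
  rw [h2, hα, pow_zero] at h3
  exact (mul_right_cancel h3).symm

omit [DecidableEq B] in
theorem pow_form (β : B) (u : B → A) (k : ℕ) :
    (SemidirectProduct.inr β * SemidirectProduct.inl u : (B → A) ⋊[shift B A] B) ^ k =
      SemidirectProduct.inl (∏ j ∈ Finset.range k, shift B A (β ^ (j + 1)) u) *
        SemidirectProduct.inr (β ^ k) := by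
  induction k with
  | zero => simp
  | succ k ih =>
    rw [pow_succ, ih, Finset.prod_range_succ, map_mul, SemidirectProduct.inl_aut]
    rw [map_inv, map_pow, map_pow]
    group

/-- The function counting the representations as a product of powers. -/
theorem count_form (m : ℕ) (α β : B) (ζ : A) (y : B) :
    (∏ j ∈ Finset.range m, shift B A (β ^ (j + 1)) (nrm m α ζ)) y =
      ζ ^ (((Finset.range m) ×ˢ (Finset.range m)).filter
        (fun p => β ^ (p.1 + 1) * α ^ p.2 = y)).card := by
  have h1 : ∀ j l : ℕ, shift B A (β ^ (j + 1)) (shift B A (α ^ l) (Pi.mulSingle 1 ζ)) y =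
      if β ^ (j + 1) * α ^ l = y then ζ else 1 := by
    intro j l
    rw [shift_apply, shift_apply, Pi.mulSingle_apply]
    congr 1
    rw [← mul_assoc, ← mul_inv_rev, inv_mul_eq_one]
  unfold nrm
  rw [Finset.prod_apply]
  simp only [map_prod, Finset.prod_apply, h1]
  rw [← Finset.prod_product', Finset.prod_ite]
  simp

end cyc

theorem CF1 {g : ℕ} {G : Type*} [Group G] {a b : Fin g → G} (h : IsSurf a b) (i : Fin g)
    (Γ : Subgroup G) (hn : Γ.Normal) (hf : Γ.FiniteIndex) :
    ∃ Γ' : Subgroup G, Γ'.Normal ∧ Γ'.FiniteIndex ∧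
      ∀ x : G, (∀ w : F2, x * jj a b i w * x⁻¹ * (jj a b i w)⁻¹ ∈ Γ') →
        ∃ w : F2, x * (jj a b i w)⁻¹ ∈ Γ := by
  classical
  have hfin : Finite (G ⧸ Γ) := Subgroup.finite_quotient_of_finiteIndex
  let B := G ⧸ Γ
  let q : G →* B := QuotientGroup.mk' Γ
  let m := Nat.card B
  have hm : 0 < m := Nat.card_pos
  let n := m * m + 1
  have : NeZero n := ⟨by positivity⟩
  let A := Multiplicative (ZMod n)
  let ζ : A := Multiplicative.ofAdd 1
  let α : B := q (a i)
  let β : B := q (b i)
  have hα : α ^ m = 1 := pow_card_eq_one'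
  have hβ : β ^ m = 1 := pow_card_eq_one'
  let W := (B → A) ⋊[shift B A] B
  let s : Fin g → W := fun j => SemidirectProduct.inr (q (a j))
  let t : Fin g → W := fun j => SemidirectProduct.inr (q (b j)) *
    (if j = i then SemidirectProduct.inl (nrm m α ζ) else 1)
  have hcomm : (SemidirectProduct.inr α : W) * SemidirectProduct.inl (nrm m α ζ) =
      SemidirectProduct.inl (nrm m α ζ) * SemidirectProduct.inr α := by
    have h1 := SemidirectProduct.inl_aut (φ := shift B A) α (nrm m α ζ)
    rw [shift_nrm m α hα ζ, map_inv, eq_mul_inv_iff_mul_eq] at h1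
    exact h1.symm
  obtain ⟨θ, hθ1, hθ2⟩ := h.lift s t (by
    have e : relWord s t = SemidirectProduct.inr (relWord (fun j => q (a j)) (fun j => q (b j))) := by
      rw [map_relWord]
      unfold relWord
      congr 2
      funext j
      by_cases hj : j = i
      · subst hj
        simp only [s, t, if_true]
        calc (SemidirectProduct.inr (q (a j)) : W) * (SemidirectProduct.inr (q (b j)) *
              SemidirectProduct.inl (nrm m α ζ)) * (SemidirectProduct.inr (q (a j)))⁻¹ *
              (SemidirectProduct.inr (q (b j)) * SemidirectProduct.inl (nrm m α ζ))⁻¹ =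
            SemidirectProduct.inr (q (a j)) * SemidirectProduct.inr (q (b j)) *
              (SemidirectProduct.inl (nrm m α ζ) * (SemidirectProduct.inr α)⁻¹ *
              (SemidirectProduct.inl (nrm m α ζ))⁻¹) * (SemidirectProduct.inr (q (b j)))⁻¹ := by
              group
              rfl
          _ = SemidirectProduct.inr (q (a j)) * SemidirectProduct.inr (q (b j)) *
              (SemidirectProduct.inr α)⁻¹ * (SemidirectProduct.inr (q (b j)))⁻¹ := by
              congr 2
              rw [mul_inv_eq_iff_eq_mul, mul_inv_eq_iff_eq_mul, mul_assoc, ← hcomm,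
                inv_mul_cancel_left]
          _ = _ := rfl
      · simp [s, t, hj]
    rw [e, ← map_relWord, h.relWord_eq, map_one, map_one])
  refine ⟨θ.ker, inferInstance, ?_, ?_⟩
  · have : Finite W := Finite.of_equiv _ SemidirectProduct.equivProd.symm
    exact Subgroup.finiteIndex_ker θ
  · intro x hx
    have hr : ∀ y : G, (θ y).right = q y := by
      intro y
      have h1 : (SemidirectProduct.rightHom : W →* B).comp θ = q := by
        apply hom_ext_surf h
        intro j w
        refine hom_ext_F2 (f := ((SemidirectProduct.rightHom : W →* B).comp θ).comp (jj a b j))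
          (f' := q.comp (jj a b j)) ?_ ?_ w
        · simp only [MonoidHom.comp_apply, jj_0, hθ1, s]
          exact SemidirectProduct.rightHom_inr _
        · simp only [MonoidHom.comp_apply, jj_1, hθ2, t]
          rw [map_mul, SemidirectProduct.rightHom_inr]
          by_cases hj : j = i
          · rw [if_pos hj, SemidirectProduct.rightHom_inl, mul_one]
          · rw [if_neg hj, map_one, mul_one]
      exact DFunLike.congr_fun h1 y
    let F : B → A := ∏ j ∈ Finset.range m, shift B A (β ^ (j + 1)) (nrm m α ζ)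
    have hb : θ (jj a b i (of 1 ^ m)) = SemidirectProduct.inl F := by
      rw [map_pow, map_pow, jj_1, hθ2]
      simp only [t, if_true]
      rw [pow_form]
      change SemidirectProduct.inl F * SemidirectProduct.inr (β ^ m) = SemidirectProduct.inl F
      rw [hβ, map_one, mul_one]
    have h1 := hx (of 1 ^ m)
    rw [MonoidHom.mem_ker, map_mul, map_mul, map_mul, map_inv, map_inv, hb, mul_inv_eq_one,
      mul_inv_eq_iff_eq_mul] at h1
    have h2 := congrArg SemidirectProduct.left h1
    rw [SemidirectProduct.mul_left, SemidirectProduct.mul_left, SemidirectProduct.left_inl,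
      SemidirectProduct.right_inl, map_one, MulAut.one_apply, mul_comm] at h2
    have h3 := mul_right_cancel h2
    rw [hr] at h3
    have h4 := congrFun h3 (q x)
    rw [shift_apply, inv_mul_cancel] at h4
    have hF : ∀ y, F y = ζ ^ (((Finset.range m) ×ˢ (Finset.range m)).filter
        (fun p => β ^ (p.1 + 1) * α ^ p.2 = y)).card := count_form m α β ζ
    have hone : F 1 ≠ 1 := by
      rw [hF]
      intro h5
      have h6 : ((((Finset.range m) ×ˢ (Finset.range m)).filter
        (fun p => β ^ (p.1 + 1) * α ^ p.2 = 1)).card : ZMod n) = 0 := by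
        have h6' : (((Finset.range m) ×ˢ (Finset.range m)).filter
          (fun p => β ^ (p.1 + 1) * α ^ p.2 = 1)).card • (1 : ZMod n) = 0 :=
          congrArg Multiplicative.toAdd h5
        rwa [nsmul_one] at h6'
      rw [ZMod.natCast_eq_zero_iff] at h6
      have h7 : (((Finset.range m) ×ˢ (Finset.range m)).filter
        (fun p => β ^ (p.1 + 1) * α ^ p.2 = 1)).card ≤ m * m := by
        refine (Finset.card_filter_le _ _).trans ?_
        simp
      have h8 : 0 < (((Finset.range m) ×ˢ (Finset.range m)).filter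
        (fun p => β ^ (p.1 + 1) * α ^ p.2 = 1)).card := by
        apply Finset.card_pos.mpr
        refine ⟨(m - 1, 0), ?_⟩
        rw [Finset.mem_filter, Finset.mem_product, Finset.mem_range, Finset.mem_range]
        refine ⟨⟨by omega, hm⟩, ?_⟩
        have : m - 1 + 1 = m := by omega
        simp only [this, hβ, pow_zero, mul_one]
      have := Nat.le_of_dvd h8 h6
      omega
    rw [h4, hF] at hone
    have hne : (((Finset.range m) ×ˢ (Finset.range m)).filter
        (fun p => β ^ (p.1 + 1) * α ^ p.2 = q x)).Nonempty := by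
      rw [← Finset.card_pos]
      rcases Nat.eq_zero_or_pos ((((Finset.range m) ×ˢ (Finset.range m)).filter
        (fun p => β ^ (p.1 + 1) * α ^ p.2 = q x)).card) with h5 | h5
      · exact absurd (by rw [h5, pow_zero]) hone
      · exact h5
    obtain ⟨⟨k, l⟩, hkl⟩ := hne
    rw [Finset.mem_filter] at hkl
    have hkl2 : β ^ (k + 1) * α ^ l = q x := hkl.2
    refine ⟨of 1 ^ (k + 1) * of 0 ^ l, ?_⟩
    rw [← QuotientGroup.eq_one_iff]
    change q (x * (jj a b i (of 1 ^ (k + 1) * of 0 ^ l))⁻¹) = 1
    rw [map_mul, map_inv, map_mul, map_pow, map_pow, jj_0, jj_1, map_mul, map_pow, map_pow, ← hkl2]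
    exact mul_inv_cancel _

/-- Elements commuting with a handle modulo a deep subgroup of finite index are small. -/
theorem CF2 {g : ℕ} {G : Type*} [Group G] {a b : Fin g → G} (h : IsSurf a b) (i k : Fin g)
    (hik : i ≠ k) (Γ : Subgroup G) (hn : Γ.Normal) (hf : Γ.FiniteIndex) :
    ∃ Γ' : Subgroup G, Γ'.Normal ∧ Γ'.FiniteIndex ∧
      ∀ x : G, (∀ w : F2, x * jj a b i w * x⁻¹ * (jj a b i w)⁻¹ ∈ Γ') → x ∈ Γ := by
  obtain ⟨r, hr, -⟩ := exists_retr h i k hik
  have hM1 : (Γ.comap (jj a b i)).Normal := inferInstance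
  have hM2 : (Γ.comap (jj a b i)).FiniteIndex := comap_fi _ hf
  obtain ⟨M', hMn, hMf, hMle, hM⟩ := free_center (0 : Fin 2) 1 (by decide) (Γ.comap (jj a b i))
  have h1 : (M'.comap r).FiniteIndex := comap_fi _ hMf
  have h2 : (M'.comap r).Normal := inferInstance
  have h3 : (Γ ⊓ M'.comap r).Normal := inferInstance
  have h4 : (Γ ⊓ M'.comap r).FiniteIndex := inferInstance
  obtain ⟨Γ₂, hn2, hf2, hΓ2⟩ := CF1 h i _ h3 h4
  refine ⟨Γ₂ ⊓ (Γ ⊓ M'.comap r), inferInstance, inferInstance, ?_⟩
  intro x hx
  obtain ⟨w, hw⟩ := hΓ2 x (fun w => (hx w).1)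
  have key : ∀ v : F2, w * v * w⁻¹ * v⁻¹ ∈ M' := by
    intro v
    -- x = y * jj w with y in Γ ⊓ M'.comap r
    let π : G →* G ⧸ (Γ ⊓ M'.comap r) := QuotientGroup.mk' _
    have hπ : ∀ z, π z = 1 ↔ z ∈ Γ ⊓ M'.comap r := fun z => QuotientGroup.eq_one_iff z
    have e1 : π x = π (jj a b i w) := by
      have := (hπ _).mpr hw
      rw [map_mul, map_inv, mul_inv_eq_one] at this
      exact this
    have e2 := (hπ _).mpr (hx v).2
    rw [map_mul, map_mul, map_mul, map_inv, map_inv, e1] at e2
    have e3 : π (jj a b i (w * v * w⁻¹ * v⁻¹)) = 1 := by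
      simp only [map_mul, map_inv]
      exact e2
    have e4 : r (jj a b i (w * v * w⁻¹ * v⁻¹)) ∈ M' := ((hπ _).mp e3).2
    rwa [hr] at e4
  have hwM := hM w (key _) (key _)
  have h5 := Γ.mul_mem hw.1 hwM
  rwa [inv_mul_cancel_right] at h5

/-- The same for all handles at once. -/
theorem CF3 {g : ℕ} {G : Type*} [Group G] {a b : Fin g → G} (h : IsSurf a b) (hg : 2 ≤ g)
    (Γ : Subgroup G) (hn : Γ.Normal) (hf : Γ.FiniteIndex) :
    ∃ Γ' : Subgroup G, Γ'.Normal ∧ Γ'.FiniteIndex ∧ ∀ i : Fin g,
      ∀ x : G, (∀ w : F2, x * jj a b i w * x⁻¹ * (jj a b i w)⁻¹ ∈ Γ') → x ∈ Γ := by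
  have hk : ∀ i : Fin g, ∃ k : Fin g, i ≠ k := by
    intro i
    by_cases hi : i = ⟨0, by omega⟩
    · refine ⟨⟨1, by omega⟩, ?_⟩
      rw [hi]
      intro h1
      have := congrArg Fin.val h1
      simp at this
    · exact ⟨⟨0, by omega⟩, hi⟩
  choose k hk using hk
  choose Γ' h1 h2 h3 using fun i => CF2 h i (k i) (hk i) Γ hn hf
  refine ⟨⨅ i, Γ' i, Subgroup.normal_iInf_normal h1, Subgroup.finiteIndex_iInf h2, ?_⟩
  intro i x hx
  exact h3 i x (fun w => (iInf_le Γ' i) (hx w))

end

end Pool.MP_59b15d_al.H76
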