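import Mathlib
import Pool.Agent.H.MP_59b15d_al.h76m.Hf
import Pool.Agent.H.MP_59b15d_al.h76m.Hg

set_option autoImplicit false

namespace Pool.MP_59b15d_al.H76

section


open FreeGroup (of)
open Pool.MP_59b15d_al.H24T

theorem al_gc : al gc = gc := by
  simp [gc, mul_assoc]

theorem be_gc : be gc = gc := by
  simp [gc, mul_assoc]

theorem gx_gc : gx gc = gc := by
  simp [gx, gc, MulAut.mul_apply, MulAut.conj_apply, mul_assoc]

/-- The subgroup of inner automorphisms. -/
def InnF : Subgroup (MulAut F2) := (MulAut.conj : F2 →* MulAut F2).range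

theorem InnF_normal : InnF.Normal := by
  constructor
  rintro _ ⟨x, rfl⟩ c
  refine ⟨c x, ?_⟩
  rw [conj_apply_comm, mul_inv_cancel_right]

/-- Subgroups of the group of automorphisms of the free group that contain the inner automorphisms
and a subgroup of finite index of the stabiliser of the commutator have finite index in the image of
the split extension. -/
theorem D_fi (D₁ : Subgroup Fx) (hf : D₁.FiniteIndex) :
    ((D₁.map Fx.subtype ⊔ InnF).comap Theta).FiniteIndex := by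
  have hn := InnF_normal
  let q : MulAut F2 →* MulAut F2 ⧸ InnF := QuotientGroup.mk' InnF
  have hker : q.ker = InnF := QuotientGroup.ker_mk' InnF
  have h1 : (D₁.map Fx.subtype).relIndex Fx ≠ 0 := by
    have h2 := map_relIndex_ne Fx.subtype D₁ ⊤ (by
      rw [Subgroup.relIndex_top_right]; exact hf.index_ne_zero)
    have h3 : (⊤ : Subgroup Fx).map Fx.subtype = Fx := by
      rw [← MonoidHom.range_eq_map, Subgroup.range_subtype]
    rwa [h3] at h2
  have h2 := map_relIndex_ne q _ _ h1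
  have h3 : (D₁.map Fx.subtype ⊔ InnF).comap Theta =
      (((D₁.map Fx.subtype).map q).comap (q.comp Theta)) := by
    rw [← Subgroup.comap_comap, Subgroup.comap_map_eq, hker]
  rw [h3]
  refine ⟨?_⟩
  rw [Subgroup.index_comap]
  have h4 : (q.comp Theta).range ≤ Fx.map q := by
    have hq : ∀ x : F2, q (MulAut.conj x) = 1 := fun x =>
      (QuotientGroup.eq_one_iff _).mpr ⟨x, rfl⟩
    have hal : q (al * al) ∈ Fx.map q := ⟨al * al, Fx.mul_mem al_gc al_gc, rfl⟩
    have hbe : q (be * be) ∈ Fx.map q := ⟨be * be, Fx.mul_mem be_gc be_gc, rfl⟩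
    have hgx : q gx ∈ Fx.map q := ⟨gx, gx_gc, rfl⟩
    have hXX : q XX ∈ Fx.map q := by
      rw [al_sq, map_mul, map_inv, hq, inv_one, one_mul] at hal
      exact hal
    have hYY : q YY ∈ Fx.map q := by
      rw [be_sq, map_inv] at hbe
      exact (Subgroup.inv_mem_iff _).mp hbe
    rintro _ ⟨e, rfl⟩
    have h5 : e ∈ (Fx.map q).comap (q.comp Theta) := by
      apply EE_gen
      · change q (Theta ex) ∈ Fx.map q
        rw [Theta_x]; exact hgx
      · change q (Theta ep) ∈ Fx.map q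
        rw [Theta_p, map_mul, map_inv]
        exact Subgroup.mul_mem _ (Subgroup.inv_mem _ hgx) hXX
      · change q (Theta er) ∈ Fx.map q
        rw [Theta_r, map_mul, map_inv, gt, hq, inv_one, one_mul]
        exact hYY
      · change q (Theta es) ∈ Fx.map q
        rw [Theta_s, gs, hq]; exact Subgroup.one_mem _
      · change q (Theta et) ∈ Fx.map q
        rw [Theta_t, gt, hq]; exact Subgroup.one_mem _
    exact h5
  exact fun h => h2 (Subgroup.relIndex_eq_zero_of_le_right h4 h)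

variable {g : ℕ} {G : Type*} [Group G]

/-- The twist as an element of the stabiliser of the commutator. -/
def alF : Fx := ⟨al, al_gc⟩
/-- The other twist. -/
def beF : Fx := ⟨be, be_gc⟩

theorem twist_eq {a b : Fin g → G} (h : IsSurf a b) (i : Fin g) (T : MulAut G)
    (hT : IsTwist a b i T) :
    ∃ t : Fx, (t : MulAut F2) ∈ PhiI ∧ T = EF h (Pi.mulSingle i t) := by
  classical
  obtain ⟨h1, h2⟩ := hT
  have key : ∀ t : Fx, T (a i) = jj a b i ((t : MulAut F2) (of 0)) →
      T (b i) = jj a b i ((t : MulAut F2) (of 1)) → T = EF h (Pi.mulSingle i t) := by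
    intro t ht0 ht1
    apply aut_ext_surf h
    intro j x
    rw [EF_apply]
    by_cases hj : j = i
    · subst hj
      rw [Pi.mulSingle_eq_same]
      refine hom_ext_F2 (f := T.toMonoidHom.comp (jj a b j))
        (f' := (jj a b j).comp (t : MulAut F2).toMonoidHom) ?_ ?_ x
      · change T (jj a b j (of 0)) = jj a b j ((t : MulAut F2) (of 0))
        rw [jj_0, ht0]
      · change T (jj a b j (of 1)) = jj a b j ((t : MulAut F2) (of 1))
        rw [jj_1, ht1]
    · rw [Pi.mulSingle_eq_of_ne hj]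
      refine hom_ext_F2 (f := T.toMonoidHom.comp (jj a b j)) (f' := jj a b j) ?_ ?_ x
      · change T (jj a b j (of 0)) = jj a b j (of 0)
        rw [jj_0, (h1 j hj).1]
      · change T (jj a b j (of 1)) = jj a b j (of 1)
        rw [jj_1, (h1 j hj).2]
  rcases h2 with ⟨h3, h4⟩ | ⟨h3, h4⟩
  · refine ⟨alF, Subgroup.subset_closure (Or.inl (by simp [alF])), key alF ?_ ?_⟩
    · change _ = jj a b i (al (of 0))
      rw [al_a, jj_0, h3]
    · change _ = jj a b i (al (of 1))
      rw [al_b, map_mul, jj_0, jj_1, h4]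
  · refine ⟨beF, Subgroup.subset_closure (Or.inl (by simp [beF])), key beF ?_ ?_⟩
    · change _ = jj a b i (be (of 0))
      rw [be_a, map_mul, jj_0, jj_1, h3]
    · change _ = jj a b i (be (of 1))
      rw [be_b, jj_1, h4]

theorem conj_comm_G (c : MulAut G) (x : G) : c * MulAut.conj x = MulAut.conj (c x) * c := by
  ext y
  simp only [MulAut.mul_apply, MulAut.conj_apply, map_mul, map_inv]

/-- The elements of the group `AA` act handle by handle, up to inner automorphisms. -/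
theorem AA_form {a b : Fin g → G} (h : IsSurf a b) (φ : MulAut G) (hφ : φ ∈ AA a b) :
    ∃ (x : G) (f : Fin g → Fx), (∀ i, (f i : MulAut F2) ∈ PhiI) ∧ φ = MulAut.conj x * EF h f := by
  classical
  have stepE : ∀ (t : Fin g → Fx) (φ : MulAut G), (∀ i, (t i : MulAut F2) ∈ PhiI) →
      (∃ (x : G) (f : Fin g → Fx), (∀ i, (f i : MulAut F2) ∈ PhiI) ∧
        φ = MulAut.conj x * EF h f) →
      ∃ (x : G) (f : Fin g → Fx), (∀ i, (f i : MulAut F2) ∈ PhiI) ∧
        EF h t * φ = MulAut.conj x * EF h f := by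
    rintro t _ ht ⟨x, f, hf, rfl⟩
    refine ⟨EF h t x, t * f, fun i => PhiI.mul_mem (ht i) (hf i), ?_⟩
    rw [← mul_assoc, conj_comm_G, map_mul, mul_assoc]
  have stepC : ∀ (y : G) (φ : MulAut G),
      (∃ (x : G) (f : Fin g → Fx), (∀ i, (f i : MulAut F2) ∈ PhiI) ∧
        φ = MulAut.conj x * EF h f) →
      ∃ (x : G) (f : Fin g → Fx), (∀ i, (f i : MulAut F2) ∈ PhiI) ∧
        MulAut.conj y * φ = MulAut.conj x * EF h f := by
    rintro y _ ⟨x, f, hf, rfl⟩
    exact ⟨y * x, f, hf, by rw [← mul_assoc, map_mul]⟩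
  have hsingle : ∀ (i : Fin g) (t : Fx), (t : MulAut F2) ∈ PhiI →
      ∀ j, ((Pi.mulSingle i t : Fin g → Fx) j : MulAut F2) ∈ PhiI := by
    intro i t ht j
    by_cases hj : j = i
    · subst hj; rw [Pi.mulSingle_eq_same]; exact ht
    · rw [Pi.mulSingle_eq_of_ne hj]; exact PhiI.one_mem
  refine Subgroup.closure_induction_left (p := fun φ _ =>
    ∃ (x : G) (f : Fin g → Fx), (∀ i, (f i : MulAut F2) ∈ PhiI) ∧ φ = MulAut.conj x * EF h f)
    ?_ ?_ ?_ hφ
  · exact ⟨1, 1, fun i => PhiI.one_mem, by rw [map_one, map_one, one_mul]⟩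
  · rintro T (⟨y, rfl⟩ | ⟨i, hT⟩) φ _ ih
    · exact stepC y φ ih
    · obtain ⟨t, ht, rfl⟩ := twist_eq h i T hT
      exact stepE _ φ (hsingle i t ht) ih
  · rintro T (⟨y, rfl⟩ | ⟨i, hT⟩) φ _ ih
    · rw [← map_inv]; exact stepC y⁻¹ φ ih
    · obtain ⟨t, ht, rfl⟩ := twist_eq h i T hT
      rw [← map_inv]
      exact stepE _ φ (fun j => PhiI.inv_mem (hsingle i t ht j)) ih

theorem surf_fg {a b : Fin g → G} (h : IsSurf a b) : Group.FG G :=
  Group.fg_iff.mpr ⟨_, h.closure_eq, (Set.finite_range a).union (Set.finite_range b)⟩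

end

section


open FreeGroup (of)
open Pool.MP_59b15d_al.H24T

variable {g : ℕ} {G : Type*} [Group G]

theorem exists_two (hg : 3 ≤ g) (i : Fin g) : ∃ j k : Fin g, j ≠ i ∧ k ≠ i ∧ j ≠ k := by
  have hc : 3 ≤ Fintype.card (Fin g) := by simpa using hg
  have h1 : 2 ≤ (Finset.univ.erase i).card := by
    rw [Finset.card_erase_of_mem (Finset.mem_univ i), Finset.card_univ]
    omega
  obtain ⟨j, hj, k, hk, hjk⟩ := Finset.one_lt_card.mp h1
  exact ⟨j, k, (Finset.mem_erase.mp hj).1, (Finset.mem_erase.mp hk).1, hjk⟩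

/-- The conjugation by the commutator. -/
def cF : Fx := ⟨MulAut.conj gc, by
  change MulAut.conj gc gc = gc
  rw [MulAut.conj_apply]; group⟩

theorem relCong_AA {a b : Fin g → G} (h : IsSurf a b) (hg : 3 ≤ g) :
    RelCong (AA a b : Set (MulAut G)) := by
  classical
  intro H hH hI
  have hGfg : Group.FG G := surf_fg h
  -- the normal core
  let H₀ : Subgroup (MulAut G) := H.normalCore
  have hH₀n : H₀.Normal := inferInstance
  have hH₀f : H₀.FiniteIndex := inferInstance
  have hI₀ : ∀ x : G, MulAut.conj x ∈ H₀ := by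
    intro x ψ
    rw [conj_comm_G, mul_inv_cancel_right]
    exact hI _
  let e := H₀.index
  have he : e ≠ 0 := hH₀f.index_ne_zero
  have : NeZero e := ⟨he⟩
  let DD : Subgroup (Fin g → Fx) := H₀.comap (EF h)
  have hDD : DD.FiniteIndex := comap_fi _ hH₀f
  -- auxiliary handles and retractions
  choose j k hji hki hjk using fun i : Fin g => exists_two hg i
  choose r hr hr0 using fun i : Fin g => exists_retr h i (k i) (hki i).symm
  have hr1 : ∀ i x, r i (jj a b (j i) x) = 1 := fun i x => hr0 i (j i) (hji i) (hjk i) x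
  -- the subgroup detecting powers of the commutators
  let ΓO : Subgroup G := ⨅ i, (toHeis (ZMod e)).ker.comap (r i)
  have hOn : ΓO.Normal := Subgroup.normal_iInf_normal (fun i => inferInstance)
  have hOf : ΓO.FiniteIndex := Subgroup.finiteIndex_iInf
    (fun i => comap_fi _ (Subgroup.finiteIndex_ker _))
  obtain ⟨Γ₁, h1n, h1f, h1⟩ := CF3 h (by omega) ΓO hOn hOf
  have hKf : (⨅ i, Γ₁.comap (jj a b i)).FiniteIndex :=
    Subgroup.finiteIndex_iInf (fun i => comap_fi _ h1f)
  obtain ⟨K', hK'c, hK'f, hK'⟩ := exists_char_le _ hKf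
  let D₁ : Subgroup Fx := (⨅ i, DD.comap (MonoidHom.mulSingle (fun _ : Fin g => Fx) i)) ⊓
    (trivMod K').comap Fx.subtype
  have hD₁ : D₁.FiniteIndex := by
    have h2 : (⨅ i, DD.comap (MonoidHom.mulSingle (fun _ : Fin g => Fx) i)).FiniteIndex :=
      Subgroup.finiteIndex_iInf (fun i => comap_fi _ hDD)
    have h3 : ((trivMod K').comap Fx.subtype).FiniteIndex :=
      comap_fi _ (trivMod_finiteIndex hK'c hK'f)
    exact inferInstance
  obtain ⟨K, hKc, hKfi, hK⟩ := AFPhi (D₁.map Fx.subtype ⊔ InnF)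
    (fun x => Subgroup.mem_sup_right ⟨x, rfl⟩) (D_fi D₁ hD₁)
  have hΓKf : (⨅ i, K.comap (r i)).FiniteIndex :=
    Subgroup.finiteIndex_iInf (fun i => comap_fi _ hKfi)
  have hΓf : ((⨅ i, K.comap (r i)) ⊓ Γ₁).FiniteIndex := inferInstance
  obtain ⟨Γ, hΓc, hΓfi, hΓ⟩ := exists_char_le _ hΓf
  refine ⟨Γ, hΓc, hΓfi, ?_⟩
  intro φ hφA hφ
  obtain ⟨x, f, hfP, rfl⟩ := AA_form h φ hφA
  have hφ₀ : InnMod Γ (EF h f) := by
    have h2 : MulAut.conj x⁻¹ ∈ congSub Γ hΓc := conj_innMod Γ _
    have h3 := (congSub Γ hΓc).mul_mem h2 hφ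
    rw [map_inv, inv_mul_cancel_left] at h3
    exact h3
  obtain ⟨y, hy⟩ := hφ₀
  -- the components are inner modulo K
  have hfK : ∀ i, InnMod K (f i : MulAut F2) := by
    intro i
    refine ⟨r i y, fun w => ?_⟩
    have h2 := (Subgroup.mem_iInf.mp (hΓ (hy (jj a b i w))).1) i
    rw [Subgroup.mem_comap, EF_apply] at h2
    simp only [map_mul, map_inv, hr] at h2
    simpa only [mul_inv_rev, map_mul, map_inv] using h2
  have hInnN := InnF_normal
  have hdec : ∀ i, ∃ d : Fx, d ∈ D₁ ∧ ∃ m : F2, (f i : MulAut F2) = (d : MulAut F2) * MulAut.conj m := by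
    intro i
    have h2 := hK (f i) (hfP i) (hfK i)
    obtain ⟨_, ⟨d, hd, rfl⟩, _, ⟨m, rfl⟩, hdm⟩ := Subgroup.mem_sup_of_normal_right.mp h2
    exact ⟨d, hd, m, hdm.symm⟩
  choose d hd m hm using hdec
  -- the conjugating elements are powers of the commutator
  have hmk : ∀ i, ∃ l : ℤ, m i = gc ^ l := by
    intro i
    apply centralizer_gc
    have h2 : MulAut.conj (m i) ∈ Fx := by
      have h3 : MulAut.conj (m i) = (d i : MulAut F2)⁻¹ * (f i : MulAut F2) := by
        rw [hm]; group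
      rw [h3]
      exact Fx.mul_mem (Fx.inv_mem (d i).2) (f i).2
    have h3 : MulAut.conj (m i) gc = gc := h2
    rw [MulAut.conj_apply] at h3
    exact mul_inv_eq_iff_eq_mul.mp h3
  choose l hl using hmk
  -- the conjugating element of the surface group
  have hyO : ∀ i, (jj a b i (m i))⁻¹ * y ∈ ΓO := by
    intro i
    apply h1 i
    intro w
    let π : G →* G ⧸ Γ₁ := QuotientGroup.mk' Γ₁
    have hπ : ∀ z, π z = 1 ↔ z ∈ Γ₁ := fun z => QuotientGroup.eq_one_iff z
    have h2 := (hπ _).mpr (hΓ (hy (jj a b i w))).2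
    rw [EF_apply, hm i, MulAut.mul_apply, MulAut.conj_apply] at h2
    have h3 : π (jj a b i ((d i : MulAut F2) (m i * w * (m i)⁻¹))) =
        π (jj a b i (m i * w * (m i)⁻¹)) := by
      have h4 := (Subgroup.mem_iInf.mp (hK' ((hd i).2 (m i * w * (m i)⁻¹)))) i
      rw [Subgroup.mem_comap, map_mul, map_inv] at h4
      have h5 := (hπ _).mpr h4
      rw [map_mul, map_inv, mul_inv_eq_one] at h5
      exact h5
    rw [map_mul, map_inv, h3, mul_inv_eq_one] at h2
    rw [← hπ]
    simp only [map_mul, map_inv] at h2 ⊢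
    have h6 : π y * π (jj a b i w) = π (jj a b i (m i)) * π (jj a b i w) *
        (π (jj a b i (m i)))⁻¹ * π y := by
      rw [h2]; group
    calc (π (jj a b i (m i)))⁻¹ * π y * π (jj a b i w) * ((π (jj a b i (m i)))⁻¹ * π y)⁻¹ *
          (π (jj a b i w))⁻¹ = (π (jj a b i (m i)))⁻¹ * (π y * π (jj a b i w)) * (π y)⁻¹ *
          π (jj a b i (m i)) * (π (jj a b i w))⁻¹ := by group
      _ = 1 := by rw [h6]; group
  -- the exponents are divisible by e
  have hdvd : ∀ i, (e : ℤ) ∣ l i := by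
    intro i
    have h2 := ΓO.mul_mem (hyO i) (ΓO.inv_mem (hyO (j i)))
    have h3 : (jj a b i (m i))⁻¹ * y * ((jj a b (j i) (m (j i)))⁻¹ * y)⁻¹ =
        (jj a b i (m i))⁻¹ * jj a b (j i) (m (j i)) := by group
    rw [h3] at h2
    have h4 := (Subgroup.mem_iInf.mp h2) i
    rw [Subgroup.mem_comap, map_mul, map_inv, hr, hr1, mul_one, MonoidHom.mem_ker, map_inv,
      inv_eq_one, hl i, map_zpow, toHeis_c, Heis.zpow_central _ rfl rfl] at h4
    have h5 := congrArg Heis.z h4
    simp only [mul_one, Heis.one_z] at h5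
    exact (ZMod.intCast_zmod_eq_zero_iff_dvd _ _).mp h5
  choose l' hl' using hdvd
  -- the final decomposition
  have hdH : EF h d ∈ H₀ := by
    have h2 : d ∈ DD := Subgroup.pi_mem_of_mulSingle_mem d (fun i =>
      (Subgroup.mem_iInf.mp (hd i).1) i)
    exact h2
  have hfd : f = d * (fun i => cF ^ l' i) ^ e := by
    funext i
    apply Subtype.ext
    rw [hm i, hl i, hl' i]
    rw [Pi.mul_apply, Pi.pow_apply, ← zpow_natCast, ← zpow_mul, mul_comm (l' i)]
    rw [map_zpow]
    rfl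
  have hfin : EF h f ∈ H₀ := by
    rw [hfd, map_mul, map_pow]
    exact H₀.mul_mem hdH (H₀.pow_index_mem _)
  exact Subgroup.normalCore_le H (H₀.mul_mem (hI₀ x) hfin)

end

section


open FreeGroup (of)
open Pool.MP_59b15d_al.H24T

variable {g : ℕ} {G : Type*} [Group G]

/-- Two systems of standard generators differ by an automorphism. -/
theorem exists_change {a b a' b' : Fin g → G} (h : IsSurf a b) (h' : IsSurf a' b') :
    ∃ ψ : MulAut G, (∀ i, ψ (a i) = a' i) ∧ ∀ i, ψ (b i) = b' i := by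
  obtain ⟨e, he⟩ := h.iso
  obtain ⟨e', he'⟩ := h'.iso
  refine ⟨e.symm.trans e', fun i => ?_, fun i => ?_⟩
  · change e' (e.symm (a i)) = a' i
    rw [← (he i).1, MulEquiv.symm_apply_apply, (he' i).1]
  · change e' (e.symm (b i)) = b' i
    rw [← (he i).2, MulEquiv.symm_apply_apply, (he' i).2]

theorem AA_change {a b a' b' : Fin g → G} (ψ : MulAut G) (ha : ∀ i, ψ (a i) = a' i)
    (hb : ∀ i, ψ (b i) = b' i) (φ : MulAut G) (hφ : φ ∈ AA a' b') : ψ⁻¹ * φ * ψ ∈ AA a b := by
  have hle : AA a' b' ≤ (AA a b).comap (MulAut.conj ψ⁻¹).toMonoidHom := by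
    rw [AA, Subgroup.closure_le]
    rintro T (⟨y, rfl⟩ | ⟨i, hT1, hT2⟩)
    · change ψ⁻¹ * MulAut.conj y * ψ⁻¹⁻¹ ∈ AA a b
      rw [conj_comm_G, mul_inv_cancel_right]
      exact Subgroup.subset_closure (Or.inl ⟨_, rfl⟩)
    · change ψ⁻¹ * T * ψ⁻¹⁻¹ ∈ AA a b
      rw [inv_inv]
      have hai : ∀ j, ψ⁻¹ (a' j) = a j := fun j => by
        rw [← ha, MulAut.inv_apply_self]
      have hbi : ∀ j, ψ⁻¹ (b' j) = b j := fun j => by
        rw [← hb, MulAut.inv_apply_self]
      refine Subgroup.subset_closure (Or.inr ⟨i, ?_, ?_⟩)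
      · intro j hj
        obtain ⟨h1, h2⟩ := hT1 j hj
        simp only [MulAut.mul_apply, ha, hb, h1, h2, hai, hbi]
        exact ⟨trivial, trivial⟩
      · rcases hT2 with ⟨h1, h2⟩ | ⟨h1, h2⟩
        · left
          simp only [MulAut.mul_apply, ha, hb, h1, h2, map_mul, hai, hbi]
          exact ⟨trivial, trivial⟩
        · right
          simp only [MulAut.mul_apply, ha, hb, h1, h2, map_mul, hai, hbi]
          exact ⟨trivial, trivial⟩
  have := hle hφ
  change ψ⁻¹ * φ * ψ⁻¹⁻¹ ∈ AA a b at this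
  rwa [inv_inv] at this

/-- The relative congruence subgroup property, uniformly over all systems of standard generators. -/
theorem relCong_all {a b : Fin g → G} (h : IsSurf a b) (hg : 3 ≤ g) (H : Subgroup (MulAut G))
    (hH : H.FiniteIndex) (hI : ∀ x : G, MulAut.conj x ∈ H) :
    ∃ Γ : Subgroup G, Γ.Characteristic ∧ Γ.FiniteIndex ∧ ∀ a' b' : Fin g → G, IsSurf a' b' →
      ∀ φ ∈ AA a' b', InnMod Γ φ → φ ∈ H := by
  have hI₀ : ∀ x : G, MulAut.conj x ∈ H.normalCore := by
    intro x ψ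
    rw [conj_comm_G, mul_inv_cancel_right]
    exact hI _
  obtain ⟨Γ, hc, hf, hΓ⟩ := relCong_AA h hg H.normalCore inferInstance hI₀
  refine ⟨Γ, hc, hf, ?_⟩
  intro a' b' h' φ hφ hφi
  obtain ⟨ψ, ha, hb⟩ := exists_change h h'
  have h1 := AA_change ψ ha hb φ hφ
  have h2 : InnMod Γ (ψ⁻¹ * φ * ψ) := by
    have := (congSub_normal hc).conj_mem φ hφi ψ⁻¹
    rwa [inv_inv] at this
  have h3 := hΓ _ h1 h2
  have hn : H.normalCore.Normal := inferInstance
  have h4 := hn.conj_mem _ h3 ψ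
  have e : ψ * (ψ⁻¹ * φ * ψ) * ψ⁻¹ = φ := by group
  rw [e] at h4
  exact Subgroup.normalCore_le H h4

/-- The problem for a closed surface of genus at least three, reduced to the subgroups containing all
twists of the handles. -/
theorem reduction_AA {a b : Fin g → G} (h : IsSurf a b) (hg : 3 ≤ g) :
    (∀ H : Subgroup (MulAut G), H.FiniteIndex → (∀ x : G, MulAut.conj x ∈ H) → IsCong H) ↔
    (∀ H : Subgroup (MulAut G), H.FiniteIndex → (∀ x : G, MulAut.conj x ∈ H) →
      (∀ i T, IsTwist a b i T → T ∈ H) → IsCong H) := by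
  constructor
  · intro h1 H hH hI _
    exact h1 H hH hI
  · intro h1 H hH hI
    refine reduction (AA a b) (relCong_AA h hg) ?_ H hH hI
    intro H' hH' hI' hA
    exact h1 H' hH' hI' (fun i T hT => hA (Subgroup.subset_closure (Or.inr ⟨i, hT⟩)))

/-- The twists exist. -/
theorem twists_exist {a b : Fin g → G} (h : IsSurf a b) (i : Fin g) :
    (∃ T : MulAut G, IsTwist a b i T ∧ T (a i) = a i ∧ T (b i) = b i * a i) ∧
    (∃ T : MulAut G, IsTwist a b i T ∧ T (a i) = a i * b i ∧ T (b i) = b i) := by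
  classical
  have h0 : ∀ (t : Fx) (j : Fin g), j ≠ i → EF h (Pi.mulSingle i t) (a j) = a j ∧
      EF h (Pi.mulSingle i t) (b j) = b j := by
    intro t j hj
    have h1 := EF_apply h (Pi.mulSingle i t) j (of 0)
    have h2 := EF_apply h (Pi.mulSingle i t) j (of 1)
    rw [Pi.mulSingle_eq_of_ne hj] at h1 h2
    change _ = jj a b j (of 0) at h1
    change _ = jj a b j (of 1) at h2
    rw [jj_0] at h1
    rw [jj_1] at h2
    exact ⟨h1, h2⟩
  have h3 : ∀ (t : Fx), EF h (Pi.mulSingle i t) (a i) = jj a b i ((t : MulAut F2) (of 0)) ∧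
      EF h (Pi.mulSingle i t) (b i) = jj a b i ((t : MulAut F2) (of 1)) := by
    intro t
    have h1 := EF_apply h (Pi.mulSingle i t) i (of 0)
    have h2 := EF_apply h (Pi.mulSingle i t) i (of 1)
    rw [Pi.mulSingle_eq_same, jj_0] at h1
    rw [Pi.mulSingle_eq_same, jj_1] at h2
    exact ⟨h1, h2⟩
  constructor
  · obtain ⟨h1, h2⟩ := h3 alF
    change _ = jj a b i (al (of 0)) at h1
    change _ = jj a b i (al (of 1)) at h2
    rw [al_a, jj_0] at h1
    rw [al_b, map_mul, jj_0, jj_1] at h2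
    exact ⟨_, ⟨h0 alF, Or.inl ⟨h1, h2⟩⟩, h1, h2⟩
  · obtain ⟨h1, h2⟩ := h3 beF
    change _ = jj a b i (be (of 0)) at h1
    change _ = jj a b i (be (of 1)) at h2
    rw [be_a, map_mul, jj_0, jj_1] at h1
    rw [be_b, jj_1] at h2
    exact ⟨_, ⟨h0 beF, Or.inr ⟨h1, h2⟩⟩, h1, h2⟩

/-- The problem reduced to normal subgroups between a congruence subgroup and the elements of it
generated by handle twists. -/
theorem normal_form {a b : Fin g → G} (h : IsSurf a b) (hg : 3 ≤ g)
    (h1 : ∀ Γ : Subgroup G, Γ.Characteristic → Γ.FiniteIndex → ∀ N : Subgroup (MulAut G),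
      N.Normal → N.FiniteIndex → (∀ x : G, MulAut.conj x ∈ N) → (∀ φ ∈ N, InnMod Γ φ) →
      (∀ a' b' : Fin g → G, IsSurf a' b' → ∀ φ ∈ AA a' b', InnMod Γ φ → φ ∈ N) → IsCong N)
    (H : Subgroup (MulAut G)) (hH : H.FiniteIndex) (hI : ∀ x : G, MulAut.conj x ∈ H) :
    IsCong H := by
  have hI₀ : ∀ x : G, MulAut.conj x ∈ H.normalCore := by
    intro x ψ
    rw [conj_comm_G, mul_inv_cancel_right]
    exact hI _
  obtain ⟨Γ, hc, hf, hΓ⟩ := relCong_all h hg H.normalCore inferInstance hI₀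
  have hCn := congSub_normal hc
  have hCf := congSub_finiteIndex hc hf
  obtain ⟨Γ', h2, h3, h4⟩ := h1 Γ hc hf (H.normalCore ⊓ congSub Γ hc) inferInstance inferInstance
    (fun x => ⟨hI₀ x, conj_innMod Γ x⟩) (fun φ hφ => hφ.2)
    (fun a' b' h' φ hφ hφi => ⟨hΓ a' b' h' φ hφ hφi, hφi⟩)
  exact ⟨Γ', h2, h3, fun φ hφ => Subgroup.normalCore_le H (h4 φ hφ).1⟩

end

end Pool.MP_59b15d_al.H76
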