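import Mathlib
import Pool.Agent.H.MP_59b15d_al.h76m.Hd

set_option autoImplicit false

namespace Pool.MP_59b15d_al.H76

section


section maschke

variable {M : Type*} [Group M] {V : Type*} [AddCommGroup V] [Module ℂ V]

/-- The restriction of a representation to an invariant subspace. -/
def resRep (ρ : M →* (V ≃ₗ[ℂ] V)) (W : Submodule ℂ V) (hW : ∀ m, ∀ w ∈ W, ρ m w ∈ W) :
    M →* (W ≃ₗ[ℂ] W) where
  toFun := fun m =>
    { toFun := fun w => ⟨ρ m w, hW m w w.2⟩
      map_add' := fun x y => Subtype.ext (map_add (ρ m) (x : V) y)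
      map_smul' := fun c x => Subtype.ext (map_smul (ρ m) c (x : V))
      invFun := fun w => ⟨ρ m⁻¹ w, hW m⁻¹ w w.2⟩
      left_inv := fun x => Subtype.ext (by
        change (ρ m⁻¹ * ρ m) (x : V) = x
        rw [← map_mul, inv_mul_cancel, map_one]; rfl)
      right_inv := fun x => Subtype.ext (by
        change (ρ m * ρ m⁻¹) (x : V) = x
        rw [← map_mul, mul_inv_cancel, map_one]; rfl) }
  map_one' := by
    ext x
    change (ρ 1) (x : V) = x
    rw [map_one]; rfl
  map_mul' := by
    intro m n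
    ext x
    change (ρ (m * n)) (x : V) = ρ m (ρ n x)
    rw [map_mul]; rfl

theorem resRep_apply (ρ : M →* (V ≃ₗ[ℂ] V)) (W : Submodule ℂ V) (hW : ∀ m, ∀ w ∈ W, ρ m w ∈ W)
    (m : M) (w : W) : ((resRep ρ W hW m w : W) : V) = ρ m w := rfl

theorem ker_res (ρ : M →* (V ≃ₗ[ℂ] V)) (W : Submodule ℂ V) (hW : ∀ m, ∀ w ∈ W, ρ m w ∈ W) :
    ρ.ker ≤ (resRep ρ W hW).ker := by
  intro m hm
  rw [MonoidHom.mem_ker] at hm ⊢
  ext x
  rw [resRep_apply, hm]
  rfl

/-- An equivariant projection onto an invariant subspace, for a representation with kernel of finite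
index. -/
theorem exists_proj (ρ : M →* (V ≃ₗ[ℂ] V)) (hρ : ρ.ker.FiniteIndex) (W : Submodule ℂ V)
    (hW : ∀ m, ∀ w ∈ W, ρ m w ∈ W) :
    ∃ p : V →ₗ[ℂ] V, (∀ v, p v ∈ W) ∧ (∀ w ∈ W, p w = w) ∧ ∀ m v, p (ρ m v) = ρ m (p v) := by
  classical
  obtain ⟨l, hl⟩ := W.subtype.exists_leftInverse_of_injective W.ker_subtype
  have hl' : ∀ w : W, l w = w := fun w => by
    have := LinearMap.congr_fun hl w
    simpa using this
  have hfin : Finite (M ⧸ ρ.ker) := Subgroup.finite_quotient_of_finiteIndex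
  have hft := Fintype.ofFinite (M ⧸ ρ.ker)
  let σ : (M ⧸ ρ.ker) →* (V ≃ₗ[ℂ] V) := QuotientGroup.kerLift ρ
  have hσ : ∀ m : M, σ (QuotientGroup.mk m) = ρ m := fun m => QuotientGroup.kerLift_mk ρ m
  have hσW : ∀ q : M ⧸ ρ.ker, ∀ w ∈ W, σ q w ∈ W := by
    intro q w hw
    induction q using QuotientGroup.induction_on with
    | _ m => rw [hσ]; exact hW m w hw
  let c : ℂ := ((Fintype.card (M ⧸ ρ.ker) : ℕ) : ℂ)
  have hc : c ≠ 0 := by
    have : 0 < Fintype.card (M ⧸ ρ.ker) := Fintype.card_pos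
    exact Nat.cast_ne_zero.mpr this.ne'
  let p : V →ₗ[ℂ] V := c⁻¹ • ∑ q : M ⧸ ρ.ker,
    (σ q : V →ₗ[ℂ] V) ∘ₗ W.subtype ∘ₗ l ∘ₗ (σ q⁻¹ : V →ₗ[ℂ] V)
  have hp : ∀ v, p v = c⁻¹ • ∑ q : M ⧸ ρ.ker, σ q (l (σ q⁻¹ v) : V) := by
    intro v
    simp [p, LinearMap.sum_apply]
  refine ⟨p, fun v => ?_, fun w hw => ?_, fun m v => ?_⟩
  · rw [hp]
    exact W.smul_mem _ (W.sum_mem (fun q _ => hσW q _ (l _).2))
  · rw [hp]
    have h1 : ∀ q : M ⧸ ρ.ker, σ q (l (σ q⁻¹ w) : V) = w := by
      intro q
      have h2 := hl' ⟨σ q⁻¹ w, hσW _ w hw⟩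
      have h3 : ((l (σ q⁻¹ w) : W) : V) = σ q⁻¹ w := congrArg Subtype.val h2
      rw [h3]
      change (σ q * σ q⁻¹) w = w
      rw [← map_mul, mul_inv_cancel, map_one]
      rfl
    simp only [h1]
    rw [Finset.sum_const, Finset.card_univ, ← Nat.cast_smul_eq_nsmul ℂ, smul_smul,
      inv_mul_cancel₀ hc, one_smul]
  · rw [hp, hp, map_smul, map_sum]
    congr 1
    refine (Fintype.sum_equiv (Equiv.mulLeft (QuotientGroup.mk m : M ⧸ ρ.ker)) _ _ ?_).symm
    intro q
    change ρ m (σ q (l (σ q⁻¹ v) : V)) =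
      σ (QuotientGroup.mk m * q) (l (σ (QuotientGroup.mk m * q)⁻¹ (ρ m v)) : V)
    have h1 : σ (QuotientGroup.mk m * q)⁻¹ (ρ m v) = σ q⁻¹ v := by
      rw [← hσ]
      change (σ (QuotientGroup.mk m * q)⁻¹ * σ (QuotientGroup.mk m)) v = σ q⁻¹ v
      rw [← map_mul, mul_inv_rev, inv_mul_cancel_right]
    rw [h1, map_mul, hσ]
    rfl

end maschke

section ker

variable {G : Type} [Group G]

theorem isCong_top : IsCong (⊤ : Subgroup (MulAut G)) :=
  ⟨⊤, inferInstance, inferInstance, fun _ _ => trivial⟩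

theorem isCong_mono {H H' : Subgroup (MulAut G)} (hle : H ≤ H') (h : IsCong H) : IsCong H' := by
  obtain ⟨Γ, h1, h2, h3⟩ := h
  exact ⟨Γ, h1, h2, fun φ hφ => hle (h3 φ hφ)⟩

theorem isCong_inf {H H' : Subgroup (MulAut G)} (h : IsCong H) (h' : IsCong H') :
    IsCong (H ⊓ H') := by
  obtain ⟨Γ, h1, h2, h3⟩ := h
  obtain ⟨Γ', h1', h2', h3'⟩ := h'
  exact ⟨Γ ⊓ Γ', inf_char h1 h1', inferInstance, fun φ hφ =>
    ⟨h3 φ (innMod_mono inf_le_left hφ), h3' φ (innMod_mono inf_le_right hφ)⟩⟩

/-- Irreducible representations of the automorphism group with kernel of finite index containing the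
inner automorphisms and with a nonzero vector fixed by the set `A` have congruence kernels. -/
def IrrCong (A : Set (MulAut G)) : Prop :=
  ∀ (V : Type) [AddCommGroup V] [Module ℂ V] [FiniteDimensional ℂ V] (ρ : MulAut G →* (V ≃ₗ[ℂ] V)),
    ρ.ker.FiniteIndex → (∀ x : G, ρ (MulAut.conj x) = 1) →
    (∀ W : Submodule ℂ V, (∀ φ, ∀ w ∈ W, ρ φ w ∈ W) → W = ⊥ ∨ W = ⊤) →
    (∃ v : V, v ≠ 0 ∧ ∀ φ ∈ A, ρ φ v = v) → IsCong ρ.ker

theorem gen_cong (A : Set (MulAut G)) (hA : IrrCong A) : ∀ (n : ℕ) (V : Type) [AddCommGroup V]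
    [Module ℂ V] [FiniteDimensional ℂ V] (ρ : MulAut G →* (V ≃ₗ[ℂ] V)),
    Module.finrank ℂ V = n → ρ.ker.FiniteIndex → (∀ x : G, ρ (MulAut.conj x) = 1) →
    (∀ W : Submodule ℂ V, (∀ φ, ∀ w ∈ W, ρ φ w ∈ W) → (∀ v, (∀ φ ∈ A, ρ φ v = v) → v ∈ W) →
      W = ⊤) → IsCong ρ.ker := by
  intro n
  induction n using Nat.strong_induction_on with
  | _ n ih =>
    intro V _ _ _ ρ hn hf hI hgen
    by_cases hirr : ∀ W : Submodule ℂ V, (∀ φ, ∀ w ∈ W, ρ φ w ∈ W) → W = ⊥ ∨ W = ⊤
    · by_cases hv : ∃ v : V, v ≠ 0 ∧ ∀ φ ∈ A, ρ φ v = v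
      · exact hA V ρ hf hI hirr hv
      · -- the space is zero
        push Not at hv
        have h1 : (⊥ : Submodule ℂ V) = ⊤ := by
          apply hgen
          · intro φ w hw
            rw [Submodule.mem_bot] at hw ⊢
            rw [hw, map_zero]
          · intro v hv1
            rw [Submodule.mem_bot]
            by_contra hne
            obtain ⟨φ, hφ, hne2⟩ := hv v hne
            exact hne2 (hv1 φ hφ)
        have h2 : ρ.ker = ⊤ := by
          rw [eq_top_iff]
          intro φ _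
          rw [MonoidHom.mem_ker]
          ext v
          have hv0 : ∀ u : V, u = 0 := fun u => by
            have : u ∈ (⊤ : Submodule ℂ V) := trivial
            rwa [← h1, Submodule.mem_bot] at this
          rw [hv0 (ρ φ v), hv0 ((1 : V ≃ₗ[ℂ] V) v)]
        rw [h2]
        exact isCong_top
    · push Not at hirr
      obtain ⟨W, hW, hW0, hW1⟩ := hirr
      obtain ⟨p, hp1, hp2, hp3⟩ := exists_proj ρ hf W hW
      let W' : Submodule ℂ V := LinearMap.ker p
      have hW' : ∀ φ, ∀ w ∈ W', ρ φ w ∈ W' := by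
        intro φ w hw
        rw [LinearMap.mem_ker] at hw ⊢
        rw [hp3, hw, map_zero]
      have hWlt : Module.finrank ℂ W < n := by
        rw [← hn]
        exact Submodule.finrank_lt hW1
      have hW'lt : Module.finrank ℂ W' < n := by
        rw [← hn]
        apply Submodule.finrank_lt
        intro htop
        apply hW0
        rw [eq_bot_iff]
        intro w hw
        rw [Submodule.mem_bot]
        have h1 : w ∈ W' := by rw [htop]; trivial
        rw [LinearMap.mem_ker, hp2 w hw] at h1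
        exact h1
      have hresf : ∀ (U : Submodule ℂ V) (hU : ∀ φ, ∀ w ∈ U, ρ φ w ∈ U),
          (resRep ρ U hU).ker.FiniteIndex := fun U hU => Subgroup.finiteIndex_of_le (ker_res ρ U hU)
      have hresI : ∀ (U : Submodule ℂ V) (hU : ∀ φ, ∀ w ∈ U, ρ φ w ∈ U) (x : G),
          resRep ρ U hU (MulAut.conj x) = 1 := by
        intro U hU x
        have := ker_res ρ U hU (show MulAut.conj x ∈ ρ.ker from hI x)
        exact this
      have c1 : IsCong (resRep ρ W hW).ker := by
        refine ih _ hWlt W (resRep ρ W hW) rfl (hresf W hW) (hresI W hW) ?_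
        intro U hU hUA
        let U' : Submodule ℂ V := (U.map W.subtype).comap p
        have hU' : U' = ⊤ := by
          apply hgen
          · rintro φ v ⟨u, hu, huv⟩
            refine ⟨resRep ρ W hW φ u, hU φ u hu, ?_⟩
            rw [hp3, ← huv]
            rfl
          · intro v hv
            refine ⟨⟨p v, hp1 v⟩, hUA _ ?_, rfl⟩
            intro φ hφ
            apply Subtype.ext
            rw [resRep_apply]
            change ρ φ (p v) = p v
            rw [← hp3, hv φ hφ]
        rw [eq_top_iff]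
        intro w _
        have h1 : (w : V) ∈ U' := by rw [hU']; trivial
        obtain ⟨u, hu, huv⟩ := h1
        rw [hp2 w w.2] at huv
        have : u = w := Subtype.ext huv
        rwa [← this]
      have c2 : IsCong (resRep ρ W' hW').ker := by
        refine ih _ hW'lt W' (resRep ρ W' hW') rfl (hresf W' hW') (hresI W' hW') ?_
        intro U hU hUA
        let p' : V →ₗ[ℂ] V := LinearMap.id - p
        have hp' : ∀ v, p' v = v - p v := fun v => rfl
        have hp'1 : ∀ v, p' v ∈ W' := by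
          intro v
          rw [LinearMap.mem_ker, hp', map_sub, hp2 (p v) (hp1 v), sub_self]
        have hp'2 : ∀ w ∈ W', p' w = w := by
          intro w hw
          rw [LinearMap.mem_ker] at hw
          rw [hp', hw, sub_zero]
        have hp'3 : ∀ m v, p' (ρ m v) = ρ m (p' v) := by
          intro m v
          rw [hp', hp', hp3, map_sub]
        let U' : Submodule ℂ V := (U.map W'.subtype).comap p'
        have hU' : U' = ⊤ := by
          apply hgen
          · rintro φ v ⟨u, hu, huv⟩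
            refine ⟨resRep ρ W' hW' φ u, hU φ u hu, ?_⟩
            rw [hp'3, ← huv]
            rfl
          · intro v hv
            refine ⟨⟨p' v, hp'1 v⟩, hUA _ ?_, rfl⟩
            intro φ hφ
            apply Subtype.ext
            rw [resRep_apply]
            change ρ φ (p' v) = p' v
            rw [← hp'3, hv φ hφ]
        rw [eq_top_iff]
        intro w _
        have h1 : (w : V) ∈ U' := by rw [hU']; trivial
        obtain ⟨u, hu, huv⟩ := h1
        rw [hp'2 w w.2] at huv
        have : u = w := Subtype.ext huv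
        rwa [← this]
      refine isCong_mono ?_ (isCong_inf c1 c2)
      rintro φ ⟨h1, h2⟩
      rw [MonoidHom.mem_ker]
      ext v
      have h3 : ρ φ (p v) = p v := by
        have := LinearEquiv.congr_fun h1 ⟨p v, hp1 v⟩
        exact congrArg Subtype.val this
      have hmem : v - p v ∈ W' := by
        rw [LinearMap.mem_ker, map_sub, hp2 (p v) (hp1 v), sub_self]
      have h4 : ρ φ (v - p v) = v - p v := by
        have := LinearEquiv.congr_fun h2 ⟨v - p v, hmem⟩
        exact congrArg Subtype.val this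
      have h5 : v = p v + (v - p v) := by abel
      change ρ φ v = v
      conv_lhs => rw [h5]
      rw [map_add, h3, h4]
      abel

/-- The regular action on functions on a coset space. -/
def regRep (H : Subgroup (MulAut G)) : MulAut G →* (((MulAut G ⧸ H) → ℂ) ≃ₗ[ℂ] ((MulAut G ⧸ H) → ℂ)) where
  toFun := fun φ =>
    { toFun := fun f x => f (φ⁻¹ • x)
      map_add' := fun _ _ => rfl
      map_smul' := fun _ _ => rfl
      invFun := fun f x => f (φ • x)
      left_inv := fun f => by funext x; simp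
      right_inv := fun f => by funext x; simp }
  map_one' := by
    ext f x
    simp
  map_mul' := by
    intro φ ψ
    ext f x
    change _ = ((if _ : True then f else f) : (MulAut G ⧸ H) → ℂ) (ψ⁻¹ • (φ⁻¹ • x))
    simp [mul_smul]

/-- The congruence subgroup property for subgroups containing `A` follows from the one for the
kernels of irreducible representations with nonzero `A`-fixed vectors. -/
theorem cong_of_irr (A : Set (MulAut G)) (hA : IrrCong A) (H : Subgroup (MulAut G))
    (hH : H.FiniteIndex) (hI : ∀ x : G, MulAut.conj x ∈ H) (hAH : A ⊆ H) : IsCong H := by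
  classical
  have hfin : Finite (MulAut G ⧸ H) := Subgroup.finite_quotient_of_finiteIndex
  have hft := Fintype.ofFinite (MulAut G ⧸ H)
  have hker : ∀ φ ∈ (regRep H).ker, ∀ ψ : MulAut G, ψ⁻¹ * φ * ψ ∈ H := by
    intro φ hφ ψ
    rw [MonoidHom.mem_ker] at hφ
    have h1 := LinearEquiv.congr_fun hφ (Pi.single (QuotientGroup.mk ψ : MulAut G ⧸ H) 1)
    have h2 := congrFun h1 (φ • (QuotientGroup.mk ψ : MulAut G ⧸ H))
    change (Pi.single (QuotientGroup.mk ψ : MulAut G ⧸ H) (1 : ℂ) : (MulAut G ⧸ H) → ℂ)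
      (φ⁻¹ • (φ • (QuotientGroup.mk ψ : MulAut G ⧸ H))) =
      (Pi.single (QuotientGroup.mk ψ : MulAut G ⧸ H) (1 : ℂ) : (MulAut G ⧸ H) → ℂ)
        (φ • (QuotientGroup.mk ψ : MulAut G ⧸ H)) at h2
    rw [inv_smul_smul, Pi.single_eq_same] at h2
    by_cases h3 : φ • (QuotientGroup.mk ψ : MulAut G ⧸ H) = QuotientGroup.mk ψ
    · have h4 : (QuotientGroup.mk (φ * ψ) : MulAut G ⧸ H) = QuotientGroup.mk ψ := h3
      have h5 := QuotientGroup.eq.mp h4.symm
      rwa [← mul_assoc] at h5
    · rw [Pi.single_eq_of_ne h3] at h2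
      exact absurd h2 one_ne_zero
  have hker' : ∀ φ : MulAut G, (∀ ψ : MulAut G, ψ⁻¹ * φ * ψ ∈ H) → φ ∈ (regRep H).ker := by
    intro φ hφ
    rw [MonoidHom.mem_ker]
    ext f x
    change f (φ⁻¹ • x) = f x
    congr 1
    induction x using QuotientGroup.induction_on with
    | _ ψ =>
      have h1 : φ • (QuotientGroup.mk ψ : MulAut G ⧸ H) = QuotientGroup.mk ψ := by
        change (QuotientGroup.mk (φ * ψ) : MulAut G ⧸ H) = QuotientGroup.mk ψ
        apply Eq.symm
        rw [QuotientGroup.eq, ← mul_assoc]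
        exact hφ ψ
      rw [inv_smul_eq_iff]
      exact h1.symm
  have hcore : H.normalCore ≤ (regRep H).ker := by
    intro φ hφ
    apply hker'
    intro ψ
    have := hφ ψ⁻¹
    rwa [inv_inv] at this
  have hfi : (regRep H).ker.FiniteIndex := Subgroup.finiteIndex_of_le hcore
  have hinn : ∀ x : G, regRep H (MulAut.conj x) = 1 := by
    intro x
    apply hker'
    intro ψ
    have : ψ⁻¹ * MulAut.conj x * ψ = MulAut.conj (ψ⁻¹ x) := by
      ext y
      simp only [MulAut.mul_apply, MulAut.conj_apply, map_mul, map_inv, MulAut.inv_apply_self]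
    rw [this]
    exact hI _
  have hc : IsCong (regRep H).ker := by
    refine gen_cong A hA _ _ (regRep H) rfl hfi hinn ?_
    intro W hW hWA
    -- the delta function at the base point is fixed
    have h0 : (Pi.single (QuotientGroup.mk 1 : MulAut G ⧸ H) (1 : ℂ) : (MulAut G ⧸ H) → ℂ) ∈ W := by
      apply hWA
      intro φ hφ
      funext x
      change (Pi.single (QuotientGroup.mk 1 : MulAut G ⧸ H) (1 : ℂ) : (MulAut G ⧸ H) → ℂ)
        (φ⁻¹ • x) = (Pi.single (QuotientGroup.mk 1 : MulAut G ⧸ H) (1 : ℂ) :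
        (MulAut G ⧸ H) → ℂ) x
      have hfix : φ • (QuotientGroup.mk 1 : MulAut G ⧸ H) = QuotientGroup.mk 1 := by
        change (QuotientGroup.mk (φ * 1) : MulAut G ⧸ H) = QuotientGroup.mk 1
        apply Eq.symm
        rw [QuotientGroup.eq]
        simpa using hAH hφ
      by_cases hx : x = QuotientGroup.mk 1
      · rw [hx]
        have : φ⁻¹ • (QuotientGroup.mk 1 : MulAut G ⧸ H) = QuotientGroup.mk 1 := by
          rw [inv_smul_eq_iff]; exact hfix.symm
        rw [this]
      · rw [Pi.single_eq_of_ne hx, Pi.single_eq_of_ne]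
        intro h1
        apply hx
        rw [inv_smul_eq_iff] at h1
        rw [h1, hfix]
    have h1 : ∀ ψ : MulAut G,
        (Pi.single (QuotientGroup.mk ψ : MulAut G ⧸ H) (1 : ℂ) : (MulAut G ⧸ H) → ℂ) ∈ W := by
      intro ψ
      have h2 := hW ψ _ h0
      have h3 : regRep H ψ (Pi.single (QuotientGroup.mk 1 : MulAut G ⧸ H) (1 : ℂ)) =
          Pi.single (QuotientGroup.mk ψ : MulAut G ⧸ H) (1 : ℂ) := by
        funext x
        change (Pi.single (QuotientGroup.mk 1 : MulAut G ⧸ H) (1 : ℂ) : (MulAut G ⧸ H) → ℂ)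
          (ψ⁻¹ • x) = _
        have hψ : ψ • (QuotientGroup.mk 1 : MulAut G ⧸ H) = QuotientGroup.mk ψ := by
          change (QuotientGroup.mk (ψ * 1) : MulAut G ⧸ H) = QuotientGroup.mk ψ
          rw [mul_one]
        by_cases hx : x = QuotientGroup.mk ψ
        · have : ψ⁻¹ • x = QuotientGroup.mk 1 := by
            rw [inv_smul_eq_iff, hψ, hx]
          rw [this, hx, Pi.single_eq_same, Pi.single_eq_same]
        · rw [Pi.single_eq_of_ne hx, Pi.single_eq_of_ne]
          intro h4
          apply hx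
          rw [inv_smul_eq_iff, hψ] at h4
          exact h4
      rwa [h3] at h2
    rw [eq_top_iff]
    intro f _
    have h4 : f = ∑ x : MulAut G ⧸ H, f x • (Pi.single x (1 : ℂ) : (MulAut G ⧸ H) → ℂ) := by
      funext y
      simp [Finset.sum_apply, Pi.single_apply]
    rw [h4]
    apply W.sum_mem
    intro x _
    apply W.smul_mem
    induction x using QuotientGroup.induction_on with
    | _ ψ => exact h1 ψ
  refine isCong_mono ?_ hc
  intro φ hφ
  have := hker φ hφ 1
  simpa using this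

end ker

end

end Pool.MP_59b15d_al.H76
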